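import Pool.Agent.H34.EQ.Wrd
import Pool.Agent.H18.DJ.Fin

/-!
# [H34 EQ ALL] Bounded dilations at every scale for all `k`

The density Hales-Jewett theorem gives the systems (`hasSys`), the configurations give clause (1) of the text (`c1`).
-/

set_option autoImplicit false

namespace Pool.Agent.H34.EQ

open Pool.Agent.H62.EX

theorem dhj_all (K : ℕ) (δ : ℝ) (hδ : 0 < δ) : ∃ n : ℕ, 1 ≤ n ∧ DHJ K n δ := by
  obtain ⟨N, hN⟩ := Pool.Agent.H18.DJ.density_hales_jewett K δ hδ
  exact ⟨max N 1, le_max_right _ _, fun S hS => hN _ (le_max_left _ _) S hS⟩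

/-- finite linear systems for every `k` -/
theorem hasSys (k : ℕ) : HasSys k := hasSys_of_dhj k (fun δ hδ => dhj_all (k + 1) δ hδ)

/-- clause (1) -/
theorem c1 (k r : ℕ) (hk : 1 ≤ k) : ∃ D : ℕ, ∀ A W s : ℕ, 0 < W → Nat.Coprime s W → Txt.C1 k r D A W s :=
  plusE (fun K _ δ hδ => dhj_all K δ hδ) (fun k n s R ρ _ hn hs hR => configs k n s R ρ hn hs hR) k r hk

end Pool.Agent.H34.EQ
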