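import Pool.Agent.H34.EQ.Ipb

/-!
# [H34 EQ IPC] Dilations by finite sums of given numbers

`plusIP`: for all `k`, `r` there are `n` and `P` such that for any positive integers `c 1, .., c n` almost all tuples have a good
multiple by `P * W * (c i_1 + .. + c i_j)`, at every scale.
-/

set_option autoImplicit false

namespace Pool.Agent.H34.EQ

open Finset Filter Pool.Agent.H61.UN Pool.Agent.H34.RR Pool.Agent.H62.EX

/-- the sum of `c` over the letters `j + 1` -/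
def cwc {k n : ℕ} (c : Fin n → ℕ) (w : Fin n → Fin (k + 1)) (j : Fin k) : ℕ := ∑ x ∈ univ.filter (fun x => w x = j.succ), c x

/-- the wildcards -/
def wild {k n : ℕ} (l : Combinatorics.Line (Fin (k + 1)) (Fin n)) : Finset (Fin n) := univ.filter (fun x => l.idxFun x = none)

theorem wild_nonempty {k n : ℕ} (l : Combinatorics.Line (Fin (k + 1)) (Fin n)) : (wild l).Nonempty := by
  obtain ⟨x, hx⟩ := l.proper
  exact ⟨x, mem_filter.2 ⟨mem_univ _, hx⟩⟩

theorem cwc_le {k n : ℕ} (c : Fin n → ℕ) (w : Fin n → Fin (k + 1)) (j : Fin k) : cwc c w j ≤ ∑ x, c x :=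
  sum_le_sum_of_subset (filter_subset _ _)

theorem sum_wild_pos {k n : ℕ} (c : Fin n → ℕ) (hc : ∀ x, 1 ≤ c x) (l : Combinatorics.Line (Fin (k + 1)) (Fin n)) :
    1 ≤ ∑ x ∈ wild l, c x := by
  obtain ⟨x, hx⟩ := wild_nonempty l
  exact (hc x).trans (single_le_sum (f := c) (fun _ _ => Nat.zero_le _) hx)

theorem cwc_line {k n : ℕ} (c : Fin n → ℕ) (l : Combinatorics.Line (Fin (k + 1)) (Fin n)) (i j : Fin k) :
    cwc c (l i.succ) j = cwc c (l 0) j + if i = j then ∑ x ∈ wild l, c x else 0 := by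
  have h0 : univ.filter (fun x => l 0 x = j.succ) = univ.filter (fun x => l.idxFun x = some j.succ) := by
    ext x
    rw [mem_filter, mem_filter, line_apply]
    cases hx : l.idxFun x with
    | none =>
      simp only [mem_univ, true_and, Option.getD_none]
      exact ⟨fun h => absurd h (Fin.succ_ne_zero j).symm, fun h => by simp at h⟩
    | some y => simp
  unfold cwc
  rw [h0]
  by_cases hij : i = j
  · subst hij
    rw [if_pos rfl]
    unfold wild
    rw [← sum_union]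
    · refine sum_congr ?_ (fun _ _ => rfl)
      ext x
      rw [mem_union, mem_filter, mem_filter, mem_filter, line_apply]
      cases hx : l.idxFun x with
      | none => simp
      | some y => simp
    · rw [disjoint_left]
      intro x hx hx'
      rw [mem_filter] at hx hx'
      rw [hx.2] at hx'
      simp at hx'
  · rw [if_neg hij]
    show ∑ x ∈ univ.filter (fun x => l i.succ x = j.succ), c x = ∑ x ∈ univ.filter (fun x => l.idxFun x = some j.succ), c x
    refine sum_congr ?_ (fun _ _ => rfl)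
    ext x
    rw [mem_filter, mem_filter, line_apply]
    cases hx : l.idxFun x with
    | none =>
      simp only [mem_univ, true_and, Option.getD_none]
      exact ⟨fun h => absurd (Fin.succ_injective _ h) hij, fun h => by simp at h⟩
    | some y => simp

theorem primorial_dvd_of_le {m n : ℕ} (h : m ≤ n) : primorial m ∣ primorial n := by
  unfold primorial
  refine prod_dvd_prod_of_subset _ _ _ ?_
  intro p hp
  rw [mem_filter, mem_range] at hp ⊢
  exact ⟨by omega, hp.2⟩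

open Classical in
/-- **good multiples by finite sums**: at every scale -/
theorem plusIP (k r : ℕ) : ∃ D n P : ℕ, 0 < P ∧ ∀ c : Fin n → ℕ, (∀ i, 1 ≤ c i) → ∀ A W₀ s₀ : ℕ, 0 < W₀ →
    Nat.Coprime s₀ W₀ → ∀ ε : ℝ, 0 < ε → ∃ (z₀ : ℕ) (d : ℝ), 0 < d ∧ ∀ (χ : ℕ → Fin r) (M z : ℕ), z₀ ≤ z →
      (z : ℝ) ≤ Real.log M ^ A →
      (((Fintype.piFinset (fun _ : Fin k => Icc 1 z)).filter (fun a : Fin k → ℕ => StrictMono a ∧
        ¬ ∃ I : Finset (Fin n), I.Nonempty ∧ Gm W₀ s₀ χ D d M z (fun j => P * W₀ * (∑ i ∈ I, c i) * a j))).card : ℝ) ≤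
          ε * (z : ℝ) ^ k := by
  rcases Nat.eq_zero_or_pos r with hr | hr
  · subst hr
    exact ⟨0, 0, 1, one_pos, fun _ _ _ _ _ _ _ _ _ => ⟨1, 1, one_pos, fun χ => (χ 0).elim0⟩⟩
  have hr0 : (0 : ℝ) < r := by exact_mod_cast hr
  obtain ⟨n, hn, hDHJ⟩ := dhj_all (k + 1) (1 / (100 * (r : ℝ))) (by positivity)
  have := line_finite k n
  obtain ⟨hf⟩ := nonempty_fintype (Combinatorics.Line (Fin (k + 1)) (Fin n))
  have hcardW : Fintype.card (Fin n → Fin (k + 1)) = (k + 1) ^ n := by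
    rw [Fintype.card_fun, Fintype.card_fin, Fintype.card_fin]
  obtain ⟨m, hmd⟩ : ∃ m : ℕ, m = Fintype.card (Fin n → Fin (k + 1)) := ⟨_, rfl⟩
  have hm : 1 ≤ m := by
    rw [hmd]
    exact Fintype.card_pos
  obtain ⟨g⟩ : Nonempty (Fin m ≃ (Fin n → Fin (k + 1))) := by
    rw [hmd]
    exact ⟨(Fintype.equivFin _).symm⟩
  have hS : ∀ S : Finset (Fin n → Fin (k + 1)), 1 / (100 * (r : ℝ)) * Fintype.card (Fin n → Fin (k + 1)) ≤ S.card →
      ∃ l : Combinatorics.Line (Fin (k + 1)) (Fin n), ∀ i, l i ∈ S := by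
    intro S hS
    refine hDHJ S (le_trans (le_of_eq ?_) hS)
    rw [hcardW]
    push_cast
    rfl
  obtain ⟨s, wd1, h1⟩ := plusSI (ι := Combinatorics.Line (Fin (k + 1)) (Fin n)) (k := k) hr hm (fun l i => l i) line_inj line_lin
    (line_cov hn) hS g
  obtain ⟨wd2, h2⟩ := plusCI (ι := Combinatorics.Line (Fin (k + 1)) (Fin n)) (k := k) hr hm (fun l i => l i) line_inj line_lin
    (line_cov hn) hS g
  obtain ⟨P, hP⟩ : ∃ P : ℕ, P = primorial (max wd1 wd2) := ⟨_, rfl⟩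
  have hP0 : 0 < P := by rw [hP]; exact primorial_pos _
  refine ⟨m * s, n, P, hP0, fun c hc A W₀ s₀ hW₀ hs₀ ε hε => ?_⟩
  have hR : 0 < P * W₀ := Nat.mul_pos hP0 hW₀
  have hd1 : primorial wd1 ∣ P * W₀ := by
    refine Dvd.dvd.mul_right ?_ _
    rw [hP]
    exact primorial_dvd_of_le (le_max_left _ _)
  have hd2 : primorial wd2 ∣ P * W₀ := by
    refine Dvd.dvd.mul_right ?_ _
    rw [hP]
    exact primorial_dvd_of_le (le_max_right _ _)
  obtain ⟨z1, c1, d1, hc1, hd1', h1⟩ := h1 (∑ x, c x) (cwc c) (fun l => ∑ x ∈ wild l, c x) (cwc_le c) (sum_wild_pos c hc)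
    (cwc_line c) W₀ s₀ (P * W₀) hW₀ hs₀ hR hd1 (dvd_mul_left _ _) ε hε
  obtain ⟨z2, d2, hd2', h2⟩ := h2 (∑ x, c x) (cwc c) (fun l => ∑ x ∈ wild l, c x) (cwc_le c) (sum_wild_pos c hc)
    (cwc_line c) A W₀ s₀ (P * W₀) hW₀ hs₀ hR hd2 (dvd_mul_left _ _) (m * s) ε c1 hε hc1
  refine ⟨max z1 z2, min d1 d2, lt_min hd1' hd2', fun χ M z hz hzM => ?_⟩
  have hle : ∀ d : ℝ, min d1 d2 ≤ d → (((Fintype.piFinset (fun _ : Fin k => Icc 1 z)).filter (fun a : Fin k → ℕ => StrictMono a ∧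
        ¬ ∃ I : Finset (Fin n), I.Nonempty ∧ Gm W₀ s₀ χ (m * s) (min d1 d2) M z
          (fun j => P * W₀ * (∑ i ∈ I, c i) * a j))).card : ℝ) ≤
      ((BadS (fun a : Fin k → ℕ => Gm W₀ s₀ χ (m * s) d M z a) z (P * W₀)
        (fun l : Combinatorics.Line (Fin (k + 1)) (Fin n) => ∑ x ∈ wild l, c x)).card : ℝ) := by
    intro d hd
    refine Nat.cast_le.2 (card_le_card fun a ha => ?_)
    rw [mem_filter, Fintype.mem_piFinset] at ha
    rw [mem_BadS]
    refine ⟨ha.1, ha.2.1, fun hcon => ha.2.2 ?_⟩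
    obtain ⟨l, hl⟩ := hcon
    exact ⟨wild l, wild_nonempty l, gm_mono (Nat.cast_nonneg _) hd hl⟩
  rcases le_or_gt (z : ℝ) (c1 * Real.log M) with hzc | hzc
  · exact (hle d1 (min_le_left _ _)).trans (h1 χ M z ((le_max_left _ _).trans hz) hzc)
  · exact (hle d2 (min_le_right _ _)).trans (h2 χ M z ((le_max_right _ _).trans hz) hzc hzM)

open Classical in
/-- **clause (1) of the final text, multiples by finite sums** -/
theorem c1IP (k r : ℕ) : ∃ D n P : ℕ, 0 < P ∧ ∀ c : Fin n → ℕ, (∀ i, 1 ≤ c i) → ∀ A W s : ℕ, 0 < W → Nat.Coprime s W →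
    ∀ ε : ℝ, 0 < ε → ∃ B d : ℝ, 0 < d ∧ ∀ (χ : ℕ → Fin r) (M z : ℕ), B ≤ z → (z : ℝ) ≤ Real.log M ^ A →
      (((Fintype.piFinset (fun _ : Fin k => Icc 1 z)).filter (fun a : Fin k → ℕ => StrictMono a ∧
        ¬ ∃ I : Finset (Fin n), I.Nonempty ∧ Txt.Many W s χ ∅ (fun j => P * W * (∑ i ∈ I, c i) * a j) M (Real.log M ^ k)
          (d * min 1 (z / Real.log M) ^ D * M))).card : ℝ) ≤ ε * (z : ℝ) ^ k := by
  obtain ⟨D, n, P, hP, h⟩ := plusIP k r
  refine ⟨D, n, P, hP, fun c hc A W s hW hs ε hε => ?_⟩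
  obtain ⟨z₀, d, hd, h⟩ := h c hc A W s hW hs ε hε
  exact ⟨z₀, d, hd, fun χ M z hz hzM => h χ M z (by exact_mod_cast hz) hzM⟩

end Pool.Agent.H34.EQ
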