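import Pool.Agent.H48.EP.Ban
import Pool.Agent.H34.EQ.Ipc

/-!
# [H34 EQ BIP] Good multiples by finite sums in every cube of `ℤ^k`

The IP form of `banach` (H48/EP/Ban), with `B` independent of the progression.
-/

set_option autoImplicit false

namespace Pool.Agent.H34.EQ

open Finset Filter Pool.Agent.H34.RR Pool.Agent.H61.UN Pool.Agent.H21.MT Pool.Agent.H92.MM Pool.Agent.H48.EP

/-- the systems of words with weights -/
theorem sys_words_c (k : ℕ) (δ : ℝ) (hδ : 0 < δ) : ∃ n m : ℕ, 1 ≤ m ∧ ∀ c : Fin n → ℕ, (∀ x, 1 ≤ c x) →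
    ∃ S : Sys k δ, S.m = m ∧ ∀ a, ∃ I : Finset (Fin n), I.Nonempty ∧ S.μ a = ∑ x ∈ I, c x := by
  classical
  obtain ⟨n, hn, hD⟩ := dhj_all (k + 1) δ hδ
  have := line_finite k n
  obtain ⟨hf⟩ := nonempty_fintype (Combinatorics.Line (Fin (k + 1)) (Fin n))
  have hcard : Fintype.card (Fin n → Fin (k + 1)) = (k + 1) ^ n := by
    rw [Fintype.card_fun, Fintype.card_fin, Fintype.card_fin]
  let e₁ := Fintype.equivFin (Fin n → Fin (k + 1))
  let e₂ := Fintype.equivFin (Combinatorics.Line (Fin (k + 1)) (Fin n))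
  refine ⟨n, Fintype.card (Fin n → Fin (k + 1)), Fintype.card_pos, fun c hc => ⟨{
    m := Fintype.card (Fin n → Fin (k + 1))
    L := Fintype.card (Combinatorics.Line (Fin (k + 1)) (Fin n))
    n := ∑ x, c x
    e := fun a i => e₁ ((e₂.symm a) i)
    c := fun v j => cwc c (e₁.symm v) j
    μ := fun a => ∑ x ∈ wild (e₂.symm a), c x
    hm := Fintype.card_pos
    inj := ?_
    lin := ?_
    cov := ?_
    cle := ?_
    μpos := ?_
    μle := ?_
    smp := ?_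
    dense := ?_ }, rfl, fun a => ⟨wild (e₂.symm a), wild_nonempty _, rfl⟩⟩⟩
  · intro a i j hij
    exact line_inj _ (e₁.injective hij)
  · intro a b hab i j i' j' h1 h2
    exact line_lin (e₂.symm a) (e₂.symm b) (fun h => hab (e₂.symm.injective h)) i j i' j' (e₁.injective h1) (e₁.injective h2)
  · intro v
    obtain ⟨l, i, hl⟩ := line_cov hn (e₁.symm v)
    refine ⟨e₂ l, i, ?_⟩
    rw [Equiv.symm_apply_apply, hl, Equiv.apply_symm_apply]
  · intro v j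
    exact cwc_le c _ j
  · intro a
    exact sum_wild_pos c hc _
  · intro a
    exact sum_le_sum_of_subset (subset_univ _)
  · intro a i j
    simp only [Equiv.symm_apply_apply]
    exact cwc_line c _ i j
  · intro S hS
    obtain ⟨l, hl⟩ := hD (S.map e₁.symm.toEmbedding) (by
      rw [card_map]
      refine le_trans (le_of_eq ?_) hS
      rw [hcard]
      push_cast
      rfl)
    refine ⟨e₂ l, fun i => ?_⟩
    rw [Equiv.symm_apply_apply]
    obtain ⟨v, hv, hv2⟩ := mem_map.1 (hl i)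
    have h1 : e₁.symm v = l i := hv2
    rw [← h1, Equiv.apply_symm_apply]
    exact hv

/-- `a` has a good multiple by `P * W * (c i_1 + .. + c i_j)` -/
def GdI {k r n : ℕ} (W s₀ : ℕ) (χ : ℕ → Fin r) (P : ℕ) (c : Fin n → ℕ) (a : Fin k → ℤ) : Prop :=
  ∃ I : Finset (Fin n), I.Nonempty ∧ ∃ q : Fin r,
    {p : ℕ | Pr W s₀ χ q p ∧ ∀ j, ∃ p' : ℕ, (p' : ℤ) = p + (P * W * ∑ i ∈ I, c i : ℕ) * a j ∧ Pr W s₀ χ q p'}.Infinite

open Classical in
/-- **good multiples by finite sums, upper Banach density** -/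
theorem banachIP (k r : ℕ) : ∃ n P : ℕ, 0 < P ∧ ∀ c : Fin n → ℕ, (∀ i, 1 ≤ c i) → ∀ ε : ℝ, 0 < ε → ∃ B : ℕ,
    ∀ W s₀ : ℕ, 0 < W → Nat.Coprime s₀ W → ∀ (χ : ℕ → Fin r) (z : ℕ), B ≤ z → ∀ b : Fin k → ℤ,
      (((Fintype.piFinset (fun j : Fin k => Ioc (b j) (b j + z))).filter (fun a => ¬ GdI W s₀ χ P c a)).card : ℝ) ≤
        ε * (z : ℝ) ^ k := by
  rcases Nat.eq_zero_or_pos r with hr | hr
  · subst hr
    exact ⟨0, 1, one_pos, fun _ _ _ _ => ⟨0, fun _ _ _ _ χ => (χ 0).elim0⟩⟩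
  have hr0 : (0 : ℝ) < r := by exact_mod_cast hr
  obtain ⟨n, m, hm, hsys⟩ := sys_words_c k (1 / (100 * (r : ℝ))) (by positivity)
  obtain ⟨s, wd, hs, hsv⟩ := one_prime m hm
  obtain ⟨P, hPd⟩ : ∃ P : ℕ, P = primorial wd := ⟨_, rfl⟩
  have hP : 0 < P := by rw [hPd]; exact primorial_pos wd
  refine ⟨n, P, hP, fun c hc ε hε => ?_⟩
  obtain ⟨S, hSm, hSI⟩ := hsys c hc
  subst hSm
  obtain ⟨z₀, hz₀⟩ := one_conf S s hs ε hε
  refine ⟨z₀, fun W s₀ hW hs₀ χ z hz b => ?_⟩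
  obtain ⟨R, hRd⟩ : ∃ R : ℕ, R = P * W := ⟨_, rfl⟩
  have hR : 0 < R := by rw [hRd]; exact Nat.mul_pos hP hW
  have hRw : primorial wd ∣ R := by rw [hRd, hPd]; exact Dvd.intro _ rfl
  have hWR : W ∣ R := by rw [hRd]; exact Dvd.intro_left _ rfl
  have : NeZero W := ⟨hW.ne'⟩
  obtain ⟨ρ, hρ1, hρ2, hρ3⟩ := Nat.forall_exists_prime_gt_and_modEq R hW.ne' hs₀
  have hρR := Nat.coprime_of_lt_prime hR.ne' hρ1 hρ2
  by_contra hcon
  rw [not_le] at hcon
  obtain ⟨E, hE⟩ : ∃ E : Finset (Fin k → ℤ), E = (Fintype.piFinset (fun j : Fin k => Ioc (b j) (b j + z))).filter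
      (fun a => ¬ GdI W s₀ χ P c a) := ⟨_, rfl⟩
  rw [← hE] at hcon
  -- the translate
  obtain ⟨E', hE'⟩ : ∃ E' : Finset (Fin k → ℤ), E' = E.image (fun a => a - b) := ⟨_, rfl⟩
  have hEc : E'.card = E.card := by
    rw [hE']
    exact card_image_of_injective _ (fun x y h => sub_left_injective h)
  have hEz : ∀ a ∈ E', ∀ i, |a i| ≤ z := by
    intro a ha i
    rw [hE', mem_image] at ha
    obtain ⟨a', ha', rfl⟩ := ha
    rw [hE, mem_filter, Fintype.mem_piFinset] at ha'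
    have h1 := mem_Ioc.1 (ha'.1 i)
    rw [Pi.sub_apply, abs_le]
    constructor
    · have : (0 : ℤ) ≤ z := Nat.cast_nonneg _
      linarith [h1.1]
    · linarith [h1.2]
  obtain ⟨u, -, hu1, hu2⟩ := hz₀ z hz E' hEz (by rw [hEc]; exact hcon.le) (fun v => ∑ i, (S.c v i : ℤ) * b i)
  obtain ⟨w, hw⟩ : ∃ w : Fin S.m × Fin s → ℤ, w = fun p => u p + ∑ i, (S.c p.1 i : ℤ) * b i := ⟨_, rfl⟩
  have hw1 : Function.Injective w := by rw [hw]; exact hu1
  obtain ⟨Mb, hMb⟩ : ∃ Mb : ℤ, Mb = ∑ p, |w p| := ⟨_, rfl⟩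
  have hwM : ∀ p, 0 ≤ w p + Mb := by
    intro p
    have h1 := single_le_sum (f := fun p => |w p|) (fun _ _ => abs_nonneg _) (mem_univ p)
    have h2 := neg_abs_le (w p)
    rw [hMb]
    linarith
  obtain ⟨v, hv⟩ : ∃ v : Fin S.m × Fin s → ℕ, v = fun p => ρ + R * (w p + Mb).toNat := ⟨_, rfl⟩
  have hvz : ∀ p, (v p : ℤ) = ρ + R * (w p + Mb) := by
    intro p
    rw [hv]
    push_cast
    rw [Int.toNat_of_nonneg (hwM p)]
  have hRz : (0 : ℤ) < R := by exact_mod_cast hR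
  have hv1 : Function.Injective v := by
    intro p p' hpp
    apply hw1
    have h1 : (v p : ℤ) = v p' := by rw [hpp]
    rw [hvz, hvz] at h1
    have h2 : (R : ℤ) * (w p + Mb) = R * (w p' + Mb) := by linarith
    have h3 := mul_left_cancel₀ hRz.ne' h2
    linarith
  have hv2 : ∀ p, v p ≡ ρ [MOD R] := by
    intro p
    rw [hv]
    show (ρ + R * (w p + Mb).toNat) % R = ρ % R
    rw [Nat.add_mul_mod_self_left]
  have hv3 : ∀ p, Nat.Coprime (v p) R := by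
    intro p
    have h4 : Nat.gcd ρ R = 1 := hρR
    show Nat.gcd (v p) R = 1
    rw [← h4]
    exact Nat.ModEq.gcd_eq (hv2 p)
  have hv4 : ∀ (a : Fin S.L) (t : Fin (k + 1) → Fin s), ∃ a₁ ∈ E, ∀ i : Fin k,
      (v (S.e a i.succ, t i.succ) : ℤ) - (v (S.e a 0, t 0) : ℤ) = ((R * S.μ a : ℕ) : ℤ) * a₁ i := by
    intro a t
    obtain ⟨b', hb', hbd⟩ := hu2 a t
    rw [hE', mem_image] at hb'
    obtain ⟨a₁, ha₁, rfl⟩ := hb'
    refine ⟨a₁, ha₁, fun i => ?_⟩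
    rw [hvz, hvz, hw]
    have h1 := hbd i
    have h2 : ∑ j, (S.c (S.e a i.succ) j : ℤ) * b j = ∑ j, (S.c (S.e a 0) j : ℤ) * b j + S.μ a * b i := by
      rw [← sub_eq_iff_eq_add', ← sum_sub_distrib, sum_eq_single i]
      · rw [S.smp, if_pos rfl]
        push_cast
        ring
      · intro j _ hj
        rw [S.smp, if_neg (Ne.symm hj), Nat.add_zero, sub_self]
      · intro hh
        exact absurd (mem_univ _) hh
    dsimp only
    rw [h2]
    rw [Pi.sub_apply] at h1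
    push_cast
    linear_combination (R : ℤ) * h1
  -- primes
  have hp : ∀ N₀ : ℕ, ∃ N : ℕ, N₀ ≤ N ∧ ∃ x : Fin r × Fin S.L × (Fin (k + 1) → Fin s), ∀ j, Pr W s₀ χ x.1 (N + v (S.e x.2.1 j, x.2.2 j)) := by
    intro N₀
    obtain ⟨N, hN, hRN, hwc⟩ := hsv R hR hRw v hv1 hv3 N₀
    obtain ⟨q, a, t, hat⟩ := pick hr S χ N v hwc
    refine ⟨N, hN, (q, a, t), fun j => ⟨(hat j).1, (hat j).2, ?_⟩⟩
    have h4 : N ≡ 0 [MOD W] := Nat.modEq_zero_iff_dvd.2 (hWR.trans hRN)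
    have h6 := h4.add ((hv2 (S.e a j, t j)).of_dvd hWR)
    rw [Nat.zero_add] at h6
    exact h6.trans hρ3
  obtain ⟨x, hx⟩ : ∃ x : Fin r × Fin S.L × (Fin (k + 1) → Fin s), ∀ N₀ : ℕ, ∃ N : ℕ, N₀ ≤ N ∧
      ∀ j, Pr W s₀ χ x.1 (N + v (S.e x.2.1 j, x.2.2 j)) := by
    by_contra hcon2
    push Not at hcon2
    choose f hf using hcon2
    obtain ⟨N, hN, x, hx⟩ := hp (∑ x, f x)
    have h1 := single_le_sum (f := f) (fun _ _ => Nat.zero_le _) (mem_univ x)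
    obtain ⟨j, hj⟩ := hf x N (h1.trans hN)
    exact hj (hx j)
  obtain ⟨q, a, t⟩ := x
  obtain ⟨a₁, ha₁, hd⟩ := hv4 a t
  have hbad := (mem_filter.1 (hE ▸ ha₁)).2
  apply hbad
  obtain ⟨I, hI, hIμ⟩ := hSI a
  refine ⟨I, hI, q, ?_⟩
  rw [← hIμ, ← hRd]
  rw [← Set.not_finite] 
  intro hfin
  obtain ⟨Bd, hBd⟩ := hfin.bddAbove
  obtain ⟨N, hN, hx2⟩ := hx (Bd + 1)
  have h1 : N + v (S.e a 0, t 0) ≤ Bd := hBd (by
    refine ⟨hx2 0, fun j => ⟨N + v (S.e a j.succ, t j.succ), ?_, hx2 j.succ⟩⟩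
    have h3 := hd j
    push_cast
    push_cast at h3
    linarith)
  omega

end Pool.Agent.H34.EQ
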