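import Pool.Agent.H34.EQ.Rem
import Pool.Agent.H82.KST.Blow

/-!
# [H34 EQ CFG] Many configurations

A system: points `w ∈ W` with coordinates `N w : Fin k → ℕ`, lines `e l : Fin (k + 1) → W` with
`N (e l (i + 1)) = N (e l 0) + mm l e_i`, two lines have at most one common point.  If `B` is a set of at least `ε z ^ k` tuples up
to `z`, then there are at least `c L ^ (|W| s)` configurations `v : W × Fin s → ℕ` of numbers up to `L`, all `≡ ρ (mod R)`, such
that for every line all the tuples with one number from each cluster of the line are `x, x + R mm b_1, .., x + R mm b_k` with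
`b ∈ B`.
-/

set_option autoImplicit false

namespace Pool.Agent.H34.EQ

open Finset

/-- few functions are not injective -/
theorem noninj_card (P X : Type) [Fintype P] [DecidableEq P] [Fintype X] [DecidableEq X] :
    Fintype.card X * (univ.filter (fun y : P → X => ¬ Function.Injective y)).card ≤
      Fintype.card P ^ 2 * Fintype.card X ^ Fintype.card P := by
  classical
  have h1 : univ.filter (fun y : P → X => ¬ Function.Injective y) ⊆
      (univ : Finset (P × P)).biUnion (fun q => univ.filter (fun y : P → X => q.1 ≠ q.2 ∧ y q.1 = y q.2)) := by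
    intro y hy
    rw [mem_filter] at hy
    have h2 := hy.2
    unfold Function.Injective at h2
    push Not at h2
    obtain ⟨p, p', h3, h4⟩ := h2
    rw [mem_biUnion]
    exact ⟨(p, p'), mem_univ _, mem_filter.2 ⟨mem_univ _, h4, h3⟩⟩
  have h2 : ∀ q : P × P, Fintype.card X * (univ.filter (fun y : P → X => q.1 ≠ q.2 ∧ y q.1 = y q.2)).card ≤
      Fintype.card X ^ Fintype.card P := by
    intro q
    by_cases hq : q.1 = q.2
    · rw [filter_false_of_mem (fun y _ h => h.1 hq), card_empty, Nat.mul_zero]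
      exact Nat.zero_le _
    · have h3 : Fintype.card X ^ Fintype.card P = (univ : Finset (P → X)).card := by
        rw [card_univ, Fintype.card_fun]
      rw [h3, ← card_univ (α := X), ← card_product]
      refine card_le_card_of_injOn (fun p => Function.update p.2 q.1 p.1) (fun _ _ => mem_coe.2 (mem_univ _)) ?_
      rintro ⟨x, y⟩ hy ⟨x', y'⟩ hy' h
      rw [mem_coe, mem_product, mem_filter] at hy hy'
      have e1 : y q.1 = y q.2 := hy.2.2.2
      have e2 : y' q.1 = y' q.2 := hy'.2.2.2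
      have h4 : Function.update y q.1 x = Function.update y' q.1 x' := h
      have h5 : x = x' := by
        have := congrFun h4 q.1
        rwa [Function.update_self, Function.update_self] at this
      have h6 : ∀ p, p ≠ q.1 → y p = y' p := by
        intro p hp
        have := congrFun h4 p
        rwa [Function.update_of_ne hp, Function.update_of_ne hp] at this
      have h7 : y = y' := by
        funext p
        by_cases hp : p = q.1
        · rw [hp, e1, e2]
          exact h6 q.2 (fun h => hq h.symm)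
        · exact h6 p hp
      rw [h5, h7]
  calc Fintype.card X * (univ.filter (fun y : P → X => ¬ Function.Injective y)).card ≤
        Fintype.card X * ∑ q : P × P, (univ.filter (fun y : P → X => q.1 ≠ q.2 ∧ y q.1 = y q.2)).card :=
        Nat.mul_le_mul_left _ ((card_le_card h1).trans card_biUnion_le)
    _ = ∑ q : P × P, Fintype.card X * (univ.filter (fun y : P → X => q.1 ≠ q.2 ∧ y q.1 = y q.2)).card := mul_sum _ _ _
    _ ≤ ∑ _q : P × P, Fintype.card X ^ Fintype.card P := sum_le_sum fun q _ => h2 q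
    _ = Fintype.card P ^ 2 * Fintype.card X ^ Fintype.card P := by
        rw [sum_const, card_univ, Fintype.card_prod, smul_eq_mul, sq]

/-- the position of a trivial configuration determines the parameters -/
theorem triv_inj {W ι : Type} {k : ℕ} (e : ι → Fin (k + 1) → W) (N : W → Fin k → ℕ) (mm : ι → ℕ) (hmm : ∀ l, 1 ≤ mm l)
    (hpt : ∀ l (i j : Fin k), N (e l i.succ) j = N (e l 0) j + if i = j then mm l else 0) (l : ι) (h h' : ℕ)
    (a a' : Fin k → ℕ) (heq : ∀ i, h + ∑ j, N (e l i) j * a j = h' + ∑ j, N (e l i) j * a' j) : h = h' ∧ a = a' := by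
  have h1 : ∀ (i : Fin k) (a : Fin k → ℕ), ∑ j, N (e l i.succ) j * a j = ∑ j, N (e l 0) j * a j + mm l * a i := by
    intro i a
    have h2 : ∀ j, N (e l i.succ) j * a j = N (e l 0) j * a j + if i = j then mm l * a j else 0 := by
      intro j
      rw [hpt, Nat.add_mul]
      by_cases hij : i = j
      · rw [if_pos hij, if_pos hij]
      · rw [if_neg hij, if_neg hij, Nat.zero_mul]
    rw [sum_congr rfl fun j _ => h2 j, sum_add_distrib, sum_ite_eq univ i, if_pos (mem_univ _)]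
  have h0 := heq 0
  have ha : a = a' := by
    funext i
    have h2 := heq i.succ
    rw [h1, h1] at h2
    have h3 : mm l * a i = mm l * a' i := by omega
    exact Nat.eq_of_mul_eq_mul_left (hmm l) h3
  refine ⟨?_, ha⟩
  rw [ha] at h0
  omega

open Classical in
/-- **many configurations** -/
theorem conf_sys {W ι : Type} [Fintype W] [DecidableEq W] [Nonempty W] [Fintype ι] {k : ℕ} (n : ℕ)
    (e : ι → Fin (k + 1) → W) (N : W → Fin k → ℕ) (mm : ι → ℕ) (hN : ∀ w i, N w i ≤ n) (hmm : ∀ l, 1 ≤ mm l)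
    (hpt : ∀ l (i j : Fin k), N (e l i.succ) j = N (e l 0) j + if i = j then mm l else 0)
    (hinj : ∀ l, Function.Injective (e l))
    (hlin : ∀ l l', l ≠ l' → ∀ i j i' j', e l i = e l' i' → e l j = e l' j' → i = j) (hcov : ∀ w, ∃ l i, e l i = w)
    (s R ρ : ℕ) (hs : 1 ≤ s) (hR : 0 < R) (ε : ℝ) (hε : 0 < ε) :
    ∃ (c : ℝ) (L0 : ℕ), 0 < c ∧ ∀ z : ℕ, L0 ≤ z → ∀ B : Finset (Fin k → ℕ), (∀ a ∈ B, ∀ i, a i ≤ z) →
      ε * (z : ℝ) ^ k ≤ B.card → ∃ 𝓗 : Finset (W × Fin s → ℕ),
        c * ((R * ((n * k + 1) * z) : ℕ) : ℝ) ^ (Fintype.card W * s) ≤ 𝓗.card ∧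
        ∀ v ∈ 𝓗, Function.Injective v ∧ (∀ p, v p ≤ R * ((n * k + 1) * z)) ∧ (∀ p, v p ≡ ρ [MOD R]) ∧
          ∀ l, ∀ t : Fin (k + 1) → Fin s, ∃ b ∈ B, ∀ i : Fin k,
            v (e l i.succ, t i.succ) = v (e l 0, t 0) + R * mm l * b i := by
  obtain ⟨C, hC⟩ : ∃ C : ℕ, C = n * k + 1 := ⟨_, rfl⟩
  have hC1 : 1 ≤ C := by omega
  have hC0 : (0 : ℝ) < C := by exact_mod_cast hC1
  obtain ⟨c1, hc1, hrem⟩ := linear_removal e hinj hlin hcov (ε / (C : ℝ) ^ (k + 1)) (by positivity)
  obtain ⟨c2, hc2⟩ : ∃ c2 : ℝ, c2 = c1 ^ (s ^ Fintype.card W) := ⟨_, rfl⟩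
  have hc20 : 0 < c2 := by rw [hc2]; positivity
  obtain ⟨p, hp⟩ : ∃ p : ℕ, p = Fintype.card W * s := ⟨_, rfl⟩
  have hR0 : (0 : ℝ) < R := by exact_mod_cast hR
  obtain ⟨L0, hL0⟩ := exists_nat_ge (2 * (p : ℝ) ^ 2 / c2)
  refine ⟨c2 / (2 * (R : ℝ) ^ p), max L0 1, by positivity, fun z hz B hB1 hB2 => ?_⟩
  rw [← hC, ← hp]
  have hz1 : 1 ≤ z := (le_max_right _ _).trans hz
  have hCz : 0 < C * z := Nat.mul_pos hC1 hz1
  have hz0 : (0 : ℝ) < z := by exact_mod_cast hz1
  obtain ⟨w₀⟩ := ‹Nonempty W›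
  obtain ⟨l₀, -, -⟩ := hcov w₀
  have : Nonempty (Fin (C * z)) := ⟨⟨0, hCz⟩⟩
  have hcX : Fintype.card (Fin (C * z)) = C * z := Fintype.card_fin _
  obtain ⟨E, hE⟩ : ∃ E : ι → Finset (Fin (k + 1) → Fin (C * z)), E = fun l => univ.filter (fun y =>
    ∃ b ∈ B, ∀ i : Fin k, ((y i.succ : Fin (C * z)) : ℕ) = y 0 + mm l * b i) := ⟨_, rfl⟩
  obtain ⟨T, hT⟩ : ∃ T : Finset (W → Fin (C * z)), T = univ.filter (fun x =>
    ∃ h < z, ∃ a ∈ B, ∀ w, ((x w : Fin (C * z)) : ℕ) = h + ∑ j, N w j * a j) := ⟨_, rfl⟩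
  have hTc : z * B.card ≤ T.card := by
    have h0 : z * B.card = ((range z) ×ˢ B).card := by rw [card_product, card_range]
    rw [h0]
    have hlt : ∀ h < z, ∀ a ∈ B, ∀ w, h + ∑ j, N w j * a j < C * z := by
      intro h hh a ha w
      have h1 : ∑ j, N w j * a j ≤ ∑ _j : Fin k, n * z := sum_le_sum fun j _ => Nat.mul_le_mul (hN w j) (hB1 a ha j)
      rw [sum_const, card_univ, Fintype.card_fin, smul_eq_mul] at h1
      have h2 : C * z = k * (n * z) + z := by rw [hC]; ring
      omega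
    refine card_le_card_of_injOn (fun q w => ⟨(q.1 + ∑ j, N w j * q.2 j) % (C * z), Nat.mod_lt _ hCz⟩) ?_ ?_
    · rintro ⟨h, a⟩ hq
      rw [mem_coe, mem_product, mem_range] at hq
      rw [mem_coe, hT, mem_filter]
      refine ⟨mem_univ _, h, hq.1, a, hq.2, fun w => ?_⟩
      exact Nat.mod_eq_of_lt (hlt h hq.1 a hq.2 w)
    · rintro ⟨h, a⟩ hq ⟨h', a'⟩ hq' heq
      rw [mem_coe, mem_product, mem_range] at hq hq'
      obtain ⟨h1, h2⟩ := triv_inj e N mm hmm hpt l₀ h h' a a' (fun i => by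
        have h3 := congrArg Fin.val (congrFun heq (e l₀ i))
        have h4 : (h + ∑ j, N (e l₀ i) j * a j) % (C * z) = (h' + ∑ j, N (e l₀ i) j * a' j) % (C * z) := h3
        rw [Nat.mod_eq_of_lt (hlt h hq.1 a hq.2 _), Nat.mod_eq_of_lt (hlt h' hq'.1 a' hq'.2 _)] at h4
        exact h4)
      rw [h1, h2]
  have h1 := hrem (Fin (C * z)) E T (by
    intro x hx l
    rw [hT, mem_filter] at hx
    obtain ⟨-, h, hh, a, ha, hx⟩ := hx
    rw [hE, mem_filter]
    refine ⟨mem_univ _, a, ha, fun i => ?_⟩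
    rw [hx, hx]
    have h2 : ∀ j, N (e l i.succ) j * a j = N (e l 0) j * a j + if i = j then mm l * a j else 0 := by
      intro j
      rw [hpt, Nat.add_mul]
      by_cases hij : i = j
      · rw [if_pos hij, if_pos hij]
      · rw [if_neg hij, if_neg hij, Nat.zero_mul]
    rw [sum_congr rfl fun j _ => h2 j, sum_add_distrib, sum_ite_eq univ i, if_pos (mem_univ _), Nat.add_assoc]) (by
    intro l x hx x' hx' heq
    rw [hT, mem_filter] at hx hx'
    obtain ⟨-, h, hh, a, ha, hx⟩ := hx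
    obtain ⟨-, h', hh', a', ha', hx'⟩ := hx'
    obtain ⟨h2, h3⟩ := triv_inj e N mm hmm hpt l h h' a a' (fun i => by rw [← hx, ← hx', heq i])
    funext w
    apply Fin.ext
    rw [hx, hx', h2, h3]) (by
    rw [hcX]
    have h2 : (z : ℝ) * B.card ≤ T.card := by exact_mod_cast hTc
    refine le_trans ?_ h2
    push_cast
    calc ε / (C : ℝ) ^ (k + 1) * ((C : ℝ) * z) ^ (k + 1) = z * (ε * (z : ℝ) ^ k) := by
          rw [mul_pow, pow_succ (z : ℝ) k]
          field_simp
      _ ≤ z * B.card := mul_le_mul_of_nonneg_left hB2 hz0.le)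
  obtain ⟨S, hS⟩ : ∃ S : Finset (W → Fin (C * z)), S = univ.filter (fun x => ∀ l, (fun i => x (e l i)) ∈ E l) := ⟨_, rfl⟩
  replace h1 : c1 * (Fintype.card (Fin (C * z)) : ℝ) ^ Fintype.card W ≤ (S.card : ℝ) := by
    refine h1.trans (Nat.cast_le.2 (card_le_card fun x hx => ?_))
    rw [hS]
    simp only [mem_filter, mem_univ, true_and] at hx ⊢
    exact hx
  have h2 := Pool.Agent.H82.KST.blow s hs (Fin (C * z)) S c1 hc1.le h1
  rw [← hc2, Nat.mul_comm s, ← hp, hcX] at h2
  obtain ⟨Yb, hYb⟩ : ∃ Yb : Finset (W × Fin s → Fin (C * z)), Yb = univ.filter (fun y => ∀ t : W → Fin s,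
    (fun w => y (w, t w)) ∈ S) := ⟨_, rfl⟩
  replace h2 : c2 * ((C * z : ℕ) : ℝ) ^ p ≤ (Yb.card : ℝ) := by
    refine h2.trans (Nat.cast_le.2 (card_le_card fun x hx => ?_))
    rw [hYb]
    simp only [mem_filter, mem_univ, true_and] at hx ⊢
    exact hx
  have h3 := noninj_card (W × Fin s) (Fin (C * z))
  rw [hcX, Fintype.card_prod, Fintype.card_fin, ← hp] at h3
  have hCzr : (0 : ℝ) < ((C * z : ℕ) : ℝ) := by exact_mod_cast hCz
  have h4 : ((univ.filter (fun y : W × Fin s → Fin (C * z) => ¬ Function.Injective y)).card : ℝ) ≤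
      c2 / 2 * ((C * z : ℕ) : ℝ) ^ p := by
    have h5 : ((C * z : ℕ) : ℝ) * ((univ.filter (fun y : W × Fin s → Fin (C * z) => ¬ Function.Injective y)).card : ℝ) ≤
        (p : ℝ) ^ 2 * ((C * z : ℕ) : ℝ) ^ p := by exact_mod_cast h3
    have h6 : 2 * (p : ℝ) ^ 2 / c2 ≤ ((C * z : ℕ) : ℝ) := by
      have h7 : L0 ≤ C * z := by
        calc L0 ≤ z := (le_max_left _ _).trans hz
          _ = 1 * z := (Nat.one_mul z).symm
          _ ≤ C * z := Nat.mul_le_mul_right z hC1
      exact hL0.trans (by exact_mod_cast h7)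
    rw [div_le_iff₀ hc20] at h6
    have h7 : (p : ℝ) ^ 2 * ((C * z : ℕ) : ℝ) ^ p ≤ ((C * z : ℕ) : ℝ) * (c2 / 2 * ((C * z : ℕ) : ℝ) ^ p) := by
      have h8 : (0 : ℝ) ≤ ((C * z : ℕ) : ℝ) ^ p := by positivity
      nlinarith
    exact le_of_mul_le_mul_left (h5.trans h7) hCzr
  obtain ⟨Yi, hYi⟩ : ∃ Yi : Finset (W × Fin s → Fin (C * z)), Yi = Yb.filter (fun y => Function.Injective y) := ⟨_, rfl⟩
  have h5 : c2 / 2 * ((C * z : ℕ) : ℝ) ^ p ≤ Yi.card := by
    have h6 : Yb.card ≤ Yi.card + (univ.filter (fun y : W × Fin s → Fin (C * z) => ¬ Function.Injective y)).card := by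
      refine (card_le_card fun y hy => ?_).trans (card_union_le _ _)
      rw [mem_union, hYi, mem_filter, mem_filter]
      by_cases hi : Function.Injective y
      · exact Or.inl ⟨hy, hi⟩
      · exact Or.inr ⟨mem_univ _, hi⟩
    have h7 : (Yb.card : ℝ) ≤ Yi.card + ((univ.filter (fun y : W × Fin s → Fin (C * z) => ¬ Function.Injective y)).card : ℝ) := by
      exact_mod_cast h6
    linarith
  obtain ⟨ψ, hψ⟩ : ∃ ψ : (W × Fin s → Fin (C * z)) → (W × Fin s → ℕ), ψ = fun y q => ρ % R + R * (y q : ℕ) := ⟨_, rfl⟩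
  have hψi : Function.Injective ψ := by
    intro y y' h
    funext q
    apply Fin.ext
    have h6 := congrFun h q
    rw [hψ] at h6
    have h7 : ρ % R + R * (y q : ℕ) = ρ % R + R * (y' q : ℕ) := h6
    exact Nat.eq_of_mul_eq_mul_left hR (Nat.add_left_cancel h7)
  refine ⟨Yi.image ψ, ?_, fun v hv => ?_⟩
  · rw [card_image_of_injective _ hψi]
    refine le_trans (le_of_eq ?_) h5
    push_cast
    rw [mul_pow]
    field_simp
  · obtain ⟨y, hy, rfl⟩ := mem_image.1 hv
    rw [hYi, mem_filter, hYb, mem_filter] at hy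
    obtain ⟨⟨-, hyS⟩, hyi⟩ := hy
    refine ⟨fun q q' h => ?_, fun q => ?_, fun q => ?_, fun l t => ?_⟩
    · rw [hψ] at h
      have h7 : ρ % R + R * (y q : ℕ) = ρ % R + R * (y q' : ℕ) := h
      exact hyi (Fin.ext (Nat.eq_of_mul_eq_mul_left hR (Nat.add_left_cancel h7)))
    · rw [hψ]
      show ρ % R + R * (y q : ℕ) ≤ R * (C * z)
      have h7 : (y q : ℕ) + 1 ≤ C * z := (y q).2
      have h8 := Nat.mod_lt ρ hR
      have h9 : R * ((y q : ℕ) + 1) ≤ R * (C * z) := Nat.mul_le_mul_left R h7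
      rw [Nat.mul_add, Nat.mul_one] at h9
      omega
    · rw [hψ]
      show ρ % R + R * (y q : ℕ) ≡ ρ [MOD R]
      unfold Nat.ModEq
      rw [Nat.add_mul_mod_self_left, Nat.mod_mod]
    · have h6 := hyS (Function.extend (e l) t (fun _ => ⟨0, hs⟩))
      rw [hS, mem_filter] at h6
      have h7 := h6.2 l
      rw [hE, mem_filter] at h7
      obtain ⟨-, b, hb, h7⟩ := h7
      refine ⟨b, hb, fun i => ?_⟩
      have h8 := h7 i
      simp only [(hinj l).extend_apply] at h8
      rw [hψ]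
      show ρ % R + R * (y (e l i.succ, t i.succ) : ℕ) = ρ % R + R * (y (e l 0, t 0) : ℕ) + R * mm l * b i
      rw [h8]
      ring

end Pool.Agent.H34.EQ
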