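import Pool.Agent.H34.EQ.Reg

/-!
# [H34 EQ CNT] Counting lemma for linear hypergraphs

In a product of parts such that the cells of all lines are regular, the number of configurations is the product of the
densities, up to a small error.  The hypergraph of the lines is linear: two lines have at most one common point.
-/

set_option autoImplicit false

namespace Pool.Agent.H34.EQ

open Finset

/-- resampling the coordinates in the image of `e` -/
theorem resample {W X : Type} [Fintype W] [DecidableEq W] [DecidableEq X] {K : ℕ} (e : Fin K → W)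
    (he : Function.Injective e) (Y : W → Finset X) (g : (W → X) → ℝ) :
    ∑ x ∈ Fintype.piFinset Y, ∑ z ∈ Fintype.piFinset (fun i => Y (e i)), g (Function.extend e z x) =
      ((Fintype.piFinset (fun i => Y (e i))).card : ℝ) * ∑ x ∈ Fintype.piFinset Y, g x := by
  have hext : ∀ (x : W → X) (z : Fin K → X) (i : Fin K), Function.extend e z x (e i) = z i := fun x z i =>
    he.extend_apply z x i
  have hext' : ∀ (x : W → X) (z : Fin K → X) (w : W), (¬ ∃ i, e i = w) → Function.extend e z x w = x w := fun x z w hw =>
    Function.extend_apply' z x w hw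
  have hback : ∀ (x : W → X) (z : Fin K → X), Function.extend e (fun i => x (e i)) (Function.extend e z x) = x := by
    intro x z
    funext w
    by_cases hw : ∃ i, e i = w
    · obtain ⟨i, rfl⟩ := hw
      rw [hext]
    · rw [hext' _ _ w hw, hext' _ _ w hw]
  have h1 : ∑ p ∈ Fintype.piFinset Y ×ˢ Fintype.piFinset (fun i => Y (e i)), g (Function.extend e p.2 p.1) =
      ∑ p ∈ Fintype.piFinset Y ×ˢ Fintype.piFinset (fun i => Y (e i)), g p.1 := by
    refine sum_nbij' (fun p => (Function.extend e p.2 p.1, fun i => p.1 (e i)))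
      (fun p => (Function.extend e p.2 p.1, fun i => p.1 (e i))) ?_ ?_ ?_ ?_ ?_
    · rintro ⟨x, z⟩ hp
      rw [mem_product, Fintype.mem_piFinset, Fintype.mem_piFinset] at hp
      rw [mem_product, Fintype.mem_piFinset, Fintype.mem_piFinset]
      refine ⟨fun w => ?_, fun i => hp.1 (e i)⟩
      by_cases hw : ∃ i, e i = w
      · obtain ⟨i, rfl⟩ := hw
        show Function.extend e z x (e i) ∈ Y (e i)
        rw [hext]
        exact hp.2 i
      · show Function.extend e z x w ∈ Y w
        rw [hext' _ _ w hw]
        exact hp.1 w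
    · rintro ⟨x, z⟩ hp
      rw [mem_product, Fintype.mem_piFinset, Fintype.mem_piFinset] at hp
      rw [mem_product, Fintype.mem_piFinset, Fintype.mem_piFinset]
      refine ⟨fun w => ?_, fun i => hp.1 (e i)⟩
      by_cases hw : ∃ i, e i = w
      · obtain ⟨i, rfl⟩ := hw
        show Function.extend e z x (e i) ∈ Y (e i)
        rw [hext]
        exact hp.2 i
      · show Function.extend e z x w ∈ Y w
        rw [hext' _ _ w hw]
        exact hp.1 w
    · rintro ⟨x, z⟩ _
      show (Function.extend e (fun i => x (e i)) (Function.extend e z x),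
        fun i => (Function.extend e z x) (e i)) = (x, z)
      rw [hback]
      refine Prod.ext rfl ?_
      funext i
      exact hext x z i
    · rintro ⟨x, z⟩ _
      show (Function.extend e (fun i => x (e i)) (Function.extend e z x),
        fun i => (Function.extend e z x) (e i)) = (x, z)
      rw [hback]
      refine Prod.ext rfl ?_
      funext i
      exact hext x z i
    · rintro ⟨x, z⟩ _
      rfl
  rw [sum_product, sum_product] at h1
  rw [h1, mul_sum]
  refine sum_congr rfl fun x _ => ?_
  show ∑ _y ∈ Fintype.piFinset (fun i => Y (e i)), g x = _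
  rw [sum_const, nsmul_eq_mul]

/-- if all the resampled sums are small then the sum is small -/
theorem resample_bd {W X : Type} [Fintype W] [DecidableEq W] [DecidableEq X] {K : ℕ} (e : Fin K → W)
    (he : Function.Injective e) (Y : W → Finset X) (g : (W → X) → ℝ) (ε : ℝ)
    (h : ∀ x ∈ Fintype.piFinset Y, |∑ z ∈ Fintype.piFinset (fun i => Y (e i)), g (Function.extend e z x)| ≤
      ε * ((Fintype.piFinset (fun i => Y (e i))).card : ℝ)) :
    |∑ x ∈ Fintype.piFinset Y, g x| ≤ ε * ((Fintype.piFinset Y).card : ℝ) := by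
  obtain ⟨c, hc⟩ : ∃ c : ℝ, c = ((Fintype.piFinset (fun i => Y (e i))).card : ℝ) := ⟨_, rfl⟩
  have h1 := resample e he Y g
  rw [← hc] at h1
  have h2 : |c * ∑ x ∈ Fintype.piFinset Y, g x| ≤ ((Fintype.piFinset Y).card : ℝ) * (ε * c) := by
    rw [← h1]
    refine (abs_sum_le_sum_abs _ _).trans ?_
    calc ∑ x ∈ Fintype.piFinset Y, |∑ z ∈ Fintype.piFinset (fun i => Y (e i)), g (Function.extend e z x)| ≤
          ∑ _x ∈ Fintype.piFinset Y, ε * c := sum_le_sum fun x hx => by rw [hc]; exact h x hx
      _ = ((Fintype.piFinset Y).card : ℝ) * (ε * c) := by rw [sum_const, nsmul_eq_mul]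
  have hc0 : 0 ≤ c := by rw [hc]; exact Nat.cast_nonneg _
  rcases eq_or_lt_of_le hc0 with h3 | h3
  · -- the product is empty
    have h4 : (Fintype.piFinset (fun i => Y (e i))).card = 0 := by
      rw [← h3] at hc
      exact_mod_cast hc.symm
    have h5 : Fintype.piFinset Y = ∅ := by
      rw [eq_empty_iff_forall_notMem]
      intro x hx
      have h6 : (fun i => x (e i)) ∈ Fintype.piFinset (fun i => Y (e i)) := by
        rw [Fintype.mem_piFinset]
        intro i
        exact (Fintype.mem_piFinset.1 hx) (e i)
      rw [card_eq_zero.1 h4] at h6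
      exact notMem_empty _ h6
    rw [h5]
    simp
  · rw [abs_mul, abs_of_pos h3] at h2
    have h4 : ((Fintype.piFinset Y).card : ℝ) * (ε * c) = c * (ε * ((Fintype.piFinset Y).card : ℝ)) := by ring
    rw [h4] at h2
    exact le_of_mul_le_mul_left h2 h3

open Classical in
/-- the indicator function -/
noncomputable def ind {X : Type} {K : ℕ} (E : Finset (Fin K → X)) (x : Fin K → X) : ℝ := if x ∈ E then 1 else 0

open Classical in
/-- one step of the telescoping -/
theorem count_step {W ι X κ : Type} [Fintype W] [DecidableEq W] [Fintype X] [DecidableEq κ] {K : ℕ} (e : ι → Fin K → W)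
    (hinj : ∀ l, Function.Injective (e l))
    (hlin : ∀ l l', l ≠ l' → ∀ i j i' j', e l i = e l' i' → e l j = e l' j' → i = j)
    (E : ι → Finset (Fin K → X)) (P : X → κ) (c : W → κ) (ε : ℝ) (L : Finset ι) (l₀ : ι) (hl₀ : l₀ ∉ L)
    (hreg : ¬ Irr ε P (ind (E l₀)) (fun i => c (e l₀ i))) :
    |∑ x ∈ Fintype.piFinset (fun w => univ.filter (fun y => P y = c w)),
      (if ∀ l ∈ L, (fun i => x (e l i)) ∈ E l then
        (ind (E l₀) (fun i => x (e l₀ i)) - dn P (ind (E l₀)) (fun i => c (e l₀ i))) else 0)| ≤
      ε * ((Fintype.piFinset (fun w : W => univ.filter (fun y => P y = c w))).card : ℝ) := by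
  refine resample_bd (e l₀) (hinj l₀) _ _ ε fun x hx => ?_
  have hext : ∀ (z : Fin K → X) (i : Fin K), Function.extend (e l₀) z x (e l₀ i) = z i := fun z i =>
    (hinj l₀).extend_apply z x i
  have hext' : ∀ (z : Fin K → X) (w : W), (¬ ∃ i, e l₀ i = w) → Function.extend (e l₀) z x w = x w := fun z w hw =>
    Function.extend_apply' z x w hw
  have hcell : (Fintype.piFinset (fun i => univ.filter (fun y => P y = c (e l₀ i)))) =
      cl P (fun i => c (e l₀ i)) := by
    ext z
    unfold cl
    rw [Fintype.mem_piFinset, mem_filter]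
    simp only [mem_filter, mem_univ, true_and]
    exact ⟨fun h => funext h, fun h i => congrFun h i⟩
  -- the other lines
  by_cases hC0 : ∀ l ∈ L, (∀ i j, e l₀ i ≠ e l j) → (fun i => x (e l i)) ∈ E l
  · obtain ⟨U, hU⟩ : ∃ U : Fin K → Finset X, U = fun i => (univ.filter (fun y => P y = c (e l₀ i))).filter
      (fun y => ∀ l ∈ L, (∃ j, e l₀ i = e l j) → (fun j => Function.update x (e l₀ i) y (e l j)) ∈ E l) := ⟨_, rfl⟩
    have hiff : ∀ z ∈ Fintype.piFinset (fun i => univ.filter (fun y => P y = c (e l₀ i))),
        ((∀ l ∈ L, (fun i => Function.extend (e l₀) z x (e l i)) ∈ E l) ↔ z ∈ Fintype.piFinset U) := by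
      intro z hz
      have hupd : ∀ l ∈ L, ∀ i, (∃ j, e l₀ i = e l j) → (fun j => Function.extend (e l₀) z x (e l j)) =
          fun j => Function.update x (e l₀ i) (z i) (e l j) := by
        rintro l hl i ⟨j, hj⟩
        have hne : l₀ ≠ l := fun h => hl₀ (h ▸ hl)
        funext j'
        by_cases h1 : e l j' = e l₀ i
        · rw [h1, Function.update_self, hext]
        · rw [Function.update_of_ne h1, hext']
          rintro ⟨i', hi'⟩
          have h2 : i = i' := hlin l₀ l hne i i' j j' hj hi'
          exact h1 (by rw [h2, hi'])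
      rw [Fintype.mem_piFinset]
      constructor
      · intro h i
        rw [hU, mem_filter]
        refine ⟨(Fintype.mem_piFinset.1 hz) i, fun l hl hj => ?_⟩
        have h1 := h l hl
        rw [hupd l hl i hj] at h1
        exact h1
      · intro h l hl
        by_cases hex : ∃ i j, e l₀ i = e l j
        · obtain ⟨i, j, hij⟩ := hex
          have h1 := h i
          rw [hU, mem_filter] at h1
          rw [hupd l hl i ⟨j, hij⟩]
          exact h1.2 l hl ⟨j, hij⟩
        · push Not at hex
          have h1 : (fun i => Function.extend (e l₀) z x (e l i)) = fun i => x (e l i) := by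
            funext j
            rw [hext']
            rintro ⟨i, hi⟩
            exact hex i j hi
          rw [h1]
          exact hC0 l hl hex
    have h1 : ∑ z ∈ Fintype.piFinset (fun i => univ.filter (fun y => P y = c (e l₀ i))),
        (if ∀ l ∈ L, (fun i => Function.extend (e l₀) z x (e l i)) ∈ E l then
          (ind (E l₀) (fun i => Function.extend (e l₀) z x (e l₀ i)) - dn P (ind (E l₀)) (fun i => c (e l₀ i))) else 0) =
        ∑ z ∈ Fintype.piFinset U, (ind (E l₀) z - dn P (ind (E l₀)) (fun i => c (e l₀ i))) := by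
      rw [← sum_filter]
      refine sum_congr ?_ fun z _ => ?_
      · ext z
        rw [mem_filter]
        refine ⟨fun h => (hiff z h.1).1 h.2, fun h => ?_⟩
        have h2 : z ∈ Fintype.piFinset (fun i => univ.filter (fun y => P y = c (e l₀ i))) := by
          rw [Fintype.mem_piFinset] at h ⊢
          intro i
          have h3 := h i
          rw [hU, mem_filter] at h3
          exact h3.1
        exact ⟨h2, (hiff z h2).2 h⟩
      · have h2 : (fun i => Function.extend (e l₀) z x (e l₀ i)) = z := funext fun i => hext z i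
        rw [h2]
    rw [h1, hcell]
    by_contra hcon
    apply hreg
    refine ⟨U, fun i y hy => ?_, not_le.1 hcon⟩
    rw [hU, mem_filter, mem_filter] at hy
    exact hy.1.2
  · push Not at hC0
    obtain ⟨l, hl, hl1, hl2⟩ := hC0
    have h1 : ∑ z ∈ Fintype.piFinset (fun i => univ.filter (fun y => P y = c (e l₀ i))),
        (if ∀ l ∈ L, (fun i => Function.extend (e l₀) z x (e l i)) ∈ E l then
          (ind (E l₀) (fun i => Function.extend (e l₀) z x (e l₀ i)) - dn P (ind (E l₀)) (fun i => c (e l₀ i))) else 0) =
        0 := by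
      refine sum_eq_zero fun z _ => ?_
      rw [if_neg]
      intro h
      apply hl2
      have h2 := h l hl
      have h3 : (fun i => Function.extend (e l₀) z x (e l i)) = fun i => x (e l i) := by
        funext j
        rw [hext']
        rintro ⟨i, hi⟩
        exact hl1 i j hi
      rw [h3] at h2
      exact h2
    rw [h1, abs_zero]
    by_contra hcon
    apply hreg
    rw [hcell] at hcon
    refine ⟨fun _ => ∅, fun i y hy => absurd hy (notMem_empty y), ?_⟩
    exact (not_le.1 hcon).trans_le (abs_nonneg _)

open Classical in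
/-- **counting lemma** -/
theorem count_lemma {W ι X κ : Type} [Fintype W] [DecidableEq W] [Fintype X] [DecidableEq κ] {K : ℕ} (e : ι → Fin K → W)
    (hinj : ∀ l, Function.Injective (e l))
    (hlin : ∀ l l', l ≠ l' → ∀ i j i' j', e l i = e l' i' → e l j = e l' j' → i = j)
    (E : ι → Finset (Fin K → X)) (P : X → κ) (c : W → κ) (ε η : ℝ) (hε : 0 ≤ ε) (hη : 0 ≤ η) (hη1 : η ≤ 1)
    (hreg : ∀ l, ¬ Irr ε P (ind (E l)) (fun i => c (e l i))) (hdn : ∀ l, η ≤ dn P (ind (E l)) (fun i => c (e l i)))
    (L : Finset ι) :
    (η ^ L.card - ε * L.card) * ((Fintype.piFinset (fun w : W => univ.filter (fun y => P y = c w))).card : ℝ) ≤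
      (((Fintype.piFinset (fun w : W => univ.filter (fun y => P y = c w))).filter
        (fun x => ∀ l ∈ L, (fun i => x (e l i)) ∈ E l)).card : ℝ) := by
  obtain ⟨Y, hY⟩ : ∃ Y, Y = Fintype.piFinset (fun w : W => univ.filter (fun y => P y = c w)) := ⟨_, rfl⟩
  rw [← hY]
  have hV : (0 : ℝ) ≤ Y.card := Nat.cast_nonneg _
  induction L using Finset.induction_on with
  | empty =>
    rw [card_empty, pow_zero, Nat.cast_zero, mul_zero, sub_zero, one_mul]
    refine le_of_eq ?_
    rw [filter_true_of_mem]
    intro x _ l hl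
    exact absurd hl (notMem_empty l)
  | insert l₀ L hl₀ ih =>
    rw [card_insert_of_notMem hl₀]
    have h1 := count_step e hinj hlin E P c ε L l₀ hl₀ (hreg l₀)
    rw [← hY] at h1
    obtain ⟨d, hd⟩ : ∃ d, d = dn P (ind (E l₀)) (fun i => c (e l₀ i)) := ⟨_, rfl⟩
    have hdη := hdn l₀
    rw [← hd] at h1 hdη
    have h2 : ∑ x ∈ Y, (if ∀ l ∈ L, (fun i => x (e l i)) ∈ E l then
        (ind (E l₀) (fun i => x (e l₀ i)) - d) else 0) =
        ((Y.filter (fun x => ∀ l ∈ insert l₀ L, (fun i => x (e l i)) ∈ E l)).card : ℝ) -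
          d * ((Y.filter (fun x => ∀ l ∈ L, (fun i => x (e l i)) ∈ E l)).card : ℝ) := by
      rw [← sum_filter, sum_sub_distrib, sum_const, nsmul_eq_mul, mul_comm]
      refine congrArg₂ _ ?_ rfl
      unfold ind
      rw [← sum_filter, sum_const, nsmul_eq_mul, mul_one, filter_filter]
      refine congrArg _ (congrArg _ (filter_congr fun x _ => ?_))
      constructor
      · rintro ⟨h3, h4⟩ l hl
        rcases mem_insert.1 hl with rfl | hl
        · exact h4
        · exact h3 l hl
      · intro h3
        exact ⟨fun l hl => h3 l (mem_insert_of_mem hl), h3 l₀ (mem_insert_self _ _)⟩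
    rw [h2] at h1
    have h3 := (abs_le.1 h1).1
    obtain ⟨n, hn⟩ : ∃ n : ℝ, n = ((Y.filter (fun x => ∀ l ∈ L, (fun i => x (e l i)) ∈ E l)).card : ℝ) := ⟨_, rfl⟩
    rw [← hn] at ih h3
    have hn0 : 0 ≤ n := by rw [hn]; exact Nat.cast_nonneg _
    have h4 : η * n ≤ d * n := mul_le_mul_of_nonneg_right hdη hn0
    have h5 : η * ((η ^ L.card - ε * L.card) * Y.card) ≤ η * n := mul_le_mul_of_nonneg_left ih hη
    have h6 : η * (ε * L.card * Y.card) ≤ 1 * (ε * L.card * Y.card) :=
      mul_le_mul_of_nonneg_right hη1 (by positivity)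
    push_cast
    rw [pow_succ]
    nlinarith

end Pool.Agent.H34.EQ
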