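import Pool.Agent.H34.EQ.All

/-!
# [H34 EQ INF] Almost all tuples have a bounded multiple for which there are infinitely many primes

From clause (1) with `A = 1`: a tuple with finitely many prime patterns has bounded counts.
-/

set_option autoImplicit false

namespace Pool.Agent.H34.EQ

open Finset Filter Pool.Agent.H62.EX

/-- the count of a pattern which occurs finitely often is bounded -/
theorem count_bdd {k r : ℕ} (W s : ℕ) (χ : ℕ → Fin r) (q : Fin r) (G : Finset (Fin k)) (b : Fin (k + 1) → ℕ)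
    (h : {p : ℕ | Txt.Pat W s χ q G b p}.Finite) : ∃ C : ℕ, ∀ M : ℕ,
      {n : ℕ | n < M ∧ Txt.Pat W s χ q G b (Nat.nth Nat.Prime n)}.ncard ≤ C := by
  refine ⟨{p : ℕ | Txt.Pat W s χ q G b p}.ncard, fun M => ?_⟩
  refine Set.ncard_le_ncard_of_injOn (Nat.nth Nat.Prime) (fun n hn => hn.2) ?_ h
  exact (Nat.nth_injective Nat.infinite_setOfPred_prime).injOn

/-- the threshold tends to infinity -/
theorem thr_tendsto (k D : ℕ) (d z : ℝ) (hd : 0 < d) (hz : 0 < z) :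
    Tendsto (fun M : ℕ => d * min 1 (z / Real.log M) ^ D * M / Real.log M ^ k) atTop atTop := by
  have h1 : Tendsto (fun x : ℝ => x / Real.log x ^ (k + D)) atTop atTop := by
    have h2 : Tendsto (fun x : ℝ => Real.log x ^ (k + D) / x) atTop (nhds 0) := by
      exact (Real.isLittleO_pow_log_id_atTop (n := k + D)).tendsto_div_nhds_zero
    have h6 : ∀ᶠ x : ℝ in atTop, 0 < Real.log x ^ (k + D) / x := by
      filter_upwards [eventually_gt_atTop 1] with x hx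
      have := Real.log_pos hx
      positivity
    have h7 := (tendsto_inv_nhdsGT_zero (𝕜 := ℝ)).comp (tendsto_nhdsWithin_iff.2 ⟨h2, h6⟩)
    refine h7.congr fun x => ?_
    show (Real.log x ^ (k + D) / x)⁻¹ = _
    rw [inv_div]
  have h2 := (h1.comp tendsto_natCast_atTop_atTop).const_mul_atTop (show 0 < d * z ^ D by positivity)
  refine tendsto_atTop_mono' _ ?_ h2
  have h3 : ∀ᶠ M : ℕ in atTop, max 1 z < Real.log (M : ℝ) :=
    (Real.tendsto_log_atTop.comp tendsto_natCast_atTop_atTop).eventually_gt_atTop _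
  filter_upwards [h3] with M hM
  have hl1 : 1 < Real.log (M : ℝ) := (le_max_left _ _).trans_lt hM
  have hlz : z < Real.log (M : ℝ) := (le_max_right _ _).trans_lt hM
  have hl0 : 0 < Real.log (M : ℝ) := by linarith
  have h4 : min 1 (z / Real.log M) = z / Real.log M := min_eq_right ((div_le_one hl0).2 hlz.le)
  rw [h4]
  refine le_of_eq ?_
  show d * z ^ D * ((M : ℝ) / Real.log M ^ (k + D)) = _
  rw [div_pow, pow_add]
  field_simp

open Classical in
/-- **almost all tuples have a bounded multiple with infinitely many primes** -/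
theorem c4 (k r : ℕ) (hk : 1 ≤ k) (W s : ℕ) (hW : 0 < W) (hs : Nat.Coprime s W) : ∃ m₀ : ℕ, ∀ ε : ℝ, 0 < ε → ∃ B : ℝ,
    ∀ (χ : ℕ → Fin r) (z : ℕ), B ≤ z →
      (((Fintype.piFinset (fun _ : Fin k => Icc 1 z)).filter (fun a : Fin k → ℕ => StrictMono a ∧
        ¬ ∃ m : ℕ, 1 ≤ m ∧ m ≤ m₀ ∧ ∃ q : Fin r,
          {p : ℕ | Txt.Pat W s χ q (∅ : Finset (Fin k)) (Fin.cons 0 (fun j => m * a j) : Fin (k + 1) → ℕ) p}.Infinite)).card : ℝ) ≤
        ε * (z : ℝ) ^ k := by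
  obtain ⟨D, hD⟩ := c1 k r hk
  obtain ⟨m₀, hm₀⟩ := hD 1 W s hW hs
  refine ⟨m₀, fun ε hε => ?_⟩
  obtain ⟨B, d, hd, h⟩ := hm₀ ε hε
  refine ⟨max B 1, fun χ z hz => ?_⟩
  have hz1 : (1 : ℝ) ≤ z := (le_max_right _ _).trans hz
  have hz0 : (0 : ℝ) < z := by linarith
  obtain ⟨T, hT⟩ : ∃ T : Finset (Fin k → ℕ), T = (Fintype.piFinset (fun _ : Fin k => Icc 1 z)).filter (fun a : Fin k → ℕ =>
      StrictMono a ∧ ¬ ∃ m : ℕ, 1 ≤ m ∧ m ≤ m₀ ∧ ∃ q : Fin r,
        {p : ℕ | Txt.Pat W s χ q (∅ : Finset (Fin k)) (Fin.cons 0 (fun j => m * a j) : Fin (k + 1) → ℕ) p}.Infinite) := ⟨_, rfl⟩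
  rw [← hT]
  -- a common bound for the counts
  have hC : ∀ a : Fin k → ℕ, ∃ C : ℕ, a ∈ T → ∀ m : ℕ, 1 ≤ m → m ≤ m₀ → ∀ (q : Fin r) (M : ℕ),
      {n : ℕ | n < M ∧ Txt.Pat W s χ q (∅ : Finset (Fin k)) (Fin.cons 0 (fun j => m * a j) : Fin (k + 1) → ℕ)
        (Nat.nth Nat.Prime n)}.ncard ≤ C := by
    intro a
    by_cases ha : a ∈ T
    · rw [hT, mem_filter] at ha
      have h1 : ∀ m q, ∃ C : ℕ, 1 ≤ m → m ≤ m₀ → ∀ M : ℕ,
          {n : ℕ | n < M ∧ Txt.Pat W s χ q (∅ : Finset (Fin k)) (Fin.cons 0 (fun j => m * a j) : Fin (k + 1) → ℕ)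
            (Nat.nth Nat.Prime n)}.ncard ≤ C := by
        intro m q
        by_cases hm : 1 ≤ m ∧ m ≤ m₀
        · have h2 : {p : ℕ | Txt.Pat W s χ q (∅ : Finset (Fin k)) (Fin.cons 0 (fun j => m * a j) : Fin (k + 1) → ℕ) p}.Finite := by
            by_contra hcon
            exact ha.2.2 ⟨m, hm.1, hm.2, q, hcon⟩
          obtain ⟨C, hC⟩ := count_bdd W s χ q ∅ _ h2
          exact ⟨C, fun _ _ => hC⟩
        · exact ⟨0, fun h2 h3 => absurd ⟨h2, h3⟩ hm⟩
      choose C hC using h1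
      refine ⟨∑ m ∈ range (m₀ + 1), ∑ q : Fin r, C m q, fun _ m hm1 hm2 q M => (hC m q hm1 hm2 M).trans ?_⟩
      refine le_trans (single_le_sum (f := fun q => C m q) (fun _ _ => Nat.zero_le _) (mem_univ q)) ?_
      exact single_le_sum (f := fun m => ∑ q : Fin r, C m q) (fun _ _ => Nat.zero_le _) (mem_range.2 (by omega))
    · exact ⟨0, fun h1 => absurd h1 ha⟩
  choose C hC using hC
  obtain ⟨C0, hC0⟩ : ∃ C0 : ℕ, C0 = ∑ a ∈ T, C a := ⟨_, rfl⟩
  have h1 : ∀ᶠ M : ℕ in atTop, (C0 : ℝ) < d * min 1 (z / Real.log M) ^ D * M / Real.log M ^ k :=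
    (thr_tendsto k D d z hd hz0).eventually_gt_atTop _
  have h2 : ∀ᶠ M : ℕ in atTop, (z : ℝ) < Real.log (M : ℝ) :=
    (Real.tendsto_log_atTop.comp tendsto_natCast_atTop_atTop).eventually_gt_atTop _
  obtain ⟨M, hM1, hM2⟩ := (h1.and h2).exists
  have hl0 : 0 < Real.log (M : ℝ) := hz0.trans hM2
  refine le_trans (Nat.cast_le.2 (card_le_card fun a ha => ?_)) (h χ M z ((le_max_left _ _).trans hz) (by rw [pow_one]; exact hM2.le))
  have ha' := ha
  rw [hT, mem_filter] at ha'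
  rw [mem_filter]
  refine ⟨ha'.1, ha'.2.1, ?_⟩
  rintro ⟨m, hm1, hm2, q, hq⟩
  have h3 := hC a ha m hm1 hm2 q M
  have h4 : C a ≤ C0 := by
    rw [hC0]
    exact single_le_sum (f := fun a => C a) (fun _ _ => Nat.zero_le _) ha
  have h5 : ({n : ℕ | n < M ∧ Txt.Pat W s χ q (∅ : Finset (Fin k)) (Fin.cons 0 (fun j => m * a j) : Fin (k + 1) → ℕ)
        (Nat.nth Nat.Prime n)}.ncard : ℝ) ≤ C0 := Nat.cast_le.2 (h3.trans h4)
  rw [lt_div_iff₀ (by positivity)] at hM1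
  have h6 := mul_le_mul_of_nonneg_left h5 (show 0 ≤ Real.log (M : ℝ) ^ k by positivity)
  linarith

end Pool.Agent.H34.EQ
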