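import Pool.Agent.H62.EX.Scs

/-!
# [H34 EQ SV] The sieve for configurations, the presieve modulus does not depend on the power of the logarithm

`sieveC`: as `sieveB` of H62/EX/Scs, but `wd` is chosen before `A`.  Proof: `wd = m s`; for given `A` let `wd'` be the number of `sieveB` for
`A + 1` and `R' = R * primorial wd'`.  For every `v` in `𝓗` there is a multiple `b < R'` of `R` with all `v i + b` prime to `R'`, as primes
`p > m s` are not covered by the sites.  Take the most frequent `b`, and `sieveB` for `v + b`, `N - b`.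
-/

set_option autoImplicit false

namespace Pool.Agent.H34.EQ

open Finset Filter Pool.Agent.H61.UN Pool.Agent.H34.RR Pool.Agent.H62.EX

/-- one prime -/
theorem shift_prime {ι : Type} [Fintype ι] (R p : ℕ) (hp : p.Prime) (hpR : ¬ p ∣ R) (hcard : Fintype.card ι < p)
    (v : ι → ℕ) : ∃ t : ℕ, ∀ i, ¬ p ∣ v i + R * t := by
  classical
  have : Fact p.Prime := ⟨hp⟩
  have hR0 : (R : ZMod p) ≠ 0 := by
    intro h
    exact hpR ((ZMod.natCast_eq_zero_iff R p).1 h)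
  obtain ⟨u, hu⟩ : ∃ u : ZMod p, u ∉ univ.image (fun i => -(v i : ZMod p) * (R : ZMod p)⁻¹) := by
    by_contra hcon
    push Not at hcon
    have h1 : (univ : Finset (ZMod p)).card ≤ (univ.image (fun i => -(v i : ZMod p) * (R : ZMod p)⁻¹)).card :=
      card_le_card fun u _ => hcon u
    have h2 := h1.trans card_image_le
    rw [card_univ, card_univ, ZMod.card] at h2
    omega
  refine ⟨u.val, fun i hi => hu ?_⟩
  rw [mem_image]
  refine ⟨i, mem_univ _, ?_⟩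
  have h1 : ((v i + R * u.val : ℕ) : ZMod p) = 0 := (ZMod.natCast_eq_zero_iff _ p).2 hi
  push_cast at h1
  rw [ZMod.natCast_zmod_val] at h1
  have h2 : -(v i : ZMod p) = R * u := by
    rw [neg_eq_iff_add_eq_zero]
    exact h1
  rw [h2, mul_comm (R : ZMod p) u, mul_assoc, mul_inv_cancel₀ hR0, mul_one]

/-- the shift -/
theorem shift_exists {ι : Type} [Fintype ι] (R w : ℕ) (hR : 0 < R) (hRp : ∀ p : ℕ, p.Prime → p ≤ Fintype.card ι → p ∣ R)
    (v : ι → ℕ) (hv : ∀ i, Nat.Coprime (v i) R) :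
    ∃ b : ℕ, b < R * primorial w ∧ R ∣ b ∧ ∀ i, Nat.Coprime (v i + b) (R * primorial w) := by
  classical
  obtain ⟨S, hS⟩ : ∃ S : Finset ℕ, S = (range (w + 1)).filter (fun p => p.Prime ∧ ¬ p ∣ R) := ⟨_, rfl⟩
  have hSm : ∀ p, p ∈ S ↔ p ≤ w ∧ p.Prime ∧ ¬ p ∣ R := by
    intro p
    rw [hS, mem_filter, mem_range, Nat.lt_succ_iff]
  have h1 : ∀ p : ℕ, ∃ t : ℕ, p ∈ S → ∀ i, ¬ p ∣ v i + R * t := by
    intro p
    by_cases hp : p ∈ S
    · obtain ⟨h2, h3, h4⟩ := (hSm p).1 hp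
      obtain ⟨t, ht⟩ := shift_prime R p h3 h4 (by
        by_contra hcon
        exact h4 (hRp p h3 (not_lt.1 hcon))) v
      exact ⟨t, fun _ => ht⟩
    · exact ⟨0, fun h => absurd h hp⟩
  choose t ht using h1
  obtain ⟨t0, ht0⟩ : ∃ t0 : ℕ, ∀ p ∈ S, t0 ≡ t p [MOD p] := by
    have h2 := Nat.chineseRemainderOfFinset t (fun p => p) S (fun p hp => by
      exact ((hSm p).1 hp).2.1.ne_zero) (by
      intro p hp q hq hpq
      exact (Nat.coprime_primes ((hSm p).1 hp).2.1 ((hSm q).1 hq).2.1).2 hpq)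
    exact ⟨h2.1, h2.2⟩
  obtain ⟨t1, ht1⟩ : ∃ t1 : ℕ, t1 = t0 % primorial w := ⟨_, rfl⟩
  have ht1p : ∀ p ∈ S, t1 ≡ t p [MOD p] := by
    intro p hp
    have h2 : p ∣ primorial w := by
      obtain ⟨h3, h4, -⟩ := (hSm p).1 hp
      exact dvd_prod_of_mem (fun p => p) (mem_filter.2 ⟨mem_range.2 (Nat.lt_succ_iff.2 h3), h4⟩)
    have h3 : t1 ≡ t0 [MOD primorial w] := by
      rw [ht1]
      exact Nat.mod_modEq _ _
    exact (h3.of_dvd h2).trans (ht0 p hp)
  have hcopR : ∀ i, Nat.Coprime (v i + R * t1) R := by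
    intro i
    have h2 : v i + R * t1 ≡ v i [MOD R] := by
      have h3 : R * t1 ≡ 0 [MOD R] := (Nat.modEq_zero_iff_dvd).2 (dvd_mul_right _ _)
      have h4 := (Nat.ModEq.refl (n := R) (v i)).add h3
      rwa [Nat.add_zero] at h4
    have h5 : Nat.gcd (v i + R * t1) R = Nat.gcd (v i) R := Nat.ModEq.gcd_eq h2
    show Nat.gcd (v i + R * t1) R = 1
    rw [h5]
    exact hv i
  refine ⟨R * t1, ?_, dvd_mul_right _ _, fun i => ?_⟩
  · refine Nat.mul_lt_mul_of_pos_left ?_ hR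
    rw [ht1]
    exact Nat.mod_lt _ (primorial_pos w)
  · refine Nat.Coprime.mul_right (hcopR i) ?_
    unfold primorial
    refine Nat.Coprime.prod_right fun p hp => ?_
    rw [mem_filter, mem_range, Nat.lt_succ_iff] at hp
    obtain ⟨hp1, hp2⟩ := hp
    rw [Nat.coprime_comm, hp2.coprime_iff_not_dvd]
    intro hdvd
    by_cases hpR : p ∣ R
    · exact Nat.Prime.one_lt hp2 |>.ne' (Nat.dvd_one.1 ((hcopR i) ▸ Nat.dvd_gcd hdvd hpR))
    · have hpS : p ∈ S := (hSm p).2 ⟨hp1, hp2, hpR⟩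
      apply ht p hpS i
      have h2 : v i + R * t1 ≡ v i + R * t p [MOD p] :=
        (Nat.ModEq.refl _).add ((Nat.ModEq.refl _).mul (ht1p p hpS))
      exact (Nat.modEq_zero_iff_dvd).1 (h2.symm.trans ((Nat.modEq_zero_iff_dvd).2 hdvd))

open Classical in
theorem wc_shift {m s : ℕ} (w : Fin m → ℝ) (v : Fin m × Fin s → ℕ) (N b : ℕ) :
    wc w (fun i => v i + b) N = wc w v (N + b) := by
  unfold wc
  refine sum_congr rfl fun d _ => ?_
  have h : ∀ l : Fin s, N + (v (d, l) + b) = N + b + v (d, l) := fun l => by omega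
  simp only [h]

open Classical in
theorem sieveC (m : ℕ) (hm : 1 ≤ m) (κ : ℕ) : ∃ s : ℕ, 1 ≤ s ∧ ∃ wd : ℕ, ∀ A : ℕ, ∀ w : Fin m → ℝ, (∀ d, 0 ≤ w d) →
    100 ≤ ∑ d, w d → ∀ R : ℕ, 0 < R → primorial wd ∣ R → ∀ c : ℝ, 0 < c → ∃ δ T H0 : ℝ, 0 < δ ∧ 1 ≤ T ∧ 1 ≤ H0 ∧
      ∀ᶠ x : ℝ in atTop, ∀ L : ℕ, H0 ≤ L → (L : ℝ) ≤ Real.log x ^ A →
        ∀ 𝓗 : Finset (Fin m × Fin s → ℕ), (∀ v ∈ 𝓗, v ∈ IJ (Fin m × Fin s) L ∧ ∀ i, Nat.Coprime (v i) R) →
          c * (L : ℝ) ^ (m * s) ≤ 𝓗.card → ∀ F : ℕ → Finset (Fin κ → ℕ),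
          (∀ N, R ∣ N → ∀ v ∈ 𝓗, 1 < wc w v N → ∃ z ∈ F N, ∀ j, ∃ i, v i = z j) →
          (∀ N, ∀ z ∈ F N, Function.Injective z ∧ ∀ j, z j ≤ L ∧ (N + z j).Prime) →
            δ * (min 1 (L / Real.log x)) ^ (2 * (m * s)) * (L / Real.log x) ^ κ * x ≤
              ∑ N ∈ range (⌊T * x⌋₊ + 1), ((F N).card : ℝ) := by
  obtain ⟨s, hs, hsv⟩ := sieveB m hm κ
  refine ⟨s, hs, m * s, fun A w hw hw100 R hR hRw c hc => ?_⟩
  obtain ⟨wd, hsv⟩ := hsv (A + 1)
  obtain ⟨n, hn⟩ : ∃ n : ℕ, n = m * s := ⟨_, rfl⟩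
  have hcard : Fintype.card (Fin m × Fin s) = m * s := by
    rw [Fintype.card_prod, Fintype.card_fin, Fintype.card_fin]
  have hRp : ∀ p : ℕ, p.Prime → p ≤ Fintype.card (Fin m × Fin s) → p ∣ R := by
    intro p hp hpc
    rw [hcard] at hpc
    refine dvd_trans ?_ hRw
    exact dvd_prod_of_mem (fun p => p) (mem_filter.2 ⟨mem_range.2 (Nat.lt_succ_iff.2 hpc), hp⟩)
  obtain ⟨R', hR'⟩ : ∃ R' : ℕ, R' = R * primorial wd := ⟨_, rfl⟩
  have hR'0 : 0 < R' := by rw [hR']; exact Nat.mul_pos hR (primorial_pos wd)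
  have hR'r : (0 : ℝ) < R' := by exact_mod_cast hR'0
  have hRR' : R ∣ R' := by rw [hR']; exact dvd_mul_right _ _
  obtain ⟨δ, T, H0, hδ, hT, hH0, hx⟩ := hsv w hw hw100 R' hR'0 (by rw [hR']; exact dvd_mul_left _ _)
    (c / (R' * 2 ^ (m * s))) (by positivity)
  refine ⟨δ, T + 1, max H0 R', hδ, by linarith, hH0.trans (le_max_left _ _), ?_⟩
  filter_upwards [hx, eventually_ge_atTop (R' : ℝ), Real.tendsto_log_atTop.eventually_ge_atTop 2] with x hx hxR hlog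
  intro L hLH hLA 𝓗 h𝓗 h𝓗c F hF1 hF2
  have hLH0 : H0 ≤ L := (le_max_left _ _).trans hLH
  have hLR : (R' : ℝ) ≤ L := (le_max_right _ _).trans hLH
  have hL1 : (1 : ℝ) ≤ L := hH0.trans hLH0
  have hx0 : 0 < x := hR'r.trans_le hxR
  -- the shifts
  have hsh : ∀ v : Fin m × Fin s → ℕ, ∃ b : ℕ, b < R' ∧ (v ∈ 𝓗 → R ∣ b ∧ ∀ i, Nat.Coprime (v i + b) R') := by
    intro v
    by_cases hv : v ∈ 𝓗
    · obtain ⟨b, h1, h2, h3⟩ := shift_exists R wd hR hRp v (h𝓗 v hv).2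
      rw [← hR'] at h1 h3
      exact ⟨b, h1, fun _ => ⟨h2, h3⟩⟩
    · exact ⟨0, hR'0, fun h => absurd h hv⟩
  choose sh hsh1 hsh2 using hsh
  obtain ⟨b, hb, hbc⟩ : ∃ b ∈ range R', (𝓗.card : ℝ) / R' ≤ ((𝓗.filter (fun v => sh v = b)).card : ℝ) := by
    refine exists_le_of_sum_le (s := range R') (f := fun _ => (𝓗.card : ℝ) / R')
      (g := fun b => ((𝓗.filter (fun v => sh v = b)).card : ℝ)) ⟨0, mem_range.2 hR'0⟩ ?_
    rw [sum_const, card_range, nsmul_eq_mul, ← Nat.cast_sum,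
      ← card_eq_sum_card_fiberwise (f := sh) (s := 𝓗) (t := range R') (fun v _ => mem_coe.2 (mem_range.2 (hsh1 v)))]
    exact le_of_eq (by field_simp)
  rw [mem_range] at hb
  obtain ⟨𝓗', h𝓗'⟩ : ∃ 𝓗' : Finset (Fin m × Fin s → ℕ), 𝓗' = (𝓗.filter (fun v => sh v = b)).image (fun v i => v i + b) :=
    ⟨_, rfl⟩
  have hmem : ∀ v', v' ∈ 𝓗' → ∃ v ∈ 𝓗, sh v = b ∧ v' = fun i => v i + b := by
    intro v' hv'
    rw [h𝓗', mem_image] at hv'
    obtain ⟨v, hv, h⟩ := hv'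
    rw [mem_filter] at hv
    exact ⟨v, hv.1, hv.2, h.symm⟩
  have hcard' : 𝓗'.card = (𝓗.filter (fun v => sh v = b)).card := by
    rw [h𝓗']
    refine card_image_of_injective _ ?_
    intro v v' h
    funext i
    have := congrFun h i
    simp only at this
    omega
  have hres := hx (L + R') (by push_cast; linarith) (by
    push_cast
    rw [pow_succ]
    calc (L : ℝ) + R' ≤ L * 2 := by linarith
      _ ≤ Real.log x ^ A * Real.log x := mul_le_mul hLA hlog (by norm_num) (by positivity)) 𝓗' (by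
    intro v' hv'
    obtain ⟨v, hv, hvb, rfl⟩ := hmem v' hv'
    obtain ⟨h1, h2⟩ := h𝓗 v hv
    rw [mem_IJ] at h1
    refine ⟨mem_IJ.2 ⟨fun i => ?_, fun i j hij => ?_⟩, fun i => ?_⟩
    · have := h1.1 i
      show v i + b ≤ L + R'
      omega
    · apply h1.2
      have h3 : v i + b = v j + b := hij
      omega
    · have h3 := (hsh2 v hv).2 i
      rw [hvb] at h3
      exact h3) (by
    rw [hcard']
    refine le_trans ?_ hbc
    rw [div_mul_eq_mul_div, div_le_div_iff₀ (by positivity) hR'r]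
    have h1 : (((L + R' : ℕ) : ℝ)) ^ (m * s) ≤ 2 ^ (m * s) * (L : ℝ) ^ (m * s) := by
      rw [← mul_pow]
      refine pow_le_pow_left₀ (by positivity) ?_ _
      push_cast
      linarith
    calc c * (((L + R' : ℕ) : ℝ)) ^ (m * s) * R' ≤ c * (2 ^ (m * s) * (L : ℝ) ^ (m * s)) * R' := by gcongr
      _ = (c * (L : ℝ) ^ (m * s)) * (R' * 2 ^ (m * s)) := by ring
      _ ≤ (𝓗.card : ℝ) * (R' * 2 ^ (m * s)) := by gcongr)
    (fun N => (F (N + b)).image (fun z j => z j + b)) (by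
    intro N hN v' hv' hwc
    obtain ⟨v, hv, hvb, rfl⟩ := hmem v' hv'
    rw [wc_shift] at hwc
    have hRb : R ∣ b := by
      have := (hsh2 v hv).1
      rwa [hvb] at this
    obtain ⟨z, hz, hz2⟩ := hF1 (N + b) (dvd_add (hRR'.trans hN) hRb) v hv hwc
    refine ⟨fun j => z j + b, mem_image_of_mem _ hz, fun j => ?_⟩
    obtain ⟨i, hi⟩ := hz2 j
    exact ⟨i, by show v i + b = z j + b; rw [hi]⟩) (by
    intro N z' hz'
    rw [mem_image] at hz'
    obtain ⟨z, hz, rfl⟩ := hz'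
    obtain ⟨h1, h2⟩ := hF2 (N + b) z hz
    refine ⟨fun i j hij => h1 ?_, fun j => ⟨?_, ?_⟩⟩
    · have h3 : z i + b = z j + b := hij
      omega
    · have := (h2 j).1
      show z j + b ≤ L + R'
      omega
    · have h3 := (h2 j).2
      have h4 : N + (z j + b) = N + b + z j := by omega
      show (N + (z j + b)).Prime
      rw [h4]
      exact h3)
  have hl0 : 0 < Real.log x := by linarith
  have hLL : (L : ℝ) / Real.log x ≤ ((L + R' : ℕ) : ℝ) / Real.log x := by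
    refine div_le_div_of_nonneg_right ?_ hl0.le
    push_cast
    linarith
  have hL0 : 0 ≤ (L : ℝ) / Real.log x := by positivity
  calc δ * (min 1 (L / Real.log x)) ^ (2 * (m * s)) * (L / Real.log x) ^ κ * x
      ≤ δ * (min 1 (((L + R' : ℕ) : ℝ) / Real.log x)) ^ (2 * (m * s)) * (((L + R' : ℕ) : ℝ) / Real.log x) ^ κ * x := by
        have h0 : 0 ≤ min 1 ((L : ℝ) / Real.log x) := le_min zero_le_one hL0
        have h1 : min 1 ((L : ℝ) / Real.log x) ≤ min 1 (((L + R' : ℕ) : ℝ) / Real.log x) := min_le_min le_rfl hLL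
        gcongr
    _ ≤ ∑ N ∈ range (⌊T * x⌋₊ + 1), ((((F (N + b)).image (fun z j => z j + b)) : Finset (Fin κ → ℕ)).card : ℝ) := hres
    _ ≤ ∑ N ∈ range (⌊T * x⌋₊ + 1), ((F (N + b)).card : ℝ) := sum_le_sum fun N _ => Nat.cast_le.2 card_image_le
    _ = ∑ N ∈ (range (⌊T * x⌋₊ + 1)).image (fun N => N + b), ((F N).card : ℝ) := by
        rw [sum_image]
        intro N _ N' _ h
        have h3 : N + b = N' + b := h
        omega
    _ ≤ ∑ N ∈ range (⌊(T + 1) * x⌋₊ + 1), ((F N).card : ℝ) := by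
        refine sum_le_sum_of_subset_of_nonneg ?_ (fun _ _ _ => Nat.cast_nonneg _)
        intro N hN
        rw [mem_image] at hN
        obtain ⟨N', hN', rfl⟩ := hN
        rw [mem_range, Nat.lt_succ_iff] at hN' ⊢
        have h1 : (N' : ℝ) ≤ T * x := (Nat.le_floor_iff (by positivity)).1 hN'
        have h2 : (b : ℝ) ≤ R' := by exact_mod_cast hb.le
        refine Nat.le_floor ?_
        push_cast
        linarith

end Pool.Agent.H34.EQ
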