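import Pool.Agent.H34.EQ.Plu
import Pool.Agent.H34.EQ.Sv
import Pool.Agent.H34.EQ.All

/-!
# [H34 EQ PLV] Bounded dilations at every scale, the bound does not depend on the power of the logarithm

`plusC`: as `plusL` of Plu.lean, with `sieveC`.  `plusB`: the bound for the dilations is `m₁ * W₀`, `m₁` depends only on `k` and `r`.
-/

set_option autoImplicit false

namespace Pool.Agent.H34.EQ

open Finset Filter Pool.Agent.H61.UN Pool.Agent.H34.RR Pool.Agent.H62.EX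

open Classical in
/-- windows longer than `c₀ log M` -/
theorem plusC {W ι : Type} [Fintype W] [DecidableEq W] [Nonempty W] [Fintype ι] {k r m : ℕ} (hr : 0 < r) (hm : 1 ≤ m) (n : ℕ)
    (e : ι → Fin (k + 1) → W) (N : W → Fin k → ℕ) (mm : ι → ℕ) (hN : ∀ w i, N w i ≤ n) (hmm : ∀ l, 1 ≤ mm l)
    (hmn : ∀ l, mm l ≤ n)
    (hpt : ∀ l (i j : Fin k), N (e l i.succ) j = N (e l 0) j + if i = j then mm l else 0)
    (hinj : ∀ l, Function.Injective (e l))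
    (hlin : ∀ l l', l ≠ l' → ∀ i j i' j', e l i = e l' i' → e l j = e l' j' → i = j) (hcov : ∀ w, ∃ l i, e l i = w)
    (hS : ∀ S : Finset W, 1 / (100 * (r : ℝ)) * Fintype.card W ≤ S.card → ∃ l, ∀ i, e l i ∈ S) (g : Fin m ≃ W) :
    ∃ wd : ℕ, ∀ A W₀ s₀ : ℕ, 0 < W₀ → Nat.Coprime s₀ W₀ → ∀ (D : ℕ) (ε c₀ : ℝ), 0 < ε → 0 < c₀ → ∃ (z₀ : ℕ) (d : ℝ), 0 < d ∧
      ∀ (χ : ℕ → Fin r) (M z : ℕ), z₀ ≤ z → c₀ * Real.log M < z → (z : ℝ) ≤ Real.log M ^ A →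
        ((BadDil (fun a : Fin k → ℕ => Gm W₀ s₀ χ D d M z a) z (W₀ * primorial wd * n)).card : ℝ) ≤ ε * (z : ℝ) ^ k := by
  have hr0 : (0 : ℝ) < r := by exact_mod_cast hr
  have hm0 : (0 : ℝ) < m := by exact_mod_cast hm
  obtain ⟨s, hs, wd, hsv⟩ := sieveC m hm (k + 1)
  refine ⟨wd, fun A W₀ s₀ hW₀ hs₀ D ε c₀ hε hc₀ => ?_⟩
  have hsv := hsv (A + 1)
  obtain ⟨R, hRd⟩ : ∃ R : ℕ, R = W₀ * primorial wd := ⟨_, rfl⟩
  have hR : 0 < R := by rw [hRd]; exact Nat.mul_pos hW₀ (primorial_pos wd)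
  have hRw : primorial wd ∣ R := by rw [hRd]; exact Dvd.intro_left _ rfl
  have hWR : W₀ ∣ R := by rw [hRd]; exact Dvd.intro _ rfl
  rw [← hRd]
  obtain ⟨ρ, hρ1, hρ2⟩ := exists_class W₀ s₀ R hW₀ hs₀ hR
  obtain ⟨c, L0, hc, hconf⟩ := conf_fin n e N mm hN hmm hpt hinj hlin hcov g s R ρ hs hR ε hε
  obtain ⟨C, hC⟩ : ∃ C : ℕ, C = R * (n * k + 1) := ⟨_, rfl⟩
  have hC1 : 1 ≤ C := by rw [hC]; exact Nat.mul_pos hR (Nat.succ_pos _)
  have hC0 : (0 : ℝ) < C := by exact_mod_cast hC1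
  have hC1r : (1 : ℝ) ≤ C := by exact_mod_cast hC1
  obtain ⟨δ, T, H0, hδ, hT, hH0, hx⟩ := hsv (fun _ => 100 / (m : ℝ)) (fun _ => by positivity)
    (by
      rw [sum_const, card_univ, Fintype.card_fin, nsmul_eq_mul]
      exact le_of_eq (by field_simp)) R hR hRw c hc
  obtain ⟨κ, xs, hκ, hxs, hscale⟩ := xs_scale T hT (A + 1)
  have hev := (hxs.eventually hx).and ((hxs.eventually_gt_atTop 1).and hscale)
  obtain ⟨M1, hM1⟩ := eventually_atTop.1 hev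
  obtain ⟨c1, hc1⟩ : ∃ c1 : ℝ, c1 = min 1 (c₀ / 2) := ⟨_, rfl⟩
  have hc10 : 0 < c1 := by rw [hc1]; exact lt_min one_pos (by positivity)
  obtain ⟨δ', hδ'⟩ : ∃ δ' : ℝ, δ' = δ * c1 ^ (2 * (m * s)) * (κ / 2 ^ (k + 1)) := ⟨_, rfl⟩
  have hδ'0 : 0 < δ' := by rw [hδ']; positivity
  obtain ⟨d, hd⟩ : ∃ d : ℝ, d = δ' / (2 * (r * 2 ^ (k + 1))) := ⟨_, rfl⟩
  have hd1 : 0 < d := by rw [hd]; positivity
  refine ⟨L0 + ⌈H0⌉₊ + (⌈Real.log ((M1 : ℝ) + 3 + Real.exp C) ^ A⌉₊ + 1), d, hd1, fun χ M z hz hyM hyA => ?_⟩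
  obtain ⟨L, hL⟩ : ∃ L : ℕ, L = R * ((n * k + 1) * z) := ⟨_, rfl⟩
  have hLC : L = C * z := by rw [hL, hC, Nat.mul_assoc]
  have hzL : z ≤ L := by
    rw [hLC]
    exact Nat.le_mul_of_pos_left z hC1
  have hzLr : (z : ℝ) ≤ L := by exact_mod_cast hzL
  have hLH0 : H0 ≤ L := by
    have h1 : (⌈H0⌉₊ : ℝ) ≤ L := by
      have : ⌈H0⌉₊ ≤ L := by omega
      exact_mod_cast this
    exact (Nat.le_ceil _).trans h1
  have hL1 : (1 : ℝ) ≤ L := hH0.trans hLH0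
  have hBz : Real.log ((M1 : ℝ) + 3 + Real.exp C) ^ A + 1 ≤ z := by
    have h1 : ((⌈Real.log ((M1 : ℝ) + 3 + Real.exp C) ^ A⌉₊ + 1 : ℕ) : ℝ) ≤ z := by
      have : ⌈Real.log ((M1 : ℝ) + 3 + Real.exp C) ^ A⌉₊ + 1 ≤ z := by omega
      exact_mod_cast this
    push_cast at h1
    linarith [Nat.le_ceil (Real.log ((M1 : ℝ) + 3 + Real.exp C) ^ A)]
  have hlM0 : 0 ≤ Real.log (M : ℝ) := Real.log_natCast_nonneg M
  have hMr : (M1 : ℝ) + 3 + Real.exp C < M := by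
    by_contra hcon
    have h0 : (0 : ℝ) < (M1 : ℝ) + 3 + Real.exp C := by positivity
    have h1 : Real.log (M : ℝ) ≤ Real.log ((M1 : ℝ) + 3 + Real.exp C) := by
      rcases Nat.eq_zero_or_pos M with h0' | h0'
      · rw [h0', Nat.cast_zero, Real.log_zero]
        refine Real.log_nonneg ?_
        have h2 : (0 : ℝ) ≤ M1 := Nat.cast_nonneg M1
        linarith [Real.exp_pos (C : ℝ)]
      · exact Real.log_le_log (by exact_mod_cast h0') (not_lt.1 hcon)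
    have h2 := pow_le_pow_left₀ hlM0 h1 A
    linarith
  have hMM : M1 ≤ M := by
    have h1 : (M1 : ℝ) ≤ M := by linarith [Real.exp_pos (C : ℝ)]
    exact_mod_cast h1
  have hM0 : (0 : ℝ) < M := by
    have h1 : (0 : ℝ) ≤ M1 := Nat.cast_nonneg M1
    linarith [Real.exp_pos (C : ℝ)]
  have hClM : (C : ℝ) ≤ Real.log M := by
    rw [Real.le_log_iff_exp_le hM0]
    have h1 : (0 : ℝ) ≤ M1 := Nat.cast_nonneg M1
    linarith
  have hlM1 : 1 ≤ Real.log (M : ℝ) := hC1r.trans hClM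
  obtain ⟨hxx, hxs1, hlx1, hlx2, hlx3, hprime⟩ := hM1 M hMM
  generalize xs M = X at hxx hxs1 hlx1 hlx2 hlx3 hprime
  have hlX : 1 ≤ Real.log X := hlM1.trans hlx1
  have hLM : (L : ℝ) ≤ Real.log M ^ (A + 1) := by
    rw [hLC, pow_succ, mul_comm]
    push_cast
    exact mul_le_mul hyA hClM hC0.le (by positivity)
  have hlXA : (L : ℝ) ≤ Real.log X ^ (A + 1) := hLM.trans (pow_le_pow_left₀ hlM0 hlx1 (A + 1))
  obtain ⟨V, hV⟩ : ∃ V : ℝ, V = Real.log M ^ k := ⟨_, rfl⟩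
  obtain ⟨Thr, hThr⟩ : ∃ Thr : ℝ, Thr = d * M := ⟨_, rfl⟩
  have hV0 : 0 < V := by rw [hV]; positivity
  have hThr0 : 0 ≤ Thr := by rw [hThr]; positivity
  have hThr2 : d * min 1 ((z : ℝ) / Real.log M) ^ D * M ≤ Thr := by
    rw [hThr]
    have h3 : min 1 ((z : ℝ) / Real.log M) ^ D ≤ 1 :=
      pow_le_one₀ (le_min zero_le_one (div_nonneg (Nat.cast_nonneg _) hlM0)) (min_le_left _ _)
    calc d * min 1 ((z : ℝ) / Real.log M) ^ D * M ≤ d * 1 * M := by gcongr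
      _ = d * M := by ring
  by_contra hcon0
  push Not at hcon0
  obtain ⟨𝓗, h𝓗1, h𝓗2⟩ := hconf z (by omega) (BadDil (fun a : Fin k → ℕ => Gm W₀ s₀ χ D d M z a) z (R * n))
    (fun a ha i => by
      unfold BadDil at ha
      rw [mem_filter, Fintype.mem_piFinset] at ha
      exact (mem_Icc.1 (ha.1 i)).2) hcon0.le
  rw [← hL] at h𝓗1 h𝓗2
  have hcount := hxx L hLH0 hlXA 𝓗
    (fun v hv => ⟨(h𝓗2 v hv).1, fun i => by
      have h4 : Nat.gcd ρ R = 1 := hρ1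
      show Nat.gcd (v i) R = 1
      rw [← h4]
      exact Nat.ModEq.gcd_eq ((h𝓗2 v hv).2.1 i)⟩) h𝓗1 (fun N => FN W₀ s₀ χ M V Thr L N) (by
        intro N' hRN v hv hwc
        obtain ⟨hv1, hv2, hv3⟩ := h𝓗2 v hv
        obtain ⟨q, u, hu1, hu2⟩ := win_bad hm n e mm hmm hmn g χ hS W₀ s₀ R ρ hR hWR hρ2 D d M z V Thr hV.le hThr2 N'
          hRN v hv2 hv3 hwc
        refine ⟨u, ?_, fun j => (hu2 j).1⟩
        unfold FN
        rw [mem_filter, Fintype.mem_piFinset]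
        refine ⟨fun j => ?_, hu1, q, fun j => (hu2 j).2⟩
        obtain ⟨i', hi'⟩ := (hu2 j).1
        rw [mem_range, ← hi']
        exact Nat.lt_succ_iff.2 ((mem_IJ.1 hv1).1 i')) (by
        intro N' u hu
        unfold FN at hu
        rw [mem_filter, Fintype.mem_piFinset] at hu
        obtain ⟨h1, h2, q, h3⟩ := hu
        exact ⟨(bad_mono W₀ s₀ χ M V Thr _ u h2).injective,
          fun j => ⟨Nat.lt_succ_iff.1 (mem_range.1 (h1 j)), (h3 j).1⟩⟩)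
  have hub := sum_FN (k := k) W₀ s₀ χ M V Thr hV0 hThr0 L (range (⌊T * X⌋₊ + 1)) (by
    intro N' hN' u hu hp
    refine hprime _ hp ?_
    rw [mem_range, Nat.lt_succ_iff] at hN'
    have h1 : (N' : ℝ) ≤ T * X := (Nat.le_floor_iff (by positivity)).1 hN'
    have h2 : (u : ℝ) ≤ L := by exact_mod_cast hu
    push_cast
    linarith)
  -- comparison
  have h1 : V * (δ * (min 1 (L / Real.log X)) ^ (2 * (m * s)) * (L / Real.log X) ^ (k + 1) * X) ≤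
      r * ((L : ℝ) + 1) ^ (k + 1) * Thr := (mul_le_mul_of_nonneg_left hcount hV0.le).trans hub
  have hlX0 : 0 < Real.log X := by linarith
  have h2 : c1 ≤ min 1 (L / Real.log X) := by
    rw [hc1]
    refine min_le_min le_rfl ?_
    rw [le_div_iff₀ hlX0]
    have h4 : c₀ / 2 * Real.log X ≤ c₀ / 2 * (2 * Real.log M) := mul_le_mul_of_nonneg_left hlx2 (by positivity)
    linarith
  have h3 : (L : ℝ) ^ (k + 1) * M * (κ / 2 ^ (k + 1)) ≤ V * ((L / Real.log X) ^ (k + 1) * X) := by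
    have h4 : (L / (2 * Real.log M)) ^ (k + 1) ≤ (L / Real.log X) ^ (k + 1) := by
      refine pow_le_pow_left₀ (by positivity) ?_ _
      exact div_le_div_of_nonneg_left (by linarith) hlX0 hlx2
    have h5 : (L / (2 * Real.log M)) ^ (k + 1) * (κ * (M * Real.log M)) ≤ (L / Real.log X) ^ (k + 1) * X :=
      mul_le_mul h4 hlx3 (by positivity) (by positivity)
    have h6 := mul_le_mul_of_nonneg_left h5 hV0.le
    refine le_trans (le_of_eq ?_) h6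
    have h7 : Real.log (M : ℝ) ≠ 0 := by
      have : 0 < Real.log (M : ℝ) := by linarith
      exact this.ne'
    rw [hV, div_pow, mul_pow, pow_succ (Real.log (M : ℝ)) k]
    field_simp
  have h4 : ((L : ℝ) + 1) ^ (k + 1) ≤ 2 ^ (k + 1) * (L : ℝ) ^ (k + 1) := by
    rw [← mul_pow]
    exact pow_le_pow_left₀ (by positivity) (by linarith) _
  have h5 : δ * c1 ^ (2 * (m * s)) * ((L : ℝ) ^ (k + 1) * M * (κ / 2 ^ (k + 1))) ≤
      r * (2 ^ (k + 1) * (L : ℝ) ^ (k + 1)) * Thr := by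
    calc δ * c1 ^ (2 * (m * s)) * ((L : ℝ) ^ (k + 1) * M * (κ / 2 ^ (k + 1)))
        ≤ δ * (min 1 (L / Real.log X)) ^ (2 * (m * s)) * (V * ((L / Real.log X) ^ (k + 1) * X)) := by
          refine mul_le_mul ?_ h3 (by positivity) (by positivity)
          exact mul_le_mul_of_nonneg_left (pow_le_pow_left₀ hc10.le h2 _) hδ.le
      _ = V * (δ * (min 1 (L / Real.log X)) ^ (2 * (m * s)) * (L / Real.log X) ^ (k + 1) * X) := by ring
      _ ≤ r * ((L : ℝ) + 1) ^ (k + 1) * Thr := h1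
      _ ≤ r * (2 ^ (k + 1) * (L : ℝ) ^ (k + 1)) * Thr := by gcongr
  have h6 : δ * c1 ^ (2 * (m * s)) * ((L : ℝ) ^ (k + 1) * M * (κ / 2 ^ (k + 1))) =
      δ' * ((L : ℝ) ^ (k + 1) * M) := by rw [hδ']; ring
  have h7 : r * (2 ^ (k + 1) * (L : ℝ) ^ (k + 1)) * Thr = δ' * ((L : ℝ) ^ (k + 1) * M) / 2 := by
    rw [hThr, hd]
    field_simp
  have h8 : 0 < δ' * ((L : ℝ) ^ (k + 1) * M) := by positivity
  rw [h6, h7] at h5
  linarith

/-- **bounded dilations at every scale**, with a bound independent of the power of the logarithm -/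
theorem plusB (k r : ℕ) (hsys : HasSys k) : ∃ D m₁ : ℕ, ∀ A W₀ s₀ : ℕ, 0 < W₀ → Nat.Coprime s₀ W₀ →
    ∀ ε : ℝ, 0 < ε → ∃ (z₀ : ℕ) (d : ℝ), 0 < d ∧ ∀ (χ : ℕ → Fin r) (M z : ℕ), z₀ ≤ z → (z : ℝ) ≤ Real.log M ^ A →
      ((BadDil (fun a : Fin k → ℕ => Gm W₀ s₀ χ D d M z a) z (m₁ * W₀)).card : ℝ) ≤ ε * (z : ℝ) ^ k := by
  rcases Nat.eq_zero_or_pos r with hr | hr
  · subst hr
    exact ⟨0, 0, fun _ _ _ _ _ _ _ => ⟨1, 1, one_pos, fun χ => (χ 0).elim0⟩⟩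
  have hr0 : (0 : ℝ) < r := by exact_mod_cast hr
  obtain ⟨n, W, ι, i1, i2, i3, i4, e, N, mm, hN, hmm, hmn, hpt, hinj, hlin, hcov, hS⟩ :=
    hsys (1 / (100 * (r : ℝ))) (by positivity)
  obtain ⟨m, hmd⟩ : ∃ m : ℕ, m = Fintype.card W := ⟨_, rfl⟩
  have hm : 1 ≤ m := by
    rw [hmd]
    exact Fintype.card_pos
  obtain ⟨g⟩ : Nonempty (Fin m ≃ W) := by
    rw [hmd]
    exact ⟨(Fintype.equivFin _).symm⟩
  obtain ⟨s, wd1, h1⟩ := plusS hr hm n e N mm hN hmm hmn hpt hinj hlin hcov hS g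
  obtain ⟨wd2, h2⟩ := plusC hr hm n e N mm hN hmm hmn hpt hinj hlin hcov hS g
  have hle1 : ∀ W₀ : ℕ, W₀ * primorial wd1 * n ≤ max (primorial wd1 * n) (primorial wd2 * n) * W₀ := by
    intro W₀
    have h3 := Nat.mul_le_mul_right W₀ (le_max_left (primorial wd1 * n) (primorial wd2 * n))
    refine le_trans (le_of_eq ?_) h3
    ring
  have hle2 : ∀ W₀ : ℕ, W₀ * primorial wd2 * n ≤ max (primorial wd1 * n) (primorial wd2 * n) * W₀ := by
    intro W₀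
    have h3 := Nat.mul_le_mul_right W₀ (le_max_right (primorial wd1 * n) (primorial wd2 * n))
    refine le_trans (le_of_eq ?_) h3
    ring
  refine ⟨m * s, max (primorial wd1 * n) (primorial wd2 * n), fun A W₀ s₀ hW₀ hs₀ ε hε => ?_⟩
  obtain ⟨z1, c, d1, hc, hd1, h1⟩ := h1 W₀ s₀ hW₀ hs₀ ε hε
  obtain ⟨z2, d2, hd2, h2⟩ := h2 A W₀ s₀ hW₀ hs₀ (m * s) ε c hε hc
  refine ⟨max z1 z2, min d1 d2, lt_min hd1 hd2, fun χ M z hz hzM => ?_⟩
  rcases le_or_gt (z : ℝ) (c * Real.log M) with hzc | hzc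
  · refine le_trans (Nat.cast_le.2 (baddil_mono (fun a ha => ?_) (hle1 W₀))) (h1 χ M z ((le_max_left _ _).trans hz) hzc)
    exact gm_mono (Nat.cast_nonneg _) (min_le_left _ _) ha
  · refine le_trans (Nat.cast_le.2 (baddil_mono (fun a ha => ?_) (hle2 W₀)))
      (h2 χ M z ((le_max_right _ _).trans hz) hzc hzM)
    exact gm_mono (Nat.cast_nonneg _) (min_le_right _ _) ha

open Classical in
/-- **clause (1) of the final text** -/
theorem c1' (k r : ℕ) : ∃ D m₁ : ℕ, ∀ A W s : ℕ, 0 < W → Nat.Coprime s W → ∀ ε : ℝ, 0 < ε → ∃ B d : ℝ, 0 < d ∧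
    ∀ (χ : ℕ → Fin r) (M z : ℕ), B ≤ z → (z : ℝ) ≤ Real.log M ^ A →
      (((Fintype.piFinset (fun _ : Fin k => Finset.Icc 1 z)).filter (fun a : Fin k → ℕ => StrictMono a ∧
        ¬ ∃ m : ℕ, 1 ≤ m ∧ m ≤ m₁ * W ∧ Txt.Many W s χ ∅ (fun j => m * a j) M (Real.log M ^ k)
          (d * min 1 (z / Real.log M) ^ D * M))).card : ℝ) ≤ ε * (z : ℝ) ^ k := by
  obtain ⟨D, m₁, h⟩ := plusB k r (hasSys k)
  refine ⟨D, m₁, fun A W s hW hs ε hε => ?_⟩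
  obtain ⟨z₀, d, hd, h⟩ := h A W s hW hs ε hε
  refine ⟨z₀, d, hd, fun χ M z hz hzM => ?_⟩
  refine le_trans (Nat.cast_le.2 (card_le_card fun a ha => ?_)) (h χ M z (by exact_mod_cast hz) hzM)
  unfold BadDil
  rw [mem_filter] at ha ⊢
  exact ha

end Pool.Agent.H34.EQ
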