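import Pool.Agent.H34.EQ.Inf
import Pool.Agent.H34.EQ.Plv

/-!
# [H34 EQ INF2] Almost all tuples have a bounded multiple for which there are infinitely many primes

The bound is `m₁ * W`, `m₁` depends only on `k` and the number of colours.
-/

set_option autoImplicit false

namespace Pool.Agent.H34.EQ

open Finset Filter Pool.Agent.H62.EX

open Classical in
/-- **almost all tuples have a bounded multiple with infinitely many primes** -/
theorem c4' (k r : ℕ) : ∃ m₁ : ℕ, ∀ W s : ℕ, 0 < W → Nat.Coprime s W → ∀ ε : ℝ, 0 < ε → ∃ B : ℝ,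
    ∀ (χ : ℕ → Fin r) (z : ℕ), B ≤ z →
      (((Fintype.piFinset (fun _ : Fin k => Icc 1 z)).filter (fun a : Fin k → ℕ => StrictMono a ∧
        ¬ ∃ m : ℕ, 1 ≤ m ∧ m ≤ m₁ * W ∧ ∃ q : Fin r,
          {p : ℕ | Txt.Pat W s χ q (∅ : Finset (Fin k)) (Fin.cons 0 (fun j => m * a j) : Fin (k + 1) → ℕ) p}.Infinite)).card : ℝ) ≤
        ε * (z : ℝ) ^ k := by
  obtain ⟨D, m₁, hD⟩ := c1' k r
  refine ⟨m₁, fun W s hW hs ε hε => ?_⟩
  obtain ⟨B, d, hd, h⟩ := hD 1 W s hW hs ε hε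
  obtain ⟨m₀, hm₀⟩ : ∃ m₀ : ℕ, m₀ = m₁ * W := ⟨_, rfl⟩
  rw [← hm₀] at h ⊢
  refine ⟨max B 1, fun χ z hz => ?_⟩
  have hz1 : (1 : ℝ) ≤ z := (le_max_right _ _).trans hz
  have hz0 : (0 : ℝ) < z := by linarith
  obtain ⟨T, hT⟩ : ∃ T : Finset (Fin k → ℕ), T = (Fintype.piFinset (fun _ : Fin k => Icc 1 z)).filter (fun a : Fin k → ℕ =>
      StrictMono a ∧ ¬ ∃ m : ℕ, 1 ≤ m ∧ m ≤ m₀ ∧ ∃ q : Fin r,
        {p : ℕ | Txt.Pat W s χ q (∅ : Finset (Fin k)) (Fin.cons 0 (fun j => m * a j) : Fin (k + 1) → ℕ) p}.Infinite) := ⟨_, rfl⟩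
  rw [← hT]
  -- a common bound for the counts
  have hC : ∀ a : Fin k → ℕ, ∃ C : ℕ, a ∈ T → ∀ m : ℕ, 1 ≤ m → m ≤ m₀ → ∀ (q : Fin r) (M : ℕ),
      {n : ℕ | n < M ∧ Txt.Pat W s χ q (∅ : Finset (Fin k)) (Fin.cons 0 (fun j => m * a j) : Fin (k + 1) → ℕ)
        (Nat.nth Nat.Prime n)}.ncard ≤ C := by
    intro a
    by_cases ha : a ∈ T
    · rw [hT, mem_filter] at ha
      have h1 : ∀ m q, ∃ C : ℕ, 1 ≤ m → m ≤ m₀ → ∀ M : ℕ,
          {n : ℕ | n < M ∧ Txt.Pat W s χ q (∅ : Finset (Fin k)) (Fin.cons 0 (fun j => m * a j) : Fin (k + 1) → ℕ)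
            (Nat.nth Nat.Prime n)}.ncard ≤ C := by
        intro m q
        by_cases hm : 1 ≤ m ∧ m ≤ m₀
        · have h2 : {p : ℕ | Txt.Pat W s χ q (∅ : Finset (Fin k)) (Fin.cons 0 (fun j => m * a j) : Fin (k + 1) → ℕ) p}.Finite := by
            by_contra hcon
            exact ha.2.2 ⟨m, hm.1, hm.2, q, hcon⟩
          obtain ⟨C, hC⟩ := count_bdd W s χ q ∅ _ h2
          exact ⟨C, fun _ _ => hC⟩
        · exact ⟨0, fun h2 h3 => absurd ⟨h2, h3⟩ hm⟩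
      choose C hC using h1
      refine ⟨∑ m ∈ range (m₀ + 1), ∑ q : Fin r, C m q, fun _ m hm1 hm2 q M => (hC m q hm1 hm2 M).trans ?_⟩
      refine le_trans (single_le_sum (f := fun q => C m q) (fun _ _ => Nat.zero_le _) (mem_univ q)) ?_
      exact single_le_sum (f := fun m => ∑ q : Fin r, C m q) (fun _ _ => Nat.zero_le _) (mem_range.2 (by omega))
    · exact ⟨0, fun h1 => absurd h1 ha⟩
  choose C hC using hC
  obtain ⟨C0, hC0⟩ : ∃ C0 : ℕ, C0 = ∑ a ∈ T, C a := ⟨_, rfl⟩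
  have h1 : ∀ᶠ M : ℕ in atTop, (C0 : ℝ) < d * min 1 (z / Real.log M) ^ D * M / Real.log M ^ k :=
    (thr_tendsto k D d z hd hz0).eventually_gt_atTop _
  have h2 : ∀ᶠ M : ℕ in atTop, (z : ℝ) < Real.log (M : ℝ) :=
    (Real.tendsto_log_atTop.comp tendsto_natCast_atTop_atTop).eventually_gt_atTop _
  obtain ⟨M, hM1, hM2⟩ := (h1.and h2).exists
  have hl0 : 0 < Real.log (M : ℝ) := hz0.trans hM2
  refine le_trans (Nat.cast_le.2 (card_le_card fun a ha => ?_)) (h χ M z ((le_max_left _ _).trans hz) (by rw [pow_one]; exact hM2.le))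
  have ha' := ha
  rw [hT, mem_filter] at ha'
  rw [mem_filter]
  refine ⟨ha'.1, ha'.2.1, ?_⟩
  rintro ⟨m, hm1, hm2, q, hq⟩
  have h3 := hC a ha m hm1 hm2 q M
  have h4 : C a ≤ C0 := by
    rw [hC0]
    exact single_le_sum (f := fun a => C a) (fun _ _ => Nat.zero_le _) ha
  have h5 : ({n : ℕ | n < M ∧ Txt.Pat W s χ q (∅ : Finset (Fin k)) (Fin.cons 0 (fun j => m * a j) : Fin (k + 1) → ℕ)
        (Nat.nth Nat.Prime n)}.ncard : ℝ) ≤ C0 := Nat.cast_le.2 (h3.trans h4)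
  rw [lt_div_iff₀ (by positivity)] at hM1
  have h6 := mul_le_mul_of_nonneg_left h5 (show 0 ≤ Real.log (M : ℝ) ^ k by positivity)
  linarith

end Pool.Agent.H34.EQ
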