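import Pool.Agent.H34.EQ.Plv

/-!
# [H34 EQ IPA] Dilations by given numbers

`BadS P z R mm`: the increasing tuples `a` up to `z` such that `P` is false for all `R * mm l * a`.
-/

set_option autoImplicit false

namespace Pool.Agent.H34.EQ

open Finset Filter Pool.Agent.H61.UN Pool.Agent.H34.RR Pool.Agent.H62.EX

open Classical in
/-- tuples without a good multiple among the `R * mm l` -/
noncomputable def BadS {ι : Type} {k : ℕ} (P : (Fin k → ℕ) → Prop) (z R : ℕ) (mm : ι → ℕ) : Finset (Fin k → ℕ) :=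
  (Fintype.piFinset (fun _ : Fin k => Icc 1 z)).filter (fun a => StrictMono a ∧ ¬ ∃ l : ι, P (fun j => R * mm l * a j))

theorem mem_BadS {ι : Type} {k : ℕ} {P : (Fin k → ℕ) → Prop} {z R : ℕ} {mm : ι → ℕ} {a : Fin k → ℕ} :
    a ∈ BadS P z R mm ↔ (∀ j, a j ∈ Icc 1 z) ∧ StrictMono a ∧ ¬ ∃ l : ι, P (fun j => R * mm l * a j) := by
  classical
  unfold BadS
  rw [mem_filter, Fintype.mem_piFinset]

theorem bads_mono {ι : Type} {k : ℕ} {P P' : (Fin k → ℕ) → Prop} (h : ∀ a, P a → P' a) {z R : ℕ} {mm : ι → ℕ} :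
    (BadS P' z R mm).card ≤ (BadS P z R mm).card := by
  classical
  refine card_le_card fun a ha => ?_
  unfold BadS at ha ⊢
  rw [mem_filter] at ha ⊢
  refine ⟨ha.1, ha.2.1, fun h1 => ha.2.2 ?_⟩
  obtain ⟨l, h2⟩ := h1
  exact ⟨l, h _ h2⟩

/-- multiples of tuples without good multiple are bad -/
theorem bad_mulI {ι : Type} {k r : ℕ} (W s₀ : ℕ) (χ : ℕ → Fin r) (D : ℕ) (d : ℝ) (M z R : ℕ) (mm : ι → ℕ) (V Thr : ℝ)
    (hV : V ≤ Real.log M ^ k) (hThr : d * min 1 ((z : ℝ) / Real.log M) ^ D * M ≤ Thr) (b : Fin k → ℕ)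
    (hb : b ∈ BadS (fun a => Gm W s₀ χ D d M z a) z R mm) (l : ι) (hl : 1 ≤ R * mm l) :
    (fun j => ((R * mm l * b j : ℕ) : ℤ)) ∈ Bad0 W s₀ χ M V Thr := by
  classical
  obtain ⟨m, hmd⟩ : ∃ m : ℕ, m = R * mm l := ⟨_, rfl⟩
  have hm1 : 1 ≤ m := by rw [hmd]; exact hl
  rw [← hmd]
  unfold BadS at hb
  rw [mem_filter, Fintype.mem_piFinset] at hb
  obtain ⟨hb1, hb2, hb3⟩ := hb
  have hm0 : (0 : ℤ) < m := by exact_mod_cast hm1
  refine ⟨?_, fun q => ?_⟩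
  · intro i i' hii
    refine Fin.cases (fun hii => ?_) (fun j hii => ?_) i hii
    · obtain ⟨j', rfl⟩ := Fin.exists_succ_eq.2 (Fin.pos_iff_ne_zero.1 hii)
      rw [Fin.cons_zero, Fin.cons_succ]
      have : 0 < m * b j' := Nat.mul_pos hm1 (mem_Icc.1 (hb1 j')).1
      exact_mod_cast this
    · have hne : i' ≠ 0 := by
        rintro rfl
        exact absurd hii (by simp)
      obtain ⟨j', rfl⟩ := Fin.exists_succ_eq.2 hne
      rw [Fin.cons_succ, Fin.cons_succ]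
      have h1 : b j < b j' := hb2 (Fin.succ_lt_succ_iff.1 hii)
      have h2 : m * b j < m * b j' := Nat.mul_lt_mul_of_pos_left h1 hm1
      exact_mod_cast h2
  · by_contra hcon
    apply hb3
    refine ⟨l, q, ?_⟩
    rw [← hmd]
    have h1 : (fun j => ((Fin.cons 0 (fun j => ((m * b j : ℕ) : ℤ)) : Fin (k + 1) → ℤ) j).toNat) =
        (Fin.cons 0 (fun j => m * b j) : Fin (k + 1) → ℕ) := by
      funext i
      refine Fin.cases ?_ (fun j => ?_) i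
      · simp
      · rw [Fin.cons_succ, Fin.cons_succ, Int.toNat_natCast]
    rw [h1] at hcon
    refine hThr.trans ((not_lt.1 hcon).trans ?_)
    rw [ncard_eq]
    exact mul_le_mul_of_nonneg_right hV (Nat.cast_nonneg _)

open Classical in
/-- the bad pattern in a window -/
theorem win_badI {W ι : Type} [Fintype W] {k r m s : ℕ} (hm : 1 ≤ m) (e : ι → Fin (k + 1) → W) (mm : ι → ℕ)
    (hmm : ∀ l, 1 ≤ mm l) (g : Fin m ≃ W) (χ : ℕ → Fin r)
    (hS : ∀ S : Finset W, 1 / (100 * (r : ℝ)) * Fintype.card W ≤ S.card → ∃ l, ∀ i, e l i ∈ S)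
    (W₀ s₀ R ρ : ℕ) (hR : 0 < R) (hWR : W₀ ∣ R) (hρ : ρ ≡ s₀ [MOD W₀]) (D : ℕ) (d : ℝ) (M z : ℕ) (V Thr : ℝ)
    (hV : V ≤ Real.log M ^ k) (hThr : d * min 1 ((z : ℝ) / Real.log M) ^ D * M ≤ Thr)
    (N : ℕ) (hRN : R ∣ N) (v : Fin m × Fin s → ℕ) (hvρ : ∀ p, v p ≡ ρ [MOD R])
    (hv : ∀ l, ∀ t : Fin (k + 1) → Fin s, ∃ b ∈ BadS (fun a : Fin k → ℕ => Gm W₀ s₀ χ D d M z a) z R mm,
      ∀ i : Fin k, v (g.symm (e l i.succ), t i.succ) = v (g.symm (e l 0), t 0) + R * mm l * b i)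
    (h1 : 1 < wc (fun _ : Fin m => 100 / (m : ℝ)) v N) :
    ∃ (q : Fin r) (u : Fin (k + 1) → ℕ), df u ∈ Bad0 W₀ s₀ χ M V Thr ∧ ∀ i, (∃ i', v i' = u i) ∧ (N + u i).Prime ∧
      χ (N + u i) = q ∧ N + u i ≡ s₀ [MOD W₀] := by
  obtain ⟨q, l, t, hq⟩ := win_sys hm e g χ hS N v h1
  obtain ⟨b, hb, hvb⟩ := hv l t
  refine ⟨q, fun i => v (g.symm (e l i), t i), ?_, fun i => ⟨⟨_, rfl⟩, (hq i).1, (hq i).2, ?_⟩⟩
  · have h2 : df (fun i => v (g.symm (e l i), t i)) = fun j => ((R * mm l * b j : ℕ) : ℤ) := by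
      funext j
      show ((v (g.symm (e l j.succ), t j.succ) : ℕ) : ℤ) - ((v (g.symm (e l 0), t 0) : ℕ) : ℤ) = _
      rw [hvb]
      push_cast
      ring
    rw [h2]
    exact bad_mulI W₀ s₀ χ D d M z R mm V Thr hV hThr b hb l (Nat.mul_pos hR (hmm l))
  · have h4 : N ≡ 0 [MOD W₀] := Nat.modEq_zero_iff_dvd.2 (hWR.trans hRN)
    have h5 := h4.add ((hvρ (g.symm (e l i), t i)).of_dvd hWR)
    rw [Nat.zero_add] at h5
    exact h5.trans hρ

end Pool.Agent.H34.EQ
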