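import Pool.Agent.H34.EQ.Ipa

/-!
# [H34 EQ IPB] Dilations by given numbers: short and long windows

`plusSI`, `plusCI`: as `plusS`, `plusC`; the coordinates `N` and the ratios `mm` are chosen after the sieve.
-/

set_option autoImplicit false

namespace Pool.Agent.H34.EQ

open Finset Filter Pool.Agent.H61.UN Pool.Agent.H34.RR Pool.Agent.H62.EX

open Classical in
/-- windows shorter than `c log M` -/
theorem plusSI {W ι : Type} [Fintype W] [DecidableEq W] [Nonempty W] [Fintype ι] {k r m : ℕ} (hr : 0 < r) (hm : 1 ≤ m)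
    (e : ι → Fin (k + 1) → W) (hinj : ∀ l, Function.Injective (e l))
    (hlin : ∀ l l', l ≠ l' → ∀ i j i' j', e l i = e l' i' → e l j = e l' j' → i = j) (hcov : ∀ w, ∃ l i, e l i = w)
    (hS : ∀ S : Finset W, 1 / (100 * (r : ℝ)) * Fintype.card W ≤ S.card → ∃ l, ∀ i, e l i ∈ S) (g : Fin m ≃ W) :
    ∃ s wd : ℕ, ∀ (n : ℕ) (N : W → Fin k → ℕ) (mm : ι → ℕ), (∀ w i, N w i ≤ n) → (∀ l, 1 ≤ mm l) →
      (∀ l (i j : Fin k), N (e l i.succ) j = N (e l 0) j + if i = j then mm l else 0) →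
      ∀ W₀ s₀ R : ℕ, 0 < W₀ → Nat.Coprime s₀ W₀ → 0 < R → primorial wd ∣ R → W₀ ∣ R → ∀ ε : ℝ, 0 < ε →
      ∃ (z₀ : ℕ) (c d : ℝ), 0 < c ∧ 0 < d ∧ ∀ (χ : ℕ → Fin r) (M z : ℕ), z₀ ≤ z → (z : ℝ) ≤ c * Real.log M →
        ((BadS (fun a : Fin k → ℕ => Gm W₀ s₀ χ (m * s) d M z a) z R mm).card : ℝ) ≤ ε * (z : ℝ) ^ k := by
  have hr0 : (0 : ℝ) < r := by exact_mod_cast hr
  have hm0 : (0 : ℝ) < m := by exact_mod_cast hm
  obtain ⟨s, wd, hs, hsv⟩ := sieveE m hm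
  refine ⟨s, wd, fun n N mm hN hmm hpt W₀ s₀ R hW₀ hs₀ hR hRw hWR ε hε => ?_⟩
  obtain ⟨ρ, hρ1, hρ2⟩ := exists_class W₀ s₀ R hW₀ hs₀ hR
  obtain ⟨c, L0, hc, hconf⟩ := conf_fin n e N mm hN hmm hpt hinj hlin hcov g s R ρ hs hR ε hε
  obtain ⟨C, hC⟩ : ∃ C : ℕ, C = R * (n * k + 1) := ⟨_, rfl⟩
  have hC1 : 1 ≤ C := by rw [hC]; exact Nat.mul_pos hR (Nat.succ_pos _)
  have hC0 : (0 : ℝ) < C := by exact_mod_cast hC1
  have hC1r : (1 : ℝ) ≤ C := by exact_mod_cast hC1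
  obtain ⟨lam, δ, θ, T, H0, hlam, hlam1, hδ, hθ, hT, hH0, hx⟩ := hsv (fun _ => 100 / (m : ℝ)) (fun _ => by positivity)
    (by
      rw [sum_const, card_univ, Fintype.card_fin, nsmul_eq_mul]
      exact le_of_eq (by field_simp)) R hR hRw c hc
  obtain ⟨d0, xs, hd0, hxs, hwin⟩ := Pool.Agent.H62.AU.winU T hT
  have hev := (hxs.eventually hx).and ((hxs.eventually_gt_atTop 1).and hwin)
  obtain ⟨M1, hM1⟩ := eventually_atTop.1 hev
  obtain ⟨Kc, hKc⟩ : ∃ Kc : ℝ, Kc = (Fintype.card (Lab k) + 1) * r * 2 ^ k := ⟨_, rfl⟩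
  have hKc0 : 0 < Kc := by rw [hKc]; positivity
  obtain ⟨d, hd⟩ : ∃ d : ℝ, d = d0 * (δ * (1 / 2) ^ (m * s)) / (2 * Kc) := ⟨_, rfl⟩
  have hd1 : 0 < d := by rw [hd]; positivity
  refine ⟨L0 + ⌈H0⌉₊ + ⌈Real.log ((M1 : ℝ) + 1)⌉₊ + 1, lam / C, d, by positivity, hd1, fun χ M z hz hzM => ?_⟩
  obtain ⟨L, hL⟩ : ∃ L : ℕ, L = R * ((n * k + 1) * z) := ⟨_, rfl⟩
  have hLC : L = C * z := by rw [hL, hC, Nat.mul_assoc]
  have hzL : z ≤ L := by
    rw [hLC]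
    exact Nat.le_mul_of_pos_left z hC1
  have hzLr : (z : ℝ) ≤ L := by exact_mod_cast hzL
  have hLLM : (L : ℝ) ≤ lam * Real.log M := by
    rw [hLC]
    push_cast
    have h1 : (C : ℝ) * z ≤ C * (lam / C * Real.log M) := mul_le_mul_of_nonneg_left hzM hC0.le
    refine h1.trans (le_of_eq ?_)
    field_simp
  obtain ⟨t, ht1⟩ : ∃ t, t = (L : ℝ) / Real.log M := ⟨_, rfl⟩
  have hLH0 : H0 ≤ L := by
    have h1 : (⌈H0⌉₊ : ℝ) ≤ L := by
      have : ⌈H0⌉₊ ≤ L := by omega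
      exact_mod_cast this
    exact (Nat.le_ceil _).trans h1
  have hL1 : (1 : ℝ) ≤ L := hH0.trans hLH0
  have hL0 : (0 : ℝ) < L := by linarith
  have hlM0 : 0 ≤ Real.log (M : ℝ) := Real.log_natCast_nonneg M
  have hlM : (L : ℝ) ≤ Real.log M := hLLM.trans (by nlinarith)
  have hlM1 : 0 < Real.log (M : ℝ) := hL0.trans_le hlM
  have ht0 : 0 < t := by
    rw [ht1]
    exact div_pos hL0 hlM1
  have ht : t ≤ 1 := by
    rw [ht1, div_le_one hlM1]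
    exact hlM
  have hy : (L : ℝ) = t * Real.log M := by
    rw [ht1, div_mul_cancel₀ _ hlM1.ne']
  have hM0 : (0 : ℝ) < M := by
    by_contra hc2
    have h2 : (M : ℝ) = 0 := le_antisymm (not_lt.1 hc2) (Nat.cast_nonneg M)
    rw [h2, Real.log_zero] at hlM
    linarith
  have hMM : M1 ≤ M := by
    have h0 : Real.log ((M1 : ℝ) + 1) ≤ L := by
      have h1 : (⌈Real.log ((M1 : ℝ) + 1)⌉₊ : ℝ) ≤ L := by
        have : ⌈Real.log ((M1 : ℝ) + 1)⌉₊ ≤ L := by omega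
        exact_mod_cast this
      exact (Nat.le_ceil _).trans h1
    have h1 : Real.log ((M1 : ℝ) + 1) ≤ Real.log M := h0.trans hlM
    have h2 : (M1 : ℝ) + 1 ≤ M := (Real.log_le_log_iff (by positivity) hM0).1 h1
    have h3 : ((M1 + 1 : ℕ) : ℝ) ≤ M := by
      push_cast
      exact h2
    have h4 : M1 + 1 ≤ M := by exact_mod_cast h3
    omega
  obtain ⟨hxx, hxs1, hlx1, hlx2, hwin⟩ := hM1 M hMM
  generalize xs M = X at hxx hxs1 hlx1 hlx2 hwin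
  have hlX : 0 < Real.log X := by linarith
  obtain ⟨V, hV⟩ : ∃ V : ℝ, V = (L : ℝ) ^ k := ⟨_, rfl⟩
  obtain ⟨Thr, hThr⟩ : ∃ Thr : ℝ, Thr = d * t ^ (m * s) * M := ⟨_, rfl⟩
  have hV0 : 0 < V := by rw [hV]; positivity
  have hThr0 : 0 ≤ Thr := by rw [hThr]; positivity
  have hVM : V ≤ Real.log M ^ k := by
    rw [hV]
    exact pow_le_pow_left₀ hL0.le hlM k
  have hThr2 : d * min 1 ((z : ℝ) / Real.log M) ^ (m * s) * M ≤ Thr := by
    rw [hThr]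
    have h1 : 0 ≤ (z : ℝ) / Real.log M := div_nonneg (Nat.cast_nonneg _) hlM0
    have h2 : min 1 ((z : ℝ) / Real.log M) ≤ t := by
      refine (min_le_right _ _).trans ?_
      rw [ht1]
      exact div_le_div_of_nonneg_right hzLr hlM0
    refine mul_le_mul_of_nonneg_right (mul_le_mul_of_nonneg_left ?_ hd1.le) hM0.le
    exact pow_le_pow_left₀ (le_min zero_le_one h1) h2 _
  by_contra hcon0
  push Not at hcon0
  obtain ⟨𝓗, h𝓗1, h𝓗2⟩ := hconf z (by omega) (BadS (fun a : Fin k → ℕ => Gm W₀ s₀ χ (m * s) d M z a) z R mm)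
    (fun a ha i => by
      rw [mem_BadS] at ha
      exact (mem_Icc.1 (ha.1 i)).2) hcon0.le
  rw [← hL] at h𝓗1 h𝓗2
  have hcount := hxx L hLH0 (hLLM.trans (mul_le_mul_of_nonneg_left hlx1 hlam.le)) 𝓗
    (fun v hv => ⟨(h𝓗2 v hv).1, fun i => by
      have h4 : Nat.gcd ρ R = 1 := hρ1
      show Nat.gcd (v i) R = 1
      rw [← h4]
      exact Nat.ModEq.gcd_eq ((h𝓗2 v hv).2.1 i)⟩) h𝓗1
  obtain ⟨P, hP⟩ : ∃ P : ℕ → Prop, P = fun n => ∃ (a : Lab k) (q : Fin r) (u : Fin k → ℕ), (∀ j, u j ≤ L) ∧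
      (fun j => (u j : ℤ)) ∈ Bad W₀ s₀ χ M V Thr a ∧
      Pat W₀ s₀ χ q a.1 (Fin.cons 0 u : Fin (k + 1) → ℕ) (Nat.nth Nat.Prime n) := ⟨_, rfl⟩
  have hfin := hwin P (δ * (L / Real.log X) ^ (m * s)) _ (by positivity) hcount (by
    intro N' hN'
    rw [mem_filter, mem_range, Nat.lt_succ_iff] at hN'
    obtain ⟨h1, h2, h3, v, hv, hwc, hpr⟩ := hN'
    have hX0 : 0 < X := by linarith
    refine ⟨(Nat.le_floor_iff (by positivity)).1 h1, ?_⟩
    obtain ⟨hv1, hv2, hv3⟩ := h𝓗2 v hv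
    obtain ⟨q, u, hu1, hu2⟩ := win_badI hm e mm hmm g χ hS W₀ s₀ R ρ hR hWR hρ2 (m * s) d M z V Thr hVM hThr2 N' h3 v
      hv2 hv3 hwc
    have huL : ∀ i, u i ≤ L := fun i => by
      obtain ⟨i', hi'⟩ := (hu2 i).1
      rw [← hi']
      exact (mem_IJ.1 hv1).1 i'
    have hzm := bad_mono W₀ s₀ χ M V Thr _ u hu1
    have hz0 : ∀ i, u 0 ≤ u i := fun i => hzm.monotone (Fin.zero_le i)
    obtain ⟨n', hn⟩ := exists_nth (hu2 0).2.1
    refine ⟨n', ?_, ?_, ?_⟩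
    · rw [hP]
      refine ⟨⟨∅, fun i hi => absurd hi (notMem_empty i)⟩, q, fun j => u j.succ - u 0,
        fun j => (Nat.sub_le _ _).trans (huL _), ?_, ?_, fun i hi => absurd hi (notMem_empty i)⟩
      · have h4 : (fun j : Fin k => ((u j.succ - u 0 : ℕ) : ℤ)) = df u := by
          funext j
          rw [df, Nat.cast_sub (hz0 _)]
        rw [h4]
        exact hu1
      · intro j
        rw [hn]
        have h4 : N' + u 0 + (Fin.cons 0 (fun j : Fin k => u j.succ - u 0) : Fin (k + 1) → ℕ) j = N' + u j := by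
          refine Fin.cases ?_ (fun j => ?_) j
          · simp
          · rw [Fin.cons_succ]
            have := hz0 j.succ
            omega
        rw [h4]
        exact (hu2 j).2
    · rw [hn]
      exact Nat.le_add_right _ _
    · rw [hn]
      push_cast
      have h4 : (u 0 : ℝ) ≤ L := by exact_mod_cast huL 0
      linarith)
  have hub := union_bd W₀ s₀ χ M L V Thr hV0 hThr0 P (by
    intro n hn
    rw [hP] at hn
    exact hn)
  -- comparison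
  have h1 : V * (d0 * (δ * (L / Real.log X) ^ (m * s)) * M) ≤
      Fintype.card (Lab k) * r * ((L : ℝ) + 1) ^ k * Thr := (mul_le_mul_of_nonneg_left hfin hV0.le).trans hub
  have h2 : ((L : ℝ) + 1) ^ k ≤ 2 ^ k * V := by
    rw [hV, ← mul_pow]
    refine pow_le_pow_left₀ (by positivity) ?_ k
    linarith
  have h3 : 1 / 2 * t ≤ L / Real.log X := by
    rw [le_div_iff₀ hlX]
    have h4 : 1 / 2 * t * Real.log X ≤ 1 / 2 * t * (2 * Real.log M) :=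
      mul_le_mul_of_nonneg_left hlx2 (by positivity)
    have h5 : 1 / 2 * t * (2 * Real.log M) = L := by rw [hy]; ring
    linarith
  have h4 : (1 / 2) ^ (m * s) * t ^ (m * s) ≤ (L / Real.log X) ^ (m * s) := by
    rw [← mul_pow]
    exact pow_le_pow_left₀ (by positivity) h3 _
  have h5 : V * (d0 * (δ * ((1 / 2) ^ (m * s) * t ^ (m * s))) * M) ≤ V * (Kc * Thr) := by
    calc V * (d0 * (δ * ((1 / 2) ^ (m * s) * t ^ (m * s))) * M)
        ≤ V * (d0 * (δ * (L / Real.log X) ^ (m * s)) * M) := by gcongr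
      _ ≤ Fintype.card (Lab k) * r * ((L : ℝ) + 1) ^ k * Thr := h1
      _ ≤ Fintype.card (Lab k) * r * (2 ^ k * V) * Thr := by gcongr
      _ ≤ (Fintype.card (Lab k) + 1) * r * (2 ^ k * V) * Thr := by
          gcongr
          linarith
      _ = V * (Kc * Thr) := by rw [hKc]; ring
  have h6 := le_of_mul_le_mul_left h5 hV0
  have h7 : Kc * Thr = d0 * (δ * ((1 / 2) ^ (m * s) * t ^ (m * s))) * M / 2 := by
    rw [hThr, hd]
    field_simp
  have h8 : 0 < d0 * (δ * ((1 / 2) ^ (m * s) * t ^ (m * s))) * M := by positivity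
  linarith

open Classical in
/-- windows longer than `c₀ log M` -/
theorem plusCI {W ι : Type} [Fintype W] [DecidableEq W] [Nonempty W] [Fintype ι] {k r m : ℕ} (hr : 0 < r) (hm : 1 ≤ m)
    (e : ι → Fin (k + 1) → W) (hinj : ∀ l, Function.Injective (e l))
    (hlin : ∀ l l', l ≠ l' → ∀ i j i' j', e l i = e l' i' → e l j = e l' j' → i = j) (hcov : ∀ w, ∃ l i, e l i = w)
    (hS : ∀ S : Finset W, 1 / (100 * (r : ℝ)) * Fintype.card W ≤ S.card → ∃ l, ∀ i, e l i ∈ S) (g : Fin m ≃ W) :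
    ∃ wd : ℕ, ∀ (n : ℕ) (N : W → Fin k → ℕ) (mm : ι → ℕ), (∀ w i, N w i ≤ n) → (∀ l, 1 ≤ mm l) →
      (∀ l (i j : Fin k), N (e l i.succ) j = N (e l 0) j + if i = j then mm l else 0) →
      ∀ A W₀ s₀ R : ℕ, 0 < W₀ → Nat.Coprime s₀ W₀ → 0 < R → primorial wd ∣ R → W₀ ∣ R → ∀ (D : ℕ) (ε c₀ : ℝ), 0 < ε →
      0 < c₀ → ∃ (z₀ : ℕ) (d : ℝ), 0 < d ∧
      ∀ (χ : ℕ → Fin r) (M z : ℕ), z₀ ≤ z → c₀ * Real.log M < z → (z : ℝ) ≤ Real.log M ^ A →
        ((BadS (fun a : Fin k → ℕ => Gm W₀ s₀ χ D d M z a) z R mm).card : ℝ) ≤ ε * (z : ℝ) ^ k := by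
  have hr0 : (0 : ℝ) < r := by exact_mod_cast hr
  have hm0 : (0 : ℝ) < m := by exact_mod_cast hm
  obtain ⟨s, hs, wd, hsv⟩ := sieveC m hm (k + 1)
  refine ⟨wd, fun n N mm hN hmm hpt A W₀ s₀ R hW₀ hs₀ hR hRw hWR D ε c₀ hε hc₀ => ?_⟩
  have hsv := hsv (A + 1)
  obtain ⟨ρ, hρ1, hρ2⟩ := exists_class W₀ s₀ R hW₀ hs₀ hR
  obtain ⟨c, L0, hc, hconf⟩ := conf_fin n e N mm hN hmm hpt hinj hlin hcov g s R ρ hs hR ε hε
  obtain ⟨C, hC⟩ : ∃ C : ℕ, C = R * (n * k + 1) := ⟨_, rfl⟩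
  have hC1 : 1 ≤ C := by rw [hC]; exact Nat.mul_pos hR (Nat.succ_pos _)
  have hC0 : (0 : ℝ) < C := by exact_mod_cast hC1
  have hC1r : (1 : ℝ) ≤ C := by exact_mod_cast hC1
  obtain ⟨δ, T, H0, hδ, hT, hH0, hx⟩ := hsv (fun _ => 100 / (m : ℝ)) (fun _ => by positivity)
    (by
      rw [sum_const, card_univ, Fintype.card_fin, nsmul_eq_mul]
      exact le_of_eq (by field_simp)) R hR hRw c hc
  obtain ⟨κ, xs, hκ, hxs, hscale⟩ := xs_scale T hT (A + 1)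
  have hev := (hxs.eventually hx).and ((hxs.eventually_gt_atTop 1).and hscale)
  obtain ⟨M1, hM1⟩ := eventually_atTop.1 hev
  obtain ⟨c1, hc1⟩ : ∃ c1 : ℝ, c1 = min 1 (c₀ / 2) := ⟨_, rfl⟩
  have hc10 : 0 < c1 := by rw [hc1]; exact lt_min one_pos (by positivity)
  obtain ⟨δ', hδ'⟩ : ∃ δ' : ℝ, δ' = δ * c1 ^ (2 * (m * s)) * (κ / 2 ^ (k + 1)) := ⟨_, rfl⟩
  have hδ'0 : 0 < δ' := by rw [hδ']; positivity
  obtain ⟨d, hd⟩ : ∃ d : ℝ, d = δ' / (2 * (r * 2 ^ (k + 1))) := ⟨_, rfl⟩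
  have hd1 : 0 < d := by rw [hd]; positivity
  refine ⟨L0 + ⌈H0⌉₊ + (⌈Real.log ((M1 : ℝ) + 3 + Real.exp C) ^ A⌉₊ + 1), d, hd1, fun χ M z hz hyM hyA => ?_⟩
  obtain ⟨L, hL⟩ : ∃ L : ℕ, L = R * ((n * k + 1) * z) := ⟨_, rfl⟩
  have hLC : L = C * z := by rw [hL, hC, Nat.mul_assoc]
  have hzL : z ≤ L := by
    rw [hLC]
    exact Nat.le_mul_of_pos_left z hC1
  have hzLr : (z : ℝ) ≤ L := by exact_mod_cast hzL
  have hLH0 : H0 ≤ L := by
    have h1 : (⌈H0⌉₊ : ℝ) ≤ L := by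
      have : ⌈H0⌉₊ ≤ L := by omega
      exact_mod_cast this
    exact (Nat.le_ceil _).trans h1
  have hL1 : (1 : ℝ) ≤ L := hH0.trans hLH0
  have hBz : Real.log ((M1 : ℝ) + 3 + Real.exp C) ^ A + 1 ≤ z := by
    have h1 : ((⌈Real.log ((M1 : ℝ) + 3 + Real.exp C) ^ A⌉₊ + 1 : ℕ) : ℝ) ≤ z := by
      have : ⌈Real.log ((M1 : ℝ) + 3 + Real.exp C) ^ A⌉₊ + 1 ≤ z := by omega
      exact_mod_cast this
    push_cast at h1
    linarith [Nat.le_ceil (Real.log ((M1 : ℝ) + 3 + Real.exp C) ^ A)]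
  have hlM0 : 0 ≤ Real.log (M : ℝ) := Real.log_natCast_nonneg M
  have hMr : (M1 : ℝ) + 3 + Real.exp C < M := by
    by_contra hcon
    have h0 : (0 : ℝ) < (M1 : ℝ) + 3 + Real.exp C := by positivity
    have h1 : Real.log (M : ℝ) ≤ Real.log ((M1 : ℝ) + 3 + Real.exp C) := by
      rcases Nat.eq_zero_or_pos M with h0' | h0'
      · rw [h0', Nat.cast_zero, Real.log_zero]
        refine Real.log_nonneg ?_
        have h2 : (0 : ℝ) ≤ M1 := Nat.cast_nonneg M1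
        linarith [Real.exp_pos (C : ℝ)]
      · exact Real.log_le_log (by exact_mod_cast h0') (not_lt.1 hcon)
    have h2 := pow_le_pow_left₀ hlM0 h1 A
    linarith
  have hMM : M1 ≤ M := by
    have h1 : (M1 : ℝ) ≤ M := by linarith [Real.exp_pos (C : ℝ)]
    exact_mod_cast h1
  have hM0 : (0 : ℝ) < M := by
    have h1 : (0 : ℝ) ≤ M1 := Nat.cast_nonneg M1
    linarith [Real.exp_pos (C : ℝ)]
  have hClM : (C : ℝ) ≤ Real.log M := by
    rw [Real.le_log_iff_exp_le hM0]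
    have h1 : (0 : ℝ) ≤ M1 := Nat.cast_nonneg M1
    linarith
  have hlM1 : 1 ≤ Real.log (M : ℝ) := hC1r.trans hClM
  obtain ⟨hxx, hxs1, hlx1, hlx2, hlx3, hprime⟩ := hM1 M hMM
  generalize xs M = X at hxx hxs1 hlx1 hlx2 hlx3 hprime
  have hlX : 1 ≤ Real.log X := hlM1.trans hlx1
  have hLM : (L : ℝ) ≤ Real.log M ^ (A + 1) := by
    rw [hLC, pow_succ, mul_comm]
    push_cast
    exact mul_le_mul hyA hClM hC0.le (by positivity)
  have hlXA : (L : ℝ) ≤ Real.log X ^ (A + 1) := hLM.trans (pow_le_pow_left₀ hlM0 hlx1 (A + 1))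
  obtain ⟨V, hV⟩ : ∃ V : ℝ, V = Real.log M ^ k := ⟨_, rfl⟩
  obtain ⟨Thr, hThr⟩ : ∃ Thr : ℝ, Thr = d * M := ⟨_, rfl⟩
  have hV0 : 0 < V := by rw [hV]; positivity
  have hThr0 : 0 ≤ Thr := by rw [hThr]; positivity
  have hThr2 : d * min 1 ((z : ℝ) / Real.log M) ^ D * M ≤ Thr := by
    rw [hThr]
    have h3 : min 1 ((z : ℝ) / Real.log M) ^ D ≤ 1 :=
      pow_le_one₀ (le_min zero_le_one (div_nonneg (Nat.cast_nonneg _) hlM0)) (min_le_left _ _)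
    calc d * min 1 ((z : ℝ) / Real.log M) ^ D * M ≤ d * 1 * M := by gcongr
      _ = d * M := by ring
  by_contra hcon0
  push Not at hcon0
  obtain ⟨𝓗, h𝓗1, h𝓗2⟩ := hconf z (by omega) (BadS (fun a : Fin k → ℕ => Gm W₀ s₀ χ D d M z a) z R mm)
    (fun a ha i => by
      rw [mem_BadS] at ha
      exact (mem_Icc.1 (ha.1 i)).2) hcon0.le
  rw [← hL] at h𝓗1 h𝓗2
  have hcount := hxx L hLH0 hlXA 𝓗
    (fun v hv => ⟨(h𝓗2 v hv).1, fun i => by
      have h4 : Nat.gcd ρ R = 1 := hρ1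
      show Nat.gcd (v i) R = 1
      rw [← h4]
      exact Nat.ModEq.gcd_eq ((h𝓗2 v hv).2.1 i)⟩) h𝓗1 (fun N => FN W₀ s₀ χ M V Thr L N) (by
        intro N' hRN v hv hwc
        obtain ⟨hv1, hv2, hv3⟩ := h𝓗2 v hv
        obtain ⟨q, u, hu1, hu2⟩ := win_badI hm e mm hmm g χ hS W₀ s₀ R ρ hR hWR hρ2 D d M z V Thr hV.le hThr2 N'
          hRN v hv2 hv3 hwc
        refine ⟨u, ?_, fun j => (hu2 j).1⟩
        unfold FN
        rw [mem_filter, Fintype.mem_piFinset]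
        refine ⟨fun j => ?_, hu1, q, fun j => (hu2 j).2⟩
        obtain ⟨i', hi'⟩ := (hu2 j).1
        rw [mem_range, ← hi']
        exact Nat.lt_succ_iff.2 ((mem_IJ.1 hv1).1 i')) (by
        intro N' u hu
        unfold FN at hu
        rw [mem_filter, Fintype.mem_piFinset] at hu
        obtain ⟨h1, h2, q, h3⟩ := hu
        exact ⟨(bad_mono W₀ s₀ χ M V Thr _ u h2).injective,
          fun j => ⟨Nat.lt_succ_iff.1 (mem_range.1 (h1 j)), (h3 j).1⟩⟩)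
  have hub := sum_FN (k := k) W₀ s₀ χ M V Thr hV0 hThr0 L (range (⌊T * X⌋₊ + 1)) (by
    intro N' hN' u hu hp
    refine hprime _ hp ?_
    rw [mem_range, Nat.lt_succ_iff] at hN'
    have h1 : (N' : ℝ) ≤ T * X := (Nat.le_floor_iff (by positivity)).1 hN'
    have h2 : (u : ℝ) ≤ L := by exact_mod_cast hu
    push_cast
    linarith)
  -- comparison
  have h1 : V * (δ * (min 1 (L / Real.log X)) ^ (2 * (m * s)) * (L / Real.log X) ^ (k + 1) * X) ≤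
      r * ((L : ℝ) + 1) ^ (k + 1) * Thr := (mul_le_mul_of_nonneg_left hcount hV0.le).trans hub
  have hlX0 : 0 < Real.log X := by linarith
  have h2 : c1 ≤ min 1 (L / Real.log X) := by
    rw [hc1]
    refine min_le_min le_rfl ?_
    rw [le_div_iff₀ hlX0]
    have h4 : c₀ / 2 * Real.log X ≤ c₀ / 2 * (2 * Real.log M) := mul_le_mul_of_nonneg_left hlx2 (by positivity)
    linarith
  have h3 : (L : ℝ) ^ (k + 1) * M * (κ / 2 ^ (k + 1)) ≤ V * ((L / Real.log X) ^ (k + 1) * X) := by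
    have h4 : (L / (2 * Real.log M)) ^ (k + 1) ≤ (L / Real.log X) ^ (k + 1) := by
      refine pow_le_pow_left₀ (by positivity) ?_ _
      exact div_le_div_of_nonneg_left (by linarith) hlX0 hlx2
    have h5 : (L / (2 * Real.log M)) ^ (k + 1) * (κ * (M * Real.log M)) ≤ (L / Real.log X) ^ (k + 1) * X :=
      mul_le_mul h4 hlx3 (by positivity) (by positivity)
    have h6 := mul_le_mul_of_nonneg_left h5 hV0.le
    refine le_trans (le_of_eq ?_) h6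
    have h7 : Real.log (M : ℝ) ≠ 0 := by
      have : 0 < Real.log (M : ℝ) := by linarith
      exact this.ne'
    rw [hV, div_pow, mul_pow, pow_succ (Real.log (M : ℝ)) k]
    field_simp
  have h4 : ((L : ℝ) + 1) ^ (k + 1) ≤ 2 ^ (k + 1) * (L : ℝ) ^ (k + 1) := by
    rw [← mul_pow]
    exact pow_le_pow_left₀ (by positivity) (by linarith) _
  have h5 : δ * c1 ^ (2 * (m * s)) * ((L : ℝ) ^ (k + 1) * M * (κ / 2 ^ (k + 1))) ≤
      r * (2 ^ (k + 1) * (L : ℝ) ^ (k + 1)) * Thr := by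
    calc δ * c1 ^ (2 * (m * s)) * ((L : ℝ) ^ (k + 1) * M * (κ / 2 ^ (k + 1)))
        ≤ δ * (min 1 (L / Real.log X)) ^ (2 * (m * s)) * (V * ((L / Real.log X) ^ (k + 1) * X)) := by
          refine mul_le_mul ?_ h3 (by positivity) (by positivity)
          exact mul_le_mul_of_nonneg_left (pow_le_pow_left₀ hc10.le h2 _) hδ.le
      _ = V * (δ * (min 1 (L / Real.log X)) ^ (2 * (m * s)) * (L / Real.log X) ^ (k + 1) * X) := by ring
      _ ≤ r * ((L : ℝ) + 1) ^ (k + 1) * Thr := h1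
      _ ≤ r * (2 ^ (k + 1) * (L : ℝ) ^ (k + 1)) * Thr := by gcongr
  have h6 : δ * c1 ^ (2 * (m * s)) * ((L : ℝ) ^ (k + 1) * M * (κ / 2 ^ (k + 1))) =
      δ' * ((L : ℝ) ^ (k + 1) * M) := by rw [hδ']; ring
  have h7 : r * (2 ^ (k + 1) * (L : ℝ) ^ (k + 1)) * Thr = δ' * ((L : ℝ) ^ (k + 1) * M) / 2 := by
    rw [hThr, hd]
    field_simp
  have h8 : 0 < δ' * ((L : ℝ) ^ (k + 1) * M) := by positivity
  rw [h6, h7] at h5
  linarith

end Pool.Agent.H34.EQ
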