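import Pool.Agent.H34.EQ.Cfg
import Pool.Agent.H62.EX.Bx

/-!
# [H34 EQ PLS] Bounded dilations at every scale

`HasSys k`: for every density there is a finite linear system of points and lines (for instance the words over `k + 1` letters, by
the density Hales-Jewett theorem).  `plus`: then for all `k`, `r` there is `D` such that for all `W`, `s₀`, `A` there is `m₀` such that
for every `ε` at EVERY scale `z₀ ≤ z ≤ (log M) ^ A` all but `ε z ^ k` of the increasing tuples up to `z` have a good multiple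
`m a`, `m ≤ m₀`.
-/

set_option autoImplicit false

namespace Pool.Agent.H34.EQ

open Finset Filter Pool.Agent.H61.UN Pool.Agent.H34.RR Pool.Agent.H62.EX

/-- finite linear systems with the density property -/
def HasSys (k : ℕ) : Prop := ∀ δ : ℝ, 0 < δ → ∃ (n : ℕ) (W ι : Type) (_ : Fintype W) (_ : DecidableEq W) (_ : Nonempty W)
    (_ : Fintype ι) (e : ι → Fin (k + 1) → W) (N : W → Fin k → ℕ) (mm : ι → ℕ), (∀ w i, N w i ≤ n) ∧ (∀ l, 1 ≤ mm l) ∧
    (∀ l, mm l ≤ n) ∧ (∀ l (i j : Fin k), N (e l i.succ) j = N (e l 0) j + if i = j then mm l else 0) ∧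
    (∀ l, Function.Injective (e l)) ∧
    (∀ l l', l ≠ l' → ∀ i j i' j', e l i = e l' i' → e l j = e l' j' → i = j) ∧ (∀ w, ∃ l i, e l i = w) ∧
    ∀ S : Finset W, δ * Fintype.card W ≤ S.card → ∃ l, ∀ i, e l i ∈ S

open Classical in
/-- a line of primes of one colour -/
theorem win_sys {W ι : Type} [Fintype W] {k r m s : ℕ} (hm : 1 ≤ m) (e : ι → Fin (k + 1) → W)
    (g : Fin m ≃ W) (χ : ℕ → Fin r)
    (hS : ∀ S : Finset W, 1 / (100 * (r : ℝ)) * Fintype.card W ≤ S.card → ∃ l, ∀ i, e l i ∈ S)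
    (N : ℕ) (v : Fin m × Fin s → ℕ) (h1 : 1 < wc (fun _ : Fin m => 100 / (m : ℝ)) v N) :
    ∃ (q : Fin r) (l : ι) (t : Fin (k + 1) → Fin s), ∀ i, (N + v (g.symm (e l i), t i)).Prime ∧
      χ (N + v (g.symm (e l i), t i)) = q := by
  have hr : 0 < r := (χ 0).pos
  have hr0 : (0 : ℝ) < r := by exact_mod_cast hr
  have hm0 : (0 : ℝ) < m := by exact_mod_cast hm
  have hcW : (Fintype.card W : ℝ) = m := by
    rw [← Fintype.card_congr g, Fintype.card_fin]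
  obtain ⟨Sq, hSq⟩ : ∃ Sq : Fin r → Finset W, Sq = fun q => univ.filter (fun w => ∃ l : Fin s,
    (N + v (g.symm w, l)).Prime ∧ χ (N + v (g.symm w, l)) = q) := ⟨_, rfl⟩
  have h2 : (m : ℝ) / 100 < ∑ q : Fin r, ((Sq q).card : ℝ) := by
    have h3 : wc (fun _ : Fin m => 100 / (m : ℝ)) v N =
        ((univ.filter (fun d : Fin m => ∃! l : Fin s, (N + v (d, l)).Prime)).card : ℝ) * (100 / m) := by
      unfold wc
      rw [← sum_filter, sum_const, nsmul_eq_mul]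
    rw [h3] at h1
    have h4 : (univ.filter (fun d : Fin m => ∃! l : Fin s, (N + v (d, l)).Prime)).card ≤ ∑ q : Fin r, (Sq q).card := by
      refine le_trans ?_ (card_biUnion_le (s := univ) (t := Sq))
      refine card_le_card_of_injOn (fun d => g d) ?_ ?_
      · intro d hd
        rw [mem_coe, mem_filter] at hd
        obtain ⟨l, hl, -⟩ := hd.2
        rw [mem_coe, mem_biUnion]
        refine ⟨χ (N + v (d, l)), mem_univ _, ?_⟩
        rw [hSq, mem_filter]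
        refine ⟨mem_univ _, l, ?_⟩
        show (N + v (g.symm (g d), l)).Prime ∧ χ (N + v (g.symm (g d), l)) = χ (N + v (d, l))
        rw [Equiv.symm_apply_apply]
        exact ⟨hl, rfl⟩
      · intro d _ d' _ h
        exact g.injective h
    have h5 : ((univ.filter (fun d : Fin m => ∃! l : Fin s, (N + v (d, l)).Prime)).card : ℝ) ≤
        ∑ q : Fin r, ((Sq q).card : ℝ) := by exact_mod_cast h4
    refine lt_of_lt_of_le ?_ h5
    rw [div_lt_iff₀ (by norm_num)]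
    have h6 : (m : ℝ) * 1 < m * (((univ.filter (fun d : Fin m => ∃! l : Fin s, (N + v (d, l)).Prime)).card : ℝ) *
        (100 / m)) := mul_lt_mul_of_pos_left h1 hm0
    have h7 : (m : ℝ) * (((univ.filter (fun d : Fin m => ∃! l : Fin s, (N + v (d, l)).Prime)).card : ℝ) *
        (100 / m)) = ((univ.filter (fun d : Fin m => ∃! l : Fin s, (N + v (d, l)).Prime)).card : ℝ) * 100 := by
      field_simp
    linarith
  obtain ⟨q, hq⟩ : ∃ q : Fin r, 1 / (100 * (r : ℝ)) * Fintype.card W ≤ (Sq q).card := by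
    by_contra hcon
    push Not at hcon
    have h3 : ∑ q : Fin r, ((Sq q).card : ℝ) ≤ ∑ _q : Fin r, 1 / (100 * (r : ℝ)) * Fintype.card W :=
      sum_le_sum fun q _ => (hcon q).le
    rw [sum_const, card_univ, Fintype.card_fin, nsmul_eq_mul, hcW] at h3
    have h4 : (r : ℝ) * (1 / (100 * r) * m) = m / 100 := by field_simp
    linarith
  obtain ⟨l, hl⟩ := hS (Sq q) hq
  have h3 : ∀ i, ∃ t : Fin s, (N + v (g.symm (e l i), t)).Prime ∧ χ (N + v (g.symm (e l i), t)) = q := by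
    intro i
    have h4 := hl i
    rw [hSq, mem_filter] at h4
    exact h4.2
  choose t ht using h3
  exact ⟨q, l, t, ht⟩

open Classical in
/-- the configurations as a set for the sieve -/
theorem conf_fin {W ι : Type} [Fintype W] [DecidableEq W] [Nonempty W] [Fintype ι] {k : ℕ} (n : ℕ)
    (e : ι → Fin (k + 1) → W) (N : W → Fin k → ℕ) (mm : ι → ℕ) (hN : ∀ w i, N w i ≤ n) (hmm : ∀ l, 1 ≤ mm l)
    (hpt : ∀ l (i j : Fin k), N (e l i.succ) j = N (e l 0) j + if i = j then mm l else 0)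
    (hinj : ∀ l, Function.Injective (e l))
    (hlin : ∀ l l', l ≠ l' → ∀ i j i' j', e l i = e l' i' → e l j = e l' j' → i = j) (hcov : ∀ w, ∃ l i, e l i = w)
    {m : ℕ} (g : Fin m ≃ W) (s R ρ : ℕ) (hs : 1 ≤ s) (hR : 0 < R) (ε : ℝ) (hε : 0 < ε) :
    ∃ (c : ℝ) (L0 : ℕ), 0 < c ∧ ∀ z : ℕ, L0 ≤ z → ∀ B : Finset (Fin k → ℕ), (∀ a ∈ B, ∀ i, a i ≤ z) →
      ε * (z : ℝ) ^ k ≤ B.card → ∃ 𝓗 : Finset (Fin m × Fin s → ℕ),
        c * ((R * ((n * k + 1) * z) : ℕ) : ℝ) ^ (m * s) ≤ 𝓗.card ∧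
        ∀ v ∈ 𝓗, v ∈ IJ (Fin m × Fin s) (R * ((n * k + 1) * z)) ∧ (∀ p, v p ≡ ρ [MOD R]) ∧
          ∀ l, ∀ t : Fin (k + 1) → Fin s, ∃ b ∈ B, ∀ i : Fin k,
            v (g.symm (e l i.succ), t i.succ) = v (g.symm (e l 0), t 0) + R * mm l * b i := by
  obtain ⟨c, L0, hc, h⟩ := conf_sys n e N mm hN hmm hpt hinj hlin hcov s R ρ hs hR ε hε
  refine ⟨c, L0, hc, fun z hz B hB1 hB2 => ?_⟩
  obtain ⟨𝓗, h1, h2⟩ := h z hz B hB1 hB2
  have hcW : Fintype.card W = m := by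
    rw [← Fintype.card_congr g, Fintype.card_fin]
  have hinj2 : Function.Injective (fun (v : W × Fin s → ℕ) (p : Fin m × Fin s) => v (g p.1, p.2)) := by
    intro v v' h
    funext p
    have h3 := congrFun h (g.symm p.1, p.2)
    have h4 : v (g (g.symm p.1), p.2) = v' (g (g.symm p.1), p.2) := h3
    rw [Equiv.apply_symm_apply] at h4
    exact h4
  refine ⟨𝓗.image (fun v p => v (g p.1, p.2)), ?_, fun v hv => ?_⟩
  · rw [card_image_of_injective _ hinj2, ← hcW]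
    exact h1
  · obtain ⟨u, hu, rfl⟩ := mem_image.1 hv
    obtain ⟨h3, h4, h5, h6⟩ := h2 u hu
    refine ⟨mem_IJ.2 ⟨fun p => h4 _, fun p p' hp => ?_⟩, fun p => h5 _, fun l t => ?_⟩
    · have h7 := h3 hp
      rw [Prod.mk.injEq] at h7
      exact Prod.ext (g.injective h7.1) h7.2
    · obtain ⟨b, hb, h7⟩ := h6 l t
      refine ⟨b, hb, fun i => ?_⟩
      show u (g (g.symm (e l i.succ)), t i.succ) = u (g (g.symm (e l 0)), t 0) + R * mm l * b i
      rw [Equiv.apply_symm_apply, Equiv.apply_symm_apply]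
      exact h7 i

open Classical in
/-- good tuples -/
def Gm {k r : ℕ} (W s₀ : ℕ) (χ : ℕ → Fin r) (D : ℕ) (d : ℝ) (M : ℕ) (L : ℝ) (a : Fin k → ℕ) : Prop :=
  ∃ q : Fin r, d * min 1 (L / Real.log M) ^ D * M ≤ Real.log M ^ k *
    ({n : ℕ | n < M ∧ Pat W s₀ χ q (∅ : Finset (Fin k)) (Fin.cons 0 a : Fin (k + 1) → ℕ) (Nat.nth Nat.Prime n)}.ncard : ℝ)

/-- multiples of tuples without good multiple are bad -/
theorem bad_mul {k r : ℕ} (W s₀ : ℕ) (χ : ℕ → Fin r) (D : ℕ) (d : ℝ) (M z m₀ : ℕ) (V Thr : ℝ)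
    (hV : V ≤ Real.log M ^ k) (hThr : d * min 1 ((z : ℝ) / Real.log M) ^ D * M ≤ Thr) (b : Fin k → ℕ)
    (hb : b ∈ BadDil (fun a => Gm W s₀ χ D d M z a) z m₀) (m : ℕ) (hm1 : 1 ≤ m) (hm : m ≤ m₀) :
    (fun j => ((m * b j : ℕ) : ℤ)) ∈ Bad0 W s₀ χ M V Thr := by
  classical
  unfold BadDil at hb
  rw [mem_filter, Fintype.mem_piFinset] at hb
  obtain ⟨hb1, hb2, hb3⟩ := hb
  have hm0 : (0 : ℤ) < m := by exact_mod_cast hm1
  refine ⟨?_, fun q => ?_⟩
  · intro i i' hii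
    refine Fin.cases (fun hii => ?_) (fun j hii => ?_) i hii
    · obtain ⟨j', rfl⟩ := Fin.exists_succ_eq.2 (Fin.pos_iff_ne_zero.1 hii)
      rw [Fin.cons_zero, Fin.cons_succ]
      have : 0 < m * b j' := Nat.mul_pos hm1 (mem_Icc.1 (hb1 j')).1
      exact_mod_cast this
    · have hne : i' ≠ 0 := by
        rintro rfl
        exact absurd hii (by simp)
      obtain ⟨j', rfl⟩ := Fin.exists_succ_eq.2 hne
      rw [Fin.cons_succ, Fin.cons_succ]
      have h1 : b j < b j' := hb2 (Fin.succ_lt_succ_iff.1 hii)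
      have h2 : m * b j < m * b j' := Nat.mul_lt_mul_of_pos_left h1 hm1
      exact_mod_cast h2
  · by_contra hcon
    apply hb3
    refine ⟨m, hm1, hm, q, ?_⟩
    have h1 : (fun j => ((Fin.cons 0 (fun j => ((m * b j : ℕ) : ℤ)) : Fin (k + 1) → ℤ) j).toNat) =
        (Fin.cons 0 (fun j => m * b j) : Fin (k + 1) → ℕ) := by
      funext i
      refine Fin.cases ?_ (fun j => ?_) i
      · simp
      · rw [Fin.cons_succ, Fin.cons_succ, Int.toNat_natCast]
    rw [h1] at hcon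
    refine hThr.trans ((not_lt.1 hcon).trans ?_)
    rw [ncard_eq]
    exact mul_le_mul_of_nonneg_right hV (Nat.cast_nonneg _)

open Classical in
/-- the bad pattern in a window -/
theorem win_bad {W ι : Type} [Fintype W] {k r m s : ℕ} (hm : 1 ≤ m) (n : ℕ) (e : ι → Fin (k + 1) → W) (mm : ι → ℕ)
    (hmm : ∀ l, 1 ≤ mm l) (hmn : ∀ l, mm l ≤ n) (g : Fin m ≃ W) (χ : ℕ → Fin r)
    (hS : ∀ S : Finset W, 1 / (100 * (r : ℝ)) * Fintype.card W ≤ S.card → ∃ l, ∀ i, e l i ∈ S)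
    (W₀ s₀ R ρ : ℕ) (hR : 0 < R) (hWR : W₀ ∣ R) (hρ : ρ ≡ s₀ [MOD W₀]) (D : ℕ) (d : ℝ) (M z : ℕ) (V Thr : ℝ)
    (hV : V ≤ Real.log M ^ k) (hThr : d * min 1 ((z : ℝ) / Real.log M) ^ D * M ≤ Thr)
    (N : ℕ) (hRN : R ∣ N) (v : Fin m × Fin s → ℕ) (hvρ : ∀ p, v p ≡ ρ [MOD R])
    (hv : ∀ l, ∀ t : Fin (k + 1) → Fin s, ∃ b ∈ BadDil (fun a : Fin k → ℕ => Gm W₀ s₀ χ D d M z a) z (R * n),
      ∀ i : Fin k, v (g.symm (e l i.succ), t i.succ) = v (g.symm (e l 0), t 0) + R * mm l * b i)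
    (h1 : 1 < wc (fun _ : Fin m => 100 / (m : ℝ)) v N) :
    ∃ (q : Fin r) (u : Fin (k + 1) → ℕ), df u ∈ Bad0 W₀ s₀ χ M V Thr ∧ ∀ i, (∃ i', v i' = u i) ∧ (N + u i).Prime ∧
      χ (N + u i) = q ∧ N + u i ≡ s₀ [MOD W₀] := by
  obtain ⟨q, l, t, hq⟩ := win_sys hm e g χ hS N v h1
  obtain ⟨b, hb, hvb⟩ := hv l t
  refine ⟨q, fun i => v (g.symm (e l i), t i), ?_, fun i => ⟨⟨_, rfl⟩, (hq i).1, (hq i).2, ?_⟩⟩
  · have h2 : df (fun i => v (g.symm (e l i), t i)) = fun j => ((R * mm l * b j : ℕ) : ℤ) := by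
      funext j
      show ((v (g.symm (e l j.succ), t j.succ) : ℕ) : ℤ) - ((v (g.symm (e l 0), t 0) : ℕ) : ℤ) = _
      rw [hvb]
      push_cast
      ring
    rw [h2]
    exact bad_mul W₀ s₀ χ D d M z (R * n) V Thr hV hThr b hb (R * mm l) (Nat.mul_pos hR (hmm l))
      (Nat.mul_le_mul_left R (hmn l))
  · have h4 : N ≡ 0 [MOD W₀] := Nat.modEq_zero_iff_dvd.2 (hWR.trans hRN)
    have h5 := h4.add ((hvρ (g.symm (e l i), t i)).of_dvd hWR)
    rw [Nat.zero_add] at h5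
    exact h5.trans hρ

end Pool.Agent.H34.EQ
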