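import Pool.Agent.H34.EQ.Pls

/-!
# [H34 EQ PLT] Bounded dilations at every scale: the two ranges
-/

set_option autoImplicit false

namespace Pool.Agent.H34.EQ

open Finset Filter Pool.Agent.H61.UN Pool.Agent.H34.RR Pool.Agent.H62.EX

theorem baddil_mono {k : ℕ} {P P' : (Fin k → ℕ) → Prop} (h : ∀ a, P a → P' a) {z m₀ m₁ : ℕ} (hm : m₀ ≤ m₁) :
    (BadDil P' z m₁).card ≤ (BadDil P z m₀).card := by
  classical
  refine card_le_card fun a ha => ?_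
  unfold BadDil at ha ⊢
  rw [mem_filter] at ha ⊢
  refine ⟨ha.1, ha.2.1, fun h1 => ha.2.2 ?_⟩
  obtain ⟨m, h2, h3, h4⟩ := h1
  exact ⟨m, h2, h3.trans hm, h _ h4⟩

open Classical in
/-- windows shorter than `c log M` -/
theorem plusS {W ι : Type} [Fintype W] [DecidableEq W] [Nonempty W] [Fintype ι] {k r m : ℕ} (hr : 0 < r) (hm : 1 ≤ m) (n : ℕ)
    (e : ι → Fin (k + 1) → W) (N : W → Fin k → ℕ) (mm : ι → ℕ) (hN : ∀ w i, N w i ≤ n) (hmm : ∀ l, 1 ≤ mm l)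
    (hmn : ∀ l, mm l ≤ n)
    (hpt : ∀ l (i j : Fin k), N (e l i.succ) j = N (e l 0) j + if i = j then mm l else 0)
    (hinj : ∀ l, Function.Injective (e l))
    (hlin : ∀ l l', l ≠ l' → ∀ i j i' j', e l i = e l' i' → e l j = e l' j' → i = j) (hcov : ∀ w, ∃ l i, e l i = w)
    (hS : ∀ S : Finset W, 1 / (100 * (r : ℝ)) * Fintype.card W ≤ S.card → ∃ l, ∀ i, e l i ∈ S) (g : Fin m ≃ W) :
    ∃ s wd : ℕ, ∀ W₀ s₀ : ℕ, 0 < W₀ → Nat.Coprime s₀ W₀ → ∀ ε : ℝ, 0 < ε → ∃ (z₀ : ℕ) (c d : ℝ), 0 < c ∧ 0 < d ∧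
      ∀ (χ : ℕ → Fin r) (M z : ℕ), z₀ ≤ z → (z : ℝ) ≤ c * Real.log M →
        ((BadDil (fun a : Fin k → ℕ => Gm W₀ s₀ χ (m * s) d M z a) z (W₀ * primorial wd * n)).card : ℝ) ≤ ε * (z : ℝ) ^ k := by
  have hr0 : (0 : ℝ) < r := by exact_mod_cast hr
  have hm0 : (0 : ℝ) < m := by exact_mod_cast hm
  obtain ⟨s, wd, hs, hsv⟩ := sieveE m hm
  refine ⟨s, wd, fun W₀ s₀ hW₀ hs₀ ε hε => ?_⟩
  obtain ⟨R, hRd⟩ : ∃ R : ℕ, R = W₀ * primorial wd := ⟨_, rfl⟩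
  have hR : 0 < R := by rw [hRd]; exact Nat.mul_pos hW₀ (primorial_pos wd)
  have hRw : primorial wd ∣ R := by rw [hRd]; exact Dvd.intro_left _ rfl
  have hWR : W₀ ∣ R := by rw [hRd]; exact Dvd.intro _ rfl
  rw [← hRd]
  obtain ⟨ρ, hρ1, hρ2⟩ := exists_class W₀ s₀ R hW₀ hs₀ hR
  obtain ⟨c, L0, hc, hconf⟩ := conf_fin n e N mm hN hmm hpt hinj hlin hcov g s R ρ hs hR ε hε
  obtain ⟨C, hC⟩ : ∃ C : ℕ, C = R * (n * k + 1) := ⟨_, rfl⟩
  have hC1 : 1 ≤ C := by rw [hC]; exact Nat.mul_pos hR (Nat.succ_pos _)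
  have hC0 : (0 : ℝ) < C := by exact_mod_cast hC1
  have hC1r : (1 : ℝ) ≤ C := by exact_mod_cast hC1
  obtain ⟨lam, δ, θ, T, H0, hlam, hlam1, hδ, hθ, hT, hH0, hx⟩ := hsv (fun _ => 100 / (m : ℝ)) (fun _ => by positivity)
    (by
      rw [sum_const, card_univ, Fintype.card_fin, nsmul_eq_mul]
      exact le_of_eq (by field_simp)) R hR hRw c hc
  obtain ⟨d0, xs, hd0, hxs, hwin⟩ := Pool.Agent.H62.AU.winU T hT
  have hev := (hxs.eventually hx).and ((hxs.eventually_gt_atTop 1).and hwin)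
  obtain ⟨M1, hM1⟩ := eventually_atTop.1 hev
  obtain ⟨Kc, hKc⟩ : ∃ Kc : ℝ, Kc = (Fintype.card (Lab k) + 1) * r * 2 ^ k := ⟨_, rfl⟩
  have hKc0 : 0 < Kc := by rw [hKc]; positivity
  obtain ⟨d, hd⟩ : ∃ d : ℝ, d = d0 * (δ * (1 / 2) ^ (m * s)) / (2 * Kc) := ⟨_, rfl⟩
  have hd1 : 0 < d := by rw [hd]; positivity
  refine ⟨L0 + ⌈H0⌉₊ + ⌈Real.log ((M1 : ℝ) + 1)⌉₊ + 1, lam / C, d, by positivity, hd1, fun χ M z hz hzM => ?_⟩
  obtain ⟨L, hL⟩ : ∃ L : ℕ, L = R * ((n * k + 1) * z) := ⟨_, rfl⟩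
  have hLC : L = C * z := by rw [hL, hC, Nat.mul_assoc]
  have hzL : z ≤ L := by
    rw [hLC]
    exact Nat.le_mul_of_pos_left z hC1
  have hzLr : (z : ℝ) ≤ L := by exact_mod_cast hzL
  have hLLM : (L : ℝ) ≤ lam * Real.log M := by
    rw [hLC]
    push_cast
    have h1 : (C : ℝ) * z ≤ C * (lam / C * Real.log M) := mul_le_mul_of_nonneg_left hzM hC0.le
    refine h1.trans (le_of_eq ?_)
    field_simp
  obtain ⟨t, ht1⟩ : ∃ t, t = (L : ℝ) / Real.log M := ⟨_, rfl⟩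
  have hLH0 : H0 ≤ L := by
    have h1 : (⌈H0⌉₊ : ℝ) ≤ L := by
      have : ⌈H0⌉₊ ≤ L := by omega
      exact_mod_cast this
    exact (Nat.le_ceil _).trans h1
  have hL1 : (1 : ℝ) ≤ L := hH0.trans hLH0
  have hL0 : (0 : ℝ) < L := by linarith
  have hlM0 : 0 ≤ Real.log (M : ℝ) := Real.log_natCast_nonneg M
  have hlM : (L : ℝ) ≤ Real.log M := hLLM.trans (by nlinarith)
  have hlM1 : 0 < Real.log (M : ℝ) := hL0.trans_le hlM
  have ht0 : 0 < t := by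
    rw [ht1]
    exact div_pos hL0 hlM1
  have ht : t ≤ 1 := by
    rw [ht1, div_le_one hlM1]
    exact hlM
  have hy : (L : ℝ) = t * Real.log M := by
    rw [ht1, div_mul_cancel₀ _ hlM1.ne']
  have hM0 : (0 : ℝ) < M := by
    by_contra hc2
    have h2 : (M : ℝ) = 0 := le_antisymm (not_lt.1 hc2) (Nat.cast_nonneg M)
    rw [h2, Real.log_zero] at hlM
    linarith
  have hMM : M1 ≤ M := by
    have h0 : Real.log ((M1 : ℝ) + 1) ≤ L := by
      have h1 : (⌈Real.log ((M1 : ℝ) + 1)⌉₊ : ℝ) ≤ L := by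
        have : ⌈Real.log ((M1 : ℝ) + 1)⌉₊ ≤ L := by omega
        exact_mod_cast this
      exact (Nat.le_ceil _).trans h1
    have h1 : Real.log ((M1 : ℝ) + 1) ≤ Real.log M := h0.trans hlM
    have h2 : (M1 : ℝ) + 1 ≤ M := (Real.log_le_log_iff (by positivity) hM0).1 h1
    have h3 : ((M1 + 1 : ℕ) : ℝ) ≤ M := by
      push_cast
      exact h2
    have h4 : M1 + 1 ≤ M := by exact_mod_cast h3
    omega
  obtain ⟨hxx, hxs1, hlx1, hlx2, hwin⟩ := hM1 M hMM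
  generalize xs M = X at hxx hxs1 hlx1 hlx2 hwin
  have hlX : 0 < Real.log X := by linarith
  obtain ⟨V, hV⟩ : ∃ V : ℝ, V = (L : ℝ) ^ k := ⟨_, rfl⟩
  obtain ⟨Thr, hThr⟩ : ∃ Thr : ℝ, Thr = d * t ^ (m * s) * M := ⟨_, rfl⟩
  have hV0 : 0 < V := by rw [hV]; positivity
  have hThr0 : 0 ≤ Thr := by rw [hThr]; positivity
  have hVM : V ≤ Real.log M ^ k := by
    rw [hV]
    exact pow_le_pow_left₀ hL0.le hlM k
  have hThr2 : d * min 1 ((z : ℝ) / Real.log M) ^ (m * s) * M ≤ Thr := by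
    rw [hThr]
    have h1 : 0 ≤ (z : ℝ) / Real.log M := div_nonneg (Nat.cast_nonneg _) hlM0
    have h2 : min 1 ((z : ℝ) / Real.log M) ≤ t := by
      refine (min_le_right _ _).trans ?_
      rw [ht1]
      exact div_le_div_of_nonneg_right hzLr hlM0
    refine mul_le_mul_of_nonneg_right (mul_le_mul_of_nonneg_left ?_ hd1.le) hM0.le
    exact pow_le_pow_left₀ (le_min zero_le_one h1) h2 _
  by_contra hcon0
  push Not at hcon0
  obtain ⟨𝓗, h𝓗1, h𝓗2⟩ := hconf z (by omega) (BadDil (fun a : Fin k → ℕ => Gm W₀ s₀ χ (m * s) d M z a) z (R * n))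
    (fun a ha i => by
      unfold BadDil at ha
      rw [mem_filter, Fintype.mem_piFinset] at ha
      exact (mem_Icc.1 (ha.1 i)).2) hcon0.le
  rw [← hL] at h𝓗1 h𝓗2
  have hcount := hxx L hLH0 (hLLM.trans (mul_le_mul_of_nonneg_left hlx1 hlam.le)) 𝓗
    (fun v hv => ⟨(h𝓗2 v hv).1, fun i => by
      have h4 : Nat.gcd ρ R = 1 := hρ1
      show Nat.gcd (v i) R = 1
      rw [← h4]
      exact Nat.ModEq.gcd_eq ((h𝓗2 v hv).2.1 i)⟩) h𝓗1
  obtain ⟨P, hP⟩ : ∃ P : ℕ → Prop, P = fun n => ∃ (a : Lab k) (q : Fin r) (u : Fin k → ℕ), (∀ j, u j ≤ L) ∧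
      (fun j => (u j : ℤ)) ∈ Bad W₀ s₀ χ M V Thr a ∧
      Pat W₀ s₀ χ q a.1 (Fin.cons 0 u : Fin (k + 1) → ℕ) (Nat.nth Nat.Prime n) := ⟨_, rfl⟩
  have hfin := hwin P (δ * (L / Real.log X) ^ (m * s)) _ (by positivity) hcount (by
    intro N' hN'
    rw [mem_filter, mem_range, Nat.lt_succ_iff] at hN'
    obtain ⟨h1, h2, h3, v, hv, hwc, hpr⟩ := hN'
    have hX0 : 0 < X := by linarith
    refine ⟨(Nat.le_floor_iff (by positivity)).1 h1, ?_⟩
    obtain ⟨hv1, hv2, hv3⟩ := h𝓗2 v hv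
    obtain ⟨q, u, hu1, hu2⟩ := win_bad hm n e mm hmm hmn g χ hS W₀ s₀ R ρ hR hWR hρ2 (m * s) d M z V Thr hVM hThr2 N' h3 v
      hv2 hv3 hwc
    have huL : ∀ i, u i ≤ L := fun i => by
      obtain ⟨i', hi'⟩ := (hu2 i).1
      rw [← hi']
      exact (mem_IJ.1 hv1).1 i'
    have hzm := bad_mono W₀ s₀ χ M V Thr _ u hu1
    have hz0 : ∀ i, u 0 ≤ u i := fun i => hzm.monotone (Fin.zero_le i)
    obtain ⟨n', hn⟩ := exists_nth (hu2 0).2.1
    refine ⟨n', ?_, ?_, ?_⟩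
    · rw [hP]
      refine ⟨⟨∅, fun i hi => absurd hi (notMem_empty i)⟩, q, fun j => u j.succ - u 0,
        fun j => (Nat.sub_le _ _).trans (huL _), ?_, ?_, fun i hi => absurd hi (notMem_empty i)⟩
      · have h4 : (fun j : Fin k => ((u j.succ - u 0 : ℕ) : ℤ)) = df u := by
          funext j
          rw [df, Nat.cast_sub (hz0 _)]
        rw [h4]
        exact hu1
      · intro j
        rw [hn]
        have h4 : N' + u 0 + (Fin.cons 0 (fun j : Fin k => u j.succ - u 0) : Fin (k + 1) → ℕ) j = N' + u j := by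
          refine Fin.cases ?_ (fun j => ?_) j
          · simp
          · rw [Fin.cons_succ]
            have := hz0 j.succ
            omega
        rw [h4]
        exact (hu2 j).2
    · rw [hn]
      exact Nat.le_add_right _ _
    · rw [hn]
      push_cast
      have h4 : (u 0 : ℝ) ≤ L := by exact_mod_cast huL 0
      linarith)
  have hub := union_bd W₀ s₀ χ M L V Thr hV0 hThr0 P (by
    intro n hn
    rw [hP] at hn
    exact hn)
  -- comparison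
  have h1 : V * (d0 * (δ * (L / Real.log X) ^ (m * s)) * M) ≤
      Fintype.card (Lab k) * r * ((L : ℝ) + 1) ^ k * Thr := (mul_le_mul_of_nonneg_left hfin hV0.le).trans hub
  have h2 : ((L : ℝ) + 1) ^ k ≤ 2 ^ k * V := by
    rw [hV, ← mul_pow]
    refine pow_le_pow_left₀ (by positivity) ?_ k
    linarith
  have h3 : 1 / 2 * t ≤ L / Real.log X := by
    rw [le_div_iff₀ hlX]
    have h4 : 1 / 2 * t * Real.log X ≤ 1 / 2 * t * (2 * Real.log M) :=
      mul_le_mul_of_nonneg_left hlx2 (by positivity)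
    have h5 : 1 / 2 * t * (2 * Real.log M) = L := by rw [hy]; ring
    linarith
  have h4 : (1 / 2) ^ (m * s) * t ^ (m * s) ≤ (L / Real.log X) ^ (m * s) := by
    rw [← mul_pow]
    exact pow_le_pow_left₀ (by positivity) h3 _
  have h5 : V * (d0 * (δ * ((1 / 2) ^ (m * s) * t ^ (m * s))) * M) ≤ V * (Kc * Thr) := by
    calc V * (d0 * (δ * ((1 / 2) ^ (m * s) * t ^ (m * s))) * M)
        ≤ V * (d0 * (δ * (L / Real.log X) ^ (m * s)) * M) := by gcongr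
      _ ≤ Fintype.card (Lab k) * r * ((L : ℝ) + 1) ^ k * Thr := h1
      _ ≤ Fintype.card (Lab k) * r * (2 ^ k * V) * Thr := by gcongr
      _ ≤ (Fintype.card (Lab k) + 1) * r * (2 ^ k * V) * Thr := by
          gcongr
          linarith
      _ = V * (Kc * Thr) := by rw [hKc]; ring
  have h6 := le_of_mul_le_mul_left h5 hV0
  have h7 : Kc * Thr = d0 * (δ * ((1 / 2) ^ (m * s) * t ^ (m * s))) * M / 2 := by
    rw [hThr, hd]
    field_simp
  have h8 : 0 < d0 * (δ * ((1 / 2) ^ (m * s) * t ^ (m * s))) * M := by positivity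
  linarith

end Pool.Agent.H34.EQ
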