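import Mathlib

/-!
# [H34 EQ REG] Weak regularity for uniform hypergraphs

For functions `f l : (Fin K → X) → [0, 1]` there is ONE partition of the finite set `X` into at most `M` parts such that for
every `l` the irregular cells contain at most `ε |X| ^ K` tuples.  A cell is irregular if the average of `f l` over some
subproduct of the cell is too far from the density (in the sense of the cut norm, relative to the cell).  Energy increment.
-/

set_option autoImplicit false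

namespace Pool.Agent.H34.EQ

open Finset

/-- the cell of the partition `P` given by `a` -/
def cl {X κ : Type} [Fintype X] [DecidableEq κ] {K : ℕ} (P : X → κ) (a : Fin K → κ) : Finset (Fin K → X) :=
  univ.filter (fun x => (fun i => P (x i)) = a)

/-- the density in the cell -/
noncomputable def dn {X κ : Type} [Fintype X] [DecidableEq κ] {K : ℕ} (P : X → κ) (f : (Fin K → X) → ℝ) (a : Fin K → κ) : ℝ :=
  (∑ x ∈ cl P a, f x) / (cl P a).card

/-- irregular cells -/
def Irr {X κ : Type} [Fintype X] [DecidableEq κ] {K : ℕ} (ε : ℝ) (P : X → κ) (f : (Fin K → X) → ℝ) (a : Fin K → κ) : Prop :=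
  ∃ U : Fin K → Finset X, (∀ i, ∀ x ∈ U i, P x = a i) ∧
    ε * (cl P a).card < |∑ x ∈ Fintype.piFinset U, (f x - dn P f a)|

/-- the energy -/
noncomputable def en {X κ : Type} [Fintype X] [Fintype κ] [DecidableEq κ] {K : ℕ} (P : X → κ) (f : (Fin K → X) → ℝ) : ℝ :=
  ∑ a : Fin K → κ, (∑ x ∈ cl P a, f x) ^ 2 / (cl P a).card

theorem gain {β : Type} (B B' : Finset β) (hB : B' ⊆ B) (S n : β → ℝ) (hn : ∀ b, 0 ≤ n b) (h0 : ∀ b, n b = 0 → S b = 0) :
    (∑ b ∈ B, S b) ^ 2 / (∑ b ∈ B, n b) +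
      (∑ b ∈ B', (S b - (∑ b ∈ B, S b) / (∑ b ∈ B, n b) * n b)) ^ 2 / (∑ b ∈ B, n b) ≤ ∑ b ∈ B, S b ^ 2 / n b := by
  obtain ⟨d, hd⟩ : ∃ d, d = (∑ b ∈ B, S b) / (∑ b ∈ B, n b) := ⟨_, rfl⟩
  obtain ⟨t, ht⟩ : ∃ t, t = ∑ b ∈ B, n b := ⟨_, rfl⟩
  rw [← hd, ← ht]
  have ht0 : 0 ≤ t := ht ▸ sum_nonneg fun b _ => hn b
  have h1 : ∀ b, S b ^ 2 / n b = (S b - d * n b) ^ 2 / n b + 2 * d * S b - d ^ 2 * n b := by
    intro b
    rcases eq_or_ne (n b) 0 with h | h
    · rw [h, h0 b h]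
      simp
    · field_simp
      ring
  have h2 : ∑ b ∈ B, S b ^ 2 / n b = ∑ b ∈ B, (S b - d * n b) ^ 2 / n b + (∑ b ∈ B, S b) ^ 2 / t := by
    rw [sum_congr rfl fun b _ => h1 b, sum_sub_distrib, sum_add_distrib, ← mul_sum, ← mul_sum, ← ht]
    rcases eq_or_ne t 0 with h | h
    · have h3 : ∀ b ∈ B, n b = 0 := (sum_eq_zero_iff_of_nonneg fun b _ => hn b).1 (by rw [← ht]; exact h)
      have h4 : ∑ b ∈ B, S b = 0 := sum_eq_zero fun b hb => h0 b (h3 b hb)
      rw [h4, h]
      simp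
    · have h3 : 2 * d * ∑ b ∈ B, S b - d ^ 2 * t = (∑ b ∈ B, S b) ^ 2 / t := by
        rw [hd, ← ht]
        field_simp
        ring
      rw [← h3]
      ring
  rw [h2]
  have h3 : (∑ b ∈ B', (S b - d * n b)) ^ 2 ≤ (∑ b ∈ B', (S b - d * n b) ^ 2 / n b) * ∑ b ∈ B', n b := by
    refine sum_sq_le_sum_mul_sum_of_sq_le_mul B' (fun b _ => div_nonneg (sq_nonneg _) (hn b)) (fun b _ => hn b) ?_
    intro b _
    rcases eq_or_ne (n b) 0 with h | h
    · rw [h, h0 b h]
      simp
    · rw [div_mul_cancel₀ _ h]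
  have h4 : ∑ b ∈ B', (S b - d * n b) ^ 2 / n b ≤ ∑ b ∈ B, (S b - d * n b) ^ 2 / n b :=
    sum_le_sum_of_subset_of_nonneg hB fun b _ _ => div_nonneg (sq_nonneg _) (hn b)
  have h5 : ∑ b ∈ B', n b ≤ t := by
    rw [ht]
    exact sum_le_sum_of_subset_of_nonneg hB fun b _ _ => hn b
  have h6 : 0 ≤ ∑ b ∈ B, (S b - d * n b) ^ 2 / n b := sum_nonneg fun b _ => div_nonneg (sq_nonneg _) (hn b)
  have h7 : (∑ b ∈ B', (S b - d * n b)) ^ 2 / t ≤ ∑ b ∈ B, (S b - d * n b) ^ 2 / n b := by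
    rcases eq_or_lt_of_le ht0 with h | h
    · rw [← h, div_zero]
      exact h6
    · rw [div_le_iff₀ h]
      refine h3.trans ?_
      have h8 : 0 ≤ ∑ b ∈ B', n b := sum_nonneg fun b _ => hn b
      exact mul_le_mul h4 h5 h8 h6
  linarith

theorem cl_zero {X κ : Type} [Fintype X] [DecidableEq κ] {K : ℕ} (P : X → κ) (f : (Fin K → X) → ℝ) (a : Fin K → κ)
    (h : ((cl P a).card : ℝ) = 0) : ∑ x ∈ cl P a, f x = 0 := by
  have h1 : (cl P a).card = 0 := by exact_mod_cast h
  rw [card_eq_zero.1 h1, sum_empty]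

/-- refinement: the sum over the subcells -/
theorem sub_sum {X κ κ' : Type} [Fintype X] [DecidableEq κ] [Fintype κ'] [DecidableEq κ'] {K : ℕ} (P : X → κ) (Q : X → κ')
    (π : κ' → κ) (hπ : ∀ x, P x = π (Q x)) (a : Fin K → κ) (f : (Fin K → X) → ℝ) :
    ∑ b ∈ univ.filter (fun b : Fin K → κ' => (fun i => π (b i)) = a), ∑ x ∈ cl Q b, f x = ∑ x ∈ cl P a, f x := by
  have h1 : ∀ b ∈ univ.filter (fun b : Fin K → κ' => (fun i => π (b i)) = a),
      ∑ x ∈ cl Q b, f x = ∑ x ∈ (cl P a).filter (fun x => (fun i => Q (x i)) = b), f x := by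
    intro b hb
    rw [mem_filter] at hb
    refine sum_congr ?_ fun _ _ => rfl
    ext x
    unfold cl
    rw [mem_filter, mem_filter, mem_filter]
    refine ⟨fun h => ⟨⟨mem_univ _, ?_⟩, h.2⟩, fun h => ⟨mem_univ _, h.2⟩⟩
    rw [← hb.2, ← h.2]
    funext i
    exact hπ (x i)
  rw [sum_congr rfl h1]
  refine sum_fiberwise_of_maps_to ?_ f
  intro x hx
  unfold cl at hx
  rw [mem_filter] at hx ⊢
  refine ⟨mem_univ _, ?_⟩
  rw [← hx.2]
  funext i
  exact (hπ (x i)).symm

theorem sub_card {X κ κ' : Type} [Fintype X] [DecidableEq κ] [Fintype κ'] [DecidableEq κ'] {K : ℕ} (P : X → κ) (Q : X → κ')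
    (π : κ' → κ) (hπ : ∀ x, P x = π (Q x)) (a : Fin K → κ) :
    ∑ b ∈ univ.filter (fun b : Fin K → κ' => (fun i => π (b i)) = a), ((cl Q b).card : ℝ) = (cl P a).card := by
  have h1 := sub_sum P Q π hπ a (fun _ => (1 : ℝ))
  simpa using h1

/-- one cell -/
theorem cell_gain {X κ κ' : Type} [Fintype X] [DecidableEq κ] [Fintype κ'] [DecidableEq κ'] {K : ℕ} (P : X → κ)
    (Q : X → κ') (π : κ' → κ) (hπ : ∀ x, P x = π (Q x)) (a : Fin K → κ) (f : (Fin K → X) → ℝ) (U : Fin K → Finset X)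
    (hU : ∀ i, ∀ x ∈ U i, P x = a i) (V : Fin K → κ' → Prop) (hV : ∀ i x, V i (Q x) ↔ x ∈ U i) :
    (∑ x ∈ cl P a, f x) ^ 2 / (cl P a).card + (∑ x ∈ Fintype.piFinset U, (f x - dn P f a)) ^ 2 / (cl P a).card ≤
      ∑ b ∈ univ.filter (fun b : Fin K → κ' => (fun i => π (b i)) = a), (∑ x ∈ cl Q b, f x) ^ 2 / (cl Q b).card := by
  classical
  obtain ⟨B, hB⟩ : ∃ B, B = univ.filter (fun b : Fin K → κ' => (fun i => π (b i)) = a) := ⟨_, rfl⟩
  have h1 := gain B (B.filter (fun b => ∀ i, V i (b i))) (filter_subset _ _) (fun b => ∑ x ∈ cl Q b, f x)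
    (fun b => ((cl Q b).card : ℝ)) (fun b => Nat.cast_nonneg _) (fun b hb => cl_zero Q f b hb)
  have h2 : ∑ b ∈ B, ∑ x ∈ cl Q b, f x = ∑ x ∈ cl P a, f x := by rw [hB]; exact sub_sum P Q π hπ a f
  have h3 : ∑ b ∈ B, ((cl Q b).card : ℝ) = (cl P a).card := by rw [hB]; exact sub_card P Q π hπ a
  simp only [h2, h3] at h1
  have h4 : ∑ b ∈ B.filter (fun b => ∀ i, V i (b i)), (∑ x ∈ cl Q b, f x - dn P f a * ((cl Q b).card : ℝ)) =
      ∑ x ∈ Fintype.piFinset U, (f x - dn P f a) := by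
    have h5 : ∀ b, ∑ x ∈ cl Q b, f x - dn P f a * ((cl Q b).card : ℝ) = ∑ x ∈ cl Q b, (f x - dn P f a) := by
      intro b
      rw [sum_sub_distrib, sum_const, nsmul_eq_mul, mul_comm]
    rw [sum_congr rfl fun b _ => h5 b]
    have h6 : ∀ b ∈ B.filter (fun b => ∀ i, V i (b i)), ∑ x ∈ cl Q b, (f x - dn P f a) =
        ∑ x ∈ (Fintype.piFinset U).filter (fun x => (fun i => Q (x i)) = b), (f x - dn P f a) := by
      intro b hb
      rw [mem_filter] at hb
      refine sum_congr ?_ fun _ _ => rfl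
      ext x
      unfold cl
      rw [mem_filter, mem_filter, Fintype.mem_piFinset]
      refine ⟨fun h => ⟨fun i => ?_, h.2⟩, fun h => ⟨mem_univ _, h.2⟩⟩
      rw [← hV i (x i)]
      have h7 : Q (x i) = b i := congrFun h.2 i
      rw [h7]
      exact hb.2 i
    rw [sum_congr rfl h6]
    refine sum_fiberwise_of_maps_to ?_ _
    intro x hx
    rw [Fintype.mem_piFinset] at hx
    rw [mem_filter, hB, mem_filter]
    refine ⟨⟨mem_univ _, ?_⟩, fun i => (hV i (x i)).2 (hx i)⟩
    funext i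
    show π (Q (x i)) = a i
    rw [← hπ]
    exact hU i (x i) (hx i)
  rw [← hB]
  unfold dn at h4 ⊢
  rw [← h4]
  exact h1

theorem cell_mono {X κ κ' : Type} [Fintype X] [DecidableEq κ] [Fintype κ'] [DecidableEq κ'] {K : ℕ} (P : X → κ)
    (Q : X → κ') (π : κ' → κ) (hπ : ∀ x, P x = π (Q x)) (a : Fin K → κ) (f : (Fin K → X) → ℝ) :
    (∑ x ∈ cl P a, f x) ^ 2 / (cl P a).card ≤
      ∑ b ∈ univ.filter (fun b : Fin K → κ' => (fun i => π (b i)) = a), (∑ x ∈ cl Q b, f x) ^ 2 / (cl Q b).card := by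
  have h1 := cell_gain P Q π hπ a f (fun _ => ∅) (fun i x hx => absurd hx (notMem_empty x)) (fun _ _ => False)
    (fun i x => ⟨fun h => h.elim, fun h => absurd h (notMem_empty x)⟩)
  have h2 : 0 ≤ (∑ x ∈ Fintype.piFinset (fun _ : Fin K => (∅ : Finset X)), (f x - dn P f a)) ^ 2 / ((cl P a).card : ℝ) := by
    positivity
  linarith

theorem en_split {X κ κ' : Type} [Fintype X] [Fintype κ] [DecidableEq κ] [Fintype κ'] [DecidableEq κ'] {K : ℕ} (Q : X → κ')
    (π : κ' → κ) (f : (Fin K → X) → ℝ) :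
    en Q f = ∑ a : Fin K → κ, ∑ b ∈ univ.filter (fun b : Fin K → κ' => (fun i => π (b i)) = a),
      (∑ x ∈ cl Q b, f x) ^ 2 / (cl Q b).card := by
  unfold en
  rw [sum_fiberwise]

theorem en_mono {X κ κ' : Type} [Fintype X] [Fintype κ] [DecidableEq κ] [Fintype κ'] [DecidableEq κ'] {K : ℕ} (P : X → κ)
    (Q : X → κ') (π : κ' → κ) (hπ : ∀ x, P x = π (Q x)) (f : (Fin K → X) → ℝ) : en P f ≤ en Q f := by
  rw [en_split Q π f]
  exact sum_le_sum fun a _ => cell_mono P Q π hπ a f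

theorem card_cells {X κ : Type} [Fintype X] [Fintype κ] [DecidableEq κ] {K : ℕ} (P : X → κ) :
    ∑ a : Fin K → κ, ((cl P a).card : ℝ) = (Fintype.card X : ℝ) ^ K := by
  have h1 : ∑ a : Fin K → κ, (cl P a).card = Fintype.card X ^ K := by
    unfold cl
    rw [← card_eq_sum_card_fiberwise (f := fun x : Fin K → X => (fun i => P (x i))) (t := univ) (fun _ _ => mem_univ _)]
    rw [card_univ, Fintype.card_fun, Fintype.card_fin]
  exact_mod_cast h1

theorem en_le {X κ : Type} [Fintype X] [Fintype κ] [DecidableEq κ] {K : ℕ} (P : X → κ) (f : (Fin K → X) → ℝ)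
    (hf : ∀ x, 0 ≤ f x ∧ f x ≤ 1) : en P f ≤ (Fintype.card X : ℝ) ^ K := by
  rw [← card_cells P]
  refine sum_le_sum fun a _ => ?_
  have h0 : 0 ≤ ∑ x ∈ cl P a, f x := sum_nonneg fun x _ => (hf x).1
  have h1 : ∑ x ∈ cl P a, f x ≤ (cl P a).card := by
    calc ∑ x ∈ cl P a, f x ≤ ∑ _x ∈ cl P a, (1 : ℝ) := sum_le_sum fun x _ => (hf x).2
      _ = (cl P a).card := by simp
  rcases eq_or_lt_of_le (Nat.cast_nonneg (α := ℝ) (cl P a).card) with h | h
  · rw [← h, div_zero]
  · rw [div_le_iff₀ h]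
    nlinarith

open Classical in
/-- **weak regularity** -/
theorem regular (ι : Type) [Fintype ι] (K : ℕ) (ε : ℝ) (hε : 0 < ε) : ∃ M : ℕ, ∀ (X : Type) [Fintype X]
    (f : ι → (Fin K → X) → ℝ), (∀ l x, 0 ≤ f l x ∧ f l x ≤ 1) →
    ∃ (κ : Type) (_ : Fintype κ) (_ : DecidableEq κ) (P : X → κ), Fintype.card κ ≤ M ∧
      ∀ l, ∑ a ∈ univ.filter (fun a : Fin K → κ => Irr ε P (f l) a), ((cl P a).card : ℝ) ≤ ε * (Fintype.card X : ℝ) ^ K := by
  have key : ∀ t : ℕ, ∃ M : ℕ, ∀ (X : Type) [Fintype X]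
    (f : ι → (Fin K → X) → ℝ), (∀ l x, 0 ≤ f l x ∧ f l x ≤ 1) →
    ∃ (κ : Type) (_ : Fintype κ) (_ : DecidableEq κ) (P : X → κ), Fintype.card κ ≤ M ∧
      ((∀ l, ∑ a ∈ univ.filter (fun a : Fin K → κ => Irr ε P (f l) a), ((cl P a).card : ℝ) ≤
        ε * (Fintype.card X : ℝ) ^ K) ∨ t * (ε ^ 3 * (Fintype.card X : ℝ) ^ K) ≤ ∑ l, en P (f l)) := by
    intro t
    induction t with
    | zero =>
      refine ⟨1, fun X _ f hf => ⟨Unit, inferInstance, inferInstance, fun _ => (), by simp, Or.inr ?_⟩⟩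
      rw [Nat.cast_zero, zero_mul]
      exact sum_nonneg fun l _ => sum_nonneg fun a _ => by positivity
    | succ t ih =>
      obtain ⟨M, hM⟩ := ih
      refine ⟨M * 2 ^ (M ^ K * K), fun X _ f hf => ?_⟩
      obtain ⟨κ, hκ1, hκ2, P, hP1, hP2⟩ := hM X f hf
      by_cases hreg : ∀ l, ∑ a ∈ univ.filter (fun a : Fin K → κ => Irr ε P (f l) a), ((cl P a).card : ℝ) ≤
        ε * (Fintype.card X : ℝ) ^ K
      · refine ⟨κ, hκ1, hκ2, P, hP1.trans ?_, Or.inl hreg⟩
        exact Nat.le_mul_of_pos_right M (by positivity)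
      have hen := hP2.resolve_left hreg
      push Not at hreg
      obtain ⟨l, hl⟩ := hreg
      -- the witnesses
      have hw : ∀ a : Fin K → κ, ∃ U : Fin K → Finset X, (∀ i, ∀ x ∈ U i, P x = a i) ∧
          (Irr ε P (f l) a → ε * (cl P a).card < |∑ x ∈ Fintype.piFinset U, (f l x - dn P (f l) a)|) := by
        intro a
        by_cases ha : Irr ε P (f l) a
        · obtain ⟨U, h1, h2⟩ := ha
          exact ⟨U, h1, fun _ => h2⟩
        · exact ⟨fun _ => ∅, fun i x hx => absurd hx (notMem_empty x), fun h => absurd h ha⟩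
      choose U hU1 hU2 using hw
      refine ⟨κ × ((Fin K → κ) × Fin K → Bool), inferInstance, inferInstance,
        fun x => (P x, fun p => decide (x ∈ U p.1 p.2)), ?_, Or.inr ?_⟩
      · rw [Fintype.card_prod, Fintype.card_fun, Fintype.card_bool, Fintype.card_prod, Fintype.card_fun, Fintype.card_fin]
        exact Nat.mul_le_mul hP1 (Nat.pow_le_pow_right (by norm_num) (Nat.mul_le_mul_right _ (Nat.pow_le_pow_left hP1 K)))
      obtain ⟨Q, hQ⟩ : ∃ Q : X → κ × ((Fin K → κ) × Fin K → Bool), Q = fun x => (P x, fun p => decide (x ∈ U p.1 p.2)) :=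
        ⟨_, rfl⟩
      rw [← hQ]
      have hπ : ∀ x, P x = Prod.fst (Q x) := fun x => by rw [hQ]
      have hmono : ∀ l', en P (f l') ≤ en Q (f l') := fun l' => en_mono P Q Prod.fst hπ (f l')
      have hgain : en P (f l) + ε ^ 3 * (Fintype.card X : ℝ) ^ K ≤ en Q (f l) := by
        have h1 : ∀ a : Fin K → κ, (∑ x ∈ cl P a, f l x) ^ 2 / (cl P a).card +
            (if Irr ε P (f l) a then ε ^ 2 * ((cl P a).card : ℝ) else 0) ≤
            ∑ b ∈ univ.filter (fun b : Fin K → κ × ((Fin K → κ) × Fin K → Bool) => (fun i => Prod.fst (b i)) = a),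
              (∑ x ∈ cl Q b, f l x) ^ 2 / (cl Q b).card := by
          intro a
          have h2 := cell_gain P Q Prod.fst hπ a (f l) (U a) (hU1 a) (fun i b => b.2 (a, i) = true) (fun i x => by
            rw [hQ]
            simp)
          refine le_trans ?_ h2
          refine add_le_add_right ?_ _
          by_cases ha : Irr ε P (f l) a
          · rw [if_pos ha]
            have h3 := hU2 a ha
            have h4 : 0 < ((cl P a).card : ℝ) := by
              by_contra hcon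
              have h5 : ((cl P a).card : ℝ) = 0 := le_antisymm (not_lt.1 hcon) (Nat.cast_nonneg _)
              have h6 : (cl P a).card = 0 := by exact_mod_cast h5
              have h7 : Fintype.piFinset (U a) = ∅ := by
                rw [eq_empty_iff_forall_notMem]
                intro x hx
                have h8 : x ∈ cl P a := by
                  unfold cl
                  rw [mem_filter]
                  refine ⟨mem_univ _, ?_⟩
                  funext i
                  exact hU1 a i (x i) ((Fintype.mem_piFinset.1 hx) i)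
                rw [card_eq_zero.1 h6] at h8
                exact notMem_empty _ h8
              rw [h7, h5, sum_empty, abs_zero, mul_zero] at h3
              exact lt_irrefl _ h3
            rw [le_div_iff₀ h4]
            have h5 : (ε * ((cl P a).card : ℝ)) ^ 2 ≤ |∑ x ∈ Fintype.piFinset (U a), (f l x - dn P (f l) a)| ^ 2 :=
              pow_le_pow_left₀ (mul_nonneg hε.le (Nat.cast_nonneg _)) h3.le 2
            rw [sq_abs] at h5
            refine le_trans (le_of_eq ?_) h5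
            ring
          · rw [if_neg ha]
            exact div_nonneg (sq_nonneg _) (Nat.cast_nonneg _)
        have h2 := sum_le_sum fun (a : Fin K → κ) (_ : a ∈ univ) => h1 a
        rw [← en_split Q Prod.fst (f l), sum_add_distrib, ← sum_filter, ← mul_sum] at h2
        refine le_trans ?_ h2
        show en P (f l) + ε ^ 3 * (Fintype.card X : ℝ) ^ K ≤ en P (f l) + _
        refine add_le_add_right ?_ _
        have h3 : ε ^ 3 * (Fintype.card X : ℝ) ^ K = ε ^ 2 * (ε * (Fintype.card X : ℝ) ^ K) := by ring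
        rw [h3]
        exact mul_le_mul_of_nonneg_left hl.le (by positivity)
      have h3 : ∑ l', en P (f l') + ε ^ 3 * (Fintype.card X : ℝ) ^ K ≤ ∑ l', en Q (f l') := by
        have h4 : ∑ l', (en P (f l') + if l' = l then ε ^ 3 * (Fintype.card X : ℝ) ^ K else 0) ≤ ∑ l', en Q (f l') := by
          refine sum_le_sum fun l' _ => ?_
          by_cases h : l' = l
          · rw [if_pos h, h]
            exact hgain
          · rw [if_neg h, add_zero]
            exact hmono l'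
        rw [sum_add_distrib, sum_ite_eq' univ l] at h4
        simpa using h4
      push_cast
      linarith
  obtain ⟨t, ht⟩ := exists_nat_gt ((Fintype.card ι : ℝ) / ε ^ 3)
  obtain ⟨M, hM⟩ := key t
  refine ⟨M, fun X _ f hf => ?_⟩
  obtain ⟨κ, hκ1, hκ2, P, hP1, hP2⟩ := hM X f hf
  refine ⟨κ, hκ1, hκ2, P, hP1, ?_⟩
  rcases hP2 with h | h
  · exact h
  · have h1 : ∑ l, en P (f l) ≤ Fintype.card ι * (Fintype.card X : ℝ) ^ K := by
      calc ∑ l, en P (f l) ≤ ∑ _l : ι, (Fintype.card X : ℝ) ^ K := sum_le_sum fun l _ => en_le P (f l) (hf l)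
        _ = Fintype.card ι * (Fintype.card X : ℝ) ^ K := by rw [sum_const, card_univ, nsmul_eq_mul]
    rw [div_lt_iff₀ (by positivity)] at ht
    have h2 : (0 : ℝ) ≤ (Fintype.card X : ℝ) ^ K := by positivity
    rcases eq_or_lt_of_le h2 with h3 | h3
    · intro l
      rw [← h3, mul_zero]
      have h4 : ∑ a ∈ univ.filter (fun a : Fin K → κ => Irr ε P (f l) a), ((cl P a).card : ℝ) ≤
          ∑ a : Fin K → κ, ((cl P a).card : ℝ) :=
        sum_le_sum_of_subset_of_nonneg (filter_subset _ _) fun _ _ _ => Nat.cast_nonneg _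
      rw [card_cells P, ← h3] at h4
      exact h4
    · exfalso
      have h4 : (Fintype.card ι : ℝ) * (Fintype.card X : ℝ) ^ K < t * ε ^ 3 * (Fintype.card X : ℝ) ^ K :=
        mul_lt_mul_of_pos_right ht h3
      have h5 : (t : ℝ) * (ε ^ 3 * (Fintype.card X : ℝ) ^ K) = t * ε ^ 3 * (Fintype.card X : ℝ) ^ K := by ring
      linarith

end Pool.Agent.H34.EQ
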