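import Pool.Agent.H34.EQ.Cnt

/-!
# [H34 EQ REM] Removal lemma for linear hypergraphs

`linear_removal`: let `e l : Fin K → W`, `l ∈ ι`, be the edges of a linear `K`-uniform hypergraph on the finite set `W` (every
vertex in an edge).  If the `K`-uniform hypergraphs `E l` on the finite set `X` contain a family `T` of at least `η |X| ^ K` copies
which is edge disjoint, then they contain at least `c |X| ^ |W|` copies, `c = c(η) > 0`.
-/

set_option autoImplicit false

namespace Pool.Agent.H34.EQ

open Finset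

theorem ind_bd {X : Type} {K : ℕ} (E : Finset (Fin K → X)) (x : Fin K → X) : 0 ≤ ind E x ∧ ind E x ≤ 1 := by
  unfold ind
  split_ifs <;> norm_num

open Classical in
/-- tuples with a coordinate in a small set -/
theorem small_coord {X : Type} [Fintype X] {K : ℕ} (S : Finset X) (t : ℝ) (hS : (S.card : ℝ) ≤ t * Fintype.card X) :
    ((univ.filter (fun z : Fin K → X => ∃ i, z i ∈ S)).card : ℝ) ≤ K * (t * (Fintype.card X : ℝ) ^ K) := by
  have h1 : univ.filter (fun z : Fin K → X => ∃ i, z i ∈ S) ⊆
      univ.biUnion (fun i : Fin K => Fintype.piFinset (fun j => if j = i then S else univ)) := by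
    intro z hz
    rw [mem_filter] at hz
    obtain ⟨i, hi⟩ := hz.2
    rw [mem_biUnion]
    refine ⟨i, mem_univ _, ?_⟩
    rw [Fintype.mem_piFinset]
    intro j
    by_cases hj : j = i
    · rw [if_pos hj, hj]
      exact hi
    · rw [if_neg hj]
      exact mem_univ _
  have h2 : ((univ.filter (fun z : Fin K → X => ∃ i, z i ∈ S)).card : ℝ) ≤
      ∑ i : Fin K, ((Fintype.piFinset (fun j : Fin K => if j = i then S else univ)).card : ℝ) := by
    exact_mod_cast (card_le_card h1).trans card_biUnion_le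
  refine h2.trans ?_
  have h3 : ∀ i : Fin K, ((Fintype.piFinset (fun j : Fin K => if j = i then S else univ)).card : ℝ) ≤
      t * (Fintype.card X : ℝ) ^ K := by
    intro i
    rw [Fintype.card_piFinset]
    push_cast
    calc ∏ j : Fin K, (((if j = i then S else univ : Finset X)).card : ℝ) ≤
          ∏ j : Fin K, ((if j = i then t else 1) * (Fintype.card X : ℝ)) := by
          refine prod_le_prod (fun _ _ => Nat.cast_nonneg _) fun j _ => ?_
          by_cases hj : j = i
          · rw [if_pos hj, if_pos hj]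
            exact hS
          · rw [if_neg hj, if_neg hj, one_mul, card_univ]
      _ = t * (Fintype.card X : ℝ) ^ K := by
          rw [prod_mul_distrib, prod_ite_eq' univ i, if_pos (mem_univ _), prod_const, card_univ, Fintype.card_fin]
  calc ∑ i : Fin K, ((Fintype.piFinset (fun j : Fin K => if j = i then S else univ)).card : ℝ) ≤
        ∑ _i : Fin K, t * (Fintype.card X : ℝ) ^ K := sum_le_sum fun i _ => h3 i
    _ = K * (t * (Fintype.card X : ℝ) ^ K) := by rw [sum_const, card_univ, Fintype.card_fin, nsmul_eq_mul]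

open Classical in
/-- **removal lemma for linear hypergraphs** -/
theorem linear_removal {W ι : Type} [Fintype W] [DecidableEq W] [Fintype ι] {K : ℕ} (e : ι → Fin K → W)
    (hinj : ∀ l, Function.Injective (e l))
    (hlin : ∀ l l', l ≠ l' → ∀ i j i' j', e l i = e l' i' → e l j = e l' j' → i = j) (hcov : ∀ w, ∃ l i, e l i = w)
    (η : ℝ) (hη : 0 < η) :
    ∃ c : ℝ, 0 < c ∧ ∀ (X : Type) [Fintype X] [Nonempty X] (E : ι → Finset (Fin K → X)) (T : Finset (W → X)),
      (∀ x ∈ T, ∀ l, (fun i => x (e l i)) ∈ E l) →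
      (∀ l, ∀ x ∈ T, ∀ x' ∈ T, (∀ i, x (e l i) = x' (e l i)) → x = x') →
      η * (Fintype.card X : ℝ) ^ K ≤ T.card →
      c * (Fintype.card X : ℝ) ^ Fintype.card W ≤
        ((univ.filter (fun x : W → X => ∀ l, (fun i => x (e l i)) ∈ E l)).card : ℝ) := by
  obtain ⟨n, hn⟩ : ∃ n : ℝ, n = Fintype.card ι := ⟨_, rfl⟩
  have hn0 : 0 ≤ n := by rw [hn]; exact Nat.cast_nonneg _
  obtain ⟨η₁, hη₁⟩ : ∃ η₁ : ℝ, η₁ = min 1 (η / (4 * (n + 1))) := ⟨_, rfl⟩
  have hη₁0 : 0 < η₁ := by rw [hη₁]; exact lt_min one_pos (by positivity)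
  have hη₁1 : η₁ ≤ 1 := by rw [hη₁]; exact min_le_left _ _
  have hη₁2 : η₁ ≤ η / (4 * (n + 1)) := by rw [hη₁]; exact min_le_right _ _
  obtain ⟨η₂, hη₂⟩ : ∃ η₂ : ℝ, η₂ = η / (4 * (n + 1) * (K + 1)) := ⟨_, rfl⟩
  have hη₂0 : 0 < η₂ := by rw [hη₂]; positivity
  have hη₂2 : K * η₂ ≤ η / (4 * (n + 1)) := by
    have h1 : η / (4 * (n + 1)) = (K + 1) * η₂ := by
      rw [hη₂]
      field_simp
    rw [h1]
    nlinarith
  obtain ⟨ε, hε⟩ : ∃ ε : ℝ, ε = min (η / (4 * (n + 1))) (η₁ ^ Fintype.card ι / (2 * (n + 1))) := ⟨_, rfl⟩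
  have hε0 : 0 < ε := by rw [hε]; exact lt_min (by positivity) (by positivity)
  have hε1 : ε ≤ η / (4 * (n + 1)) := by rw [hε]; exact min_le_left _ _
  have hε2 : ε ≤ η₁ ^ Fintype.card ι / (2 * (n + 1)) := by rw [hε]; exact min_le_right _ _
  obtain ⟨M, hM⟩ := regular ι K ε hε0
  refine ⟨η₁ ^ Fintype.card ι / 2 * (η₂ / (M + 1)) ^ Fintype.card W, by positivity, fun X _ _ E T hT1 hT2 hT3 => ?_⟩
  obtain ⟨κ, hκ1, hκ2, P, hPM, hP⟩ := hM X (fun l => ind (E l)) (fun l x => ind_bd (E l) x)
  have hN : (0 : ℝ) < Fintype.card X := by exact_mod_cast Fintype.card_pos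
  have hNK : (0 : ℝ) < (Fintype.card X : ℝ) ^ K := by positivity
  -- the small parts
  obtain ⟨S, hS⟩ : ∃ S : Finset X, S = univ.filter (fun x =>
    ((univ.filter (fun y => P y = P x)).card : ℝ) < η₂ / (M + 1) * Fintype.card X) := ⟨_, rfl⟩
  have hScard : (S.card : ℝ) ≤ η₂ * Fintype.card X := by
    have h1 : S.card = ∑ a : κ, (S.filter (fun x => P x = a)).card :=
      card_eq_sum_card_fiberwise (fun _ _ => mem_univ _)
    have h2 : ∀ a : κ, ((S.filter (fun x => P x = a)).card : ℝ) ≤ η₂ / (M + 1) * Fintype.card X := by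
      intro a
      by_cases hne : (S.filter (fun x => P x = a)).Nonempty
      · obtain ⟨x, hx⟩ := hne
        rw [mem_filter, hS, mem_filter] at hx
        refine le_trans ?_ hx.1.2.le
        refine Nat.cast_le.2 (card_le_card fun y hy => ?_)
        rw [mem_filter] at hy
        rw [mem_filter, hx.2]
        exact ⟨mem_univ _, hy.2⟩
      · rw [not_nonempty_iff_eq_empty.1 hne, card_empty, Nat.cast_zero]
        positivity
    have h3 : (S.card : ℝ) = ∑ a : κ, ((S.filter (fun x => P x = a)).card : ℝ) := by exact_mod_cast h1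
    rw [h3]
    calc ∑ a : κ, ((S.filter (fun x => P x = a)).card : ℝ) ≤ ∑ _a : κ, η₂ / (M + 1) * Fintype.card X :=
          sum_le_sum fun a _ => h2 a
      _ = Fintype.card κ * (η₂ / (M + 1) * Fintype.card X) := by rw [sum_const, card_univ, nsmul_eq_mul]
      _ ≤ (M + 1) * (η₂ / (M + 1) * Fintype.card X) := by
          refine mul_le_mul_of_nonneg_right ?_ (by positivity)
          have : (Fintype.card κ : ℝ) ≤ M := by exact_mod_cast hPM
          linarith
      _ = η₂ * Fintype.card X := by field_simp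
  -- bad tuples
  obtain ⟨tg, htg⟩ : ∃ tg : (Fin K → X) → (Fin K → κ), tg = fun z i => P (z i) := ⟨_, rfl⟩
  have hb1 : ∀ l, (((E l).filter (fun z => Irr ε P (ind (E l)) (tg z))).card : ℝ) ≤ ε * (Fintype.card X : ℝ) ^ K := by
    intro l
    refine le_trans ?_ (hP l)
    have h1 : (((E l).filter (fun z => Irr ε P (ind (E l)) (tg z))).card) ≤
        ∑ a ∈ univ.filter (fun a : Fin K → κ => Irr ε P (ind (E l)) a), (cl P a).card := by
      rw [card_eq_sum_card_fiberwise (f := tg) (t := univ.filter (fun a : Fin K → κ => Irr ε P (ind (E l)) a)) (by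
        intro z hz
        rw [mem_coe, mem_filter] at hz
        rw [mem_coe, mem_filter]
        exact ⟨mem_univ _, hz.2⟩)]
      refine sum_le_sum fun a _ => card_le_card fun z hz => ?_
      rw [mem_filter] at hz
      unfold cl
      rw [mem_filter]
      refine ⟨mem_univ _, ?_⟩
      rw [← hz.2, htg]
    exact_mod_cast h1
  have hb2 : ∀ l, (((E l).filter (fun z => dn P (ind (E l)) (tg z) < η₁)).card : ℝ) ≤ η₁ * (Fintype.card X : ℝ) ^ K := by
    intro l
    have h1 : (((E l).filter (fun z => dn P (ind (E l)) (tg z) < η₁)).card : ℝ) =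
        ∑ a ∈ univ.filter (fun a : Fin K → κ => dn P (ind (E l)) a < η₁),
          ((((E l).filter (fun z => dn P (ind (E l)) (tg z) < η₁)).filter (fun z => tg z = a)).card : ℝ) := by
      have h2 := card_eq_sum_card_fiberwise (s := (E l).filter (fun z => dn P (ind (E l)) (tg z) < η₁))
        (f := tg) (t := univ.filter (fun a : Fin K → κ => dn P (ind (E l)) a < η₁)) (by
        intro z hz
        rw [mem_coe, mem_filter] at hz
        rw [mem_coe, mem_filter]
        exact ⟨mem_univ _, hz.2⟩)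
      exact_mod_cast h2
    rw [h1, ← card_cells P, mul_sum]
    refine le_trans (sum_le_sum (g := fun a => η₁ * ((cl P a).card : ℝ)) fun a ha => ?_)
      (sum_le_sum_of_subset_of_nonneg (filter_subset _ _) fun a _ _ => by positivity)
    rw [mem_filter] at ha
    have h2 : ((((E l).filter (fun z => dn P (ind (E l)) (tg z) < η₁)).filter (fun z => tg z = a)).card : ℝ) ≤
        ∑ x ∈ cl P a, ind (E l) x := by
      unfold ind
      rw [← sum_filter, sum_const, nsmul_eq_mul, mul_one]
      refine Nat.cast_le.2 (card_le_card fun z hz => ?_)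
      rw [mem_filter, mem_filter] at hz
      rw [mem_filter]
      unfold cl
      rw [mem_filter]
      refine ⟨⟨mem_univ _, ?_⟩, hz.1.1⟩
      rw [← hz.2, htg]
    refine h2.trans ?_
    have h3 := ha.2
    unfold dn at h3
    rcases eq_or_lt_of_le (Nat.cast_nonneg (α := ℝ) (cl P a).card) with h | h
    · rw [cl_zero P (ind (E l)) a h.symm, ← h, mul_zero]
    · rw [div_lt_iff₀ h] at h3
      exact h3.le
  have hb3 := small_coord (K := K) S η₂ hScard
  -- a good copy
  have hex : ∃ x ∈ T, ∀ l, ¬ Irr ε P (ind (E l)) (tg (fun i => x (e l i))) ∧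
      η₁ ≤ dn P (ind (E l)) (tg (fun i => x (e l i))) ∧ ∀ i, x (e l i) ∉ S := by
    by_contra hcon
    push Not at hcon
    have h1 : T ⊆ univ.biUnion (fun l : ι => T.filter (fun x => Irr ε P (ind (E l)) (tg (fun i => x (e l i))) ∨
        dn P (ind (E l)) (tg (fun i => x (e l i))) < η₁ ∨ ∃ i, x (e l i) ∈ S)) := by
      intro x hx
      obtain ⟨l, hl⟩ := hcon x hx
      rw [mem_biUnion]
      refine ⟨l, mem_univ _, mem_filter.2 ⟨hx, ?_⟩⟩
      by_cases ha : Irr ε P (ind (E l)) (tg (fun i => x (e l i)))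
      · exact Or.inl ha
      · by_cases hb : dn P (ind (E l)) (tg (fun i => x (e l i))) < η₁
        · exact Or.inr (Or.inl hb)
        · exact Or.inr (Or.inr (hl ha (not_lt.1 hb)))
    have h2 : ∀ l, ((T.filter (fun x => Irr ε P (ind (E l)) (tg (fun i => x (e l i))) ∨
        dn P (ind (E l)) (tg (fun i => x (e l i))) < η₁ ∨ ∃ i, x (e l i) ∈ S)).card : ℝ) ≤
        3 * (η / (4 * (n + 1))) * (Fintype.card X : ℝ) ^ K := by
      intro l
      have h3 : (T.filter (fun x => Irr ε P (ind (E l)) (tg (fun i => x (e l i))) ∨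
        dn P (ind (E l)) (tg (fun i => x (e l i))) < η₁ ∨ ∃ i, x (e l i) ∈ S)).card ≤
          ((E l).filter (fun z => Irr ε P (ind (E l)) (tg z)) ∪ ((E l).filter (fun z => dn P (ind (E l)) (tg z) < η₁) ∪
            univ.filter (fun z : Fin K → X => ∃ i, z i ∈ S))).card := by
        refine card_le_card_of_injOn (fun x => (fun i => x (e l i))) ?_ ?_
        · intro x hx
          rw [mem_coe, mem_filter] at hx
          rw [mem_coe, mem_union, mem_union, mem_filter, mem_filter, mem_filter]
          have h4 := hT1 x hx.1 l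
          rcases hx.2 with h | h | h
          · exact Or.inl ⟨h4, h⟩
          · exact Or.inr (Or.inl ⟨h4, h⟩)
          · exact Or.inr (Or.inr ⟨mem_univ _, h⟩)
        · intro x hx x' hx' h
          rw [mem_coe, mem_filter] at hx hx'
          exact hT2 l x hx.1 x' hx'.1 fun i => congrFun h i
      have h4 : ((T.filter (fun x => Irr ε P (ind (E l)) (tg (fun i => x (e l i))) ∨
        dn P (ind (E l)) (tg (fun i => x (e l i))) < η₁ ∨ ∃ i, x (e l i) ∈ S)).card : ℝ) ≤
          ((E l).filter (fun z => Irr ε P (ind (E l)) (tg z))).card +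
          (((E l).filter (fun z => dn P (ind (E l)) (tg z) < η₁)).card +
            (univ.filter (fun z : Fin K → X => ∃ i, z i ∈ S)).card) := by
        exact_mod_cast h3.trans ((card_union_le _ _).trans (Nat.add_le_add_left (card_union_le _ _) _))
      have h5 : (K : ℝ) * (η₂ * (Fintype.card X : ℝ) ^ K) ≤ η / (4 * (n + 1)) * (Fintype.card X : ℝ) ^ K := by
        rw [← mul_assoc]
        exact mul_le_mul_of_nonneg_right hη₂2 hNK.le
      have h6 : ε * (Fintype.card X : ℝ) ^ K ≤ η / (4 * (n + 1)) * (Fintype.card X : ℝ) ^ K :=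
        mul_le_mul_of_nonneg_right hε1 hNK.le
      have h7 : η₁ * (Fintype.card X : ℝ) ^ K ≤ η / (4 * (n + 1)) * (Fintype.card X : ℝ) ^ K :=
        mul_le_mul_of_nonneg_right hη₁2 hNK.le
      have h8 := hb1 l
      have h9 := hb2 l
      linarith
    have h3 : (T.card : ℝ) ≤ ∑ l : ι, ((T.filter (fun x => Irr ε P (ind (E l)) (tg (fun i => x (e l i))) ∨
        dn P (ind (E l)) (tg (fun i => x (e l i))) < η₁ ∨ ∃ i, x (e l i) ∈ S)).card : ℝ) := by
      exact_mod_cast (card_le_card h1).trans card_biUnion_le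
    have h4 : (T.card : ℝ) ≤ n * (3 * (η / (4 * (n + 1))) * (Fintype.card X : ℝ) ^ K) := by
      refine h3.trans ((sum_le_sum fun l _ => h2 l).trans (le_of_eq ?_))
      rw [sum_const, card_univ, nsmul_eq_mul, hn]
    have h5 : n * (3 * (η / (4 * (n + 1))) * (Fintype.card X : ℝ) ^ K) < η * (Fintype.card X : ℝ) ^ K := by
      have h6 : n * (3 * (η / (4 * (n + 1)))) < η := by
        have h7 : η = 4 * (n + 1) * (η / (4 * (n + 1))) := by field_simp
        have h8 : 0 < η / (4 * (n + 1)) := by positivity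
        nlinarith
      calc n * (3 * (η / (4 * (n + 1))) * (Fintype.card X : ℝ) ^ K) =
            (n * (3 * (η / (4 * (n + 1))))) * (Fintype.card X : ℝ) ^ K := by ring
        _ < η * (Fintype.card X : ℝ) ^ K := mul_lt_mul_of_pos_right h6 hNK
    linarith
  obtain ⟨x, hxT, hx⟩ := hex
  have hcount := count_lemma e hinj hlin E P (fun w => P (x w)) ε η₁ hε0.le hη₁0.le hη₁1
    (fun l => by
      have h1 := (hx l).1
      rw [htg] at h1
      exact h1)
    (fun l => by
      have h1 := (hx l).2.1
      rw [htg] at h1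
      exact h1) univ
  have hcount2 := hcount.trans (Nat.cast_le.2 (card_le_card (t := univ.filter (fun x : W → X =>
    ∀ l, (fun i => x (e l i)) ∈ E l)) fun y hy => by
      simp only [mem_filter, mem_univ, true_and] at hy ⊢
      exact fun l => hy.2 l trivial))
  refine le_trans ?_ hcount2
  rw [card_univ, ← hn]
  have h2 : η₁ ^ Fintype.card ι / 2 ≤ η₁ ^ Fintype.card ι - ε * n := by
    have h3 : ε * n ≤ η₁ ^ Fintype.card ι / (2 * (n + 1)) * n := mul_le_mul_of_nonneg_right hε2 hn0
    have h4 : η₁ ^ Fintype.card ι / (2 * (n + 1)) * n ≤ η₁ ^ Fintype.card ι / 2 := by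
      rw [div_mul_eq_mul_div, div_le_div_iff₀ (by positivity) (by norm_num)]
      have h5 : 0 < η₁ ^ Fintype.card ι := by positivity
      nlinarith
    linarith
  have h3 : (η₂ / (M + 1)) ^ Fintype.card W * (Fintype.card X : ℝ) ^ Fintype.card W ≤
      ((Fintype.piFinset (fun w : W => univ.filter (fun y => P y = P (x w)))).card : ℝ) := by
    rw [Fintype.card_piFinset, ← mul_pow]
    push_cast
    calc (η₂ / (M + 1) * (Fintype.card X : ℝ)) ^ Fintype.card W =
          ∏ _w : W, (η₂ / (M + 1) * (Fintype.card X : ℝ)) := by rw [prod_const, card_univ]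
      _ ≤ ∏ w : W, ((univ.filter (fun y => P y = P (x w))).card : ℝ) := by
          refine prod_le_prod (fun _ _ => by positivity) fun w _ => ?_
          obtain ⟨l, i, hw⟩ := hcov w
          have h4 := (hx l).2.2 i
          rw [hw] at h4
          by_contra hlt
          apply h4
          rw [hS, mem_filter]
          exact ⟨mem_univ _, not_le.1 hlt⟩
  calc η₁ ^ Fintype.card ι / 2 * (η₂ / (M + 1)) ^ Fintype.card W * (Fintype.card X : ℝ) ^ Fintype.card W =
        η₁ ^ Fintype.card ι / 2 * ((η₂ / (M + 1)) ^ Fintype.card W * (Fintype.card X : ℝ) ^ Fintype.card W) := by ring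
    _ ≤ (η₁ ^ Fintype.card ι - ε * n) *
          ((Fintype.piFinset (fun w : W => univ.filter (fun y => P y = P (x w)))).card : ℝ) :=
        mul_le_mul h2 h3 (by positivity) (le_trans (by positivity) h2)

end Pool.Agent.H34.EQ
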