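import Pool.Agent.H34.EQ.Pls

/-!
# [H34 EQ TWO] The systems for `k = 1` and `k = 2`

`k = 1`: intervals.  `k = 2`: corners with positive difference in a triangle, from the corners theorem of Mathlib.
-/

set_option autoImplicit false

namespace Pool.Agent.H34.EQ

open Finset

/-- the pairs -/
theorem hasSys_one : HasSys 1 := by
  classical
  intro δ hδ
  obtain ⟨n, hn⟩ : ∃ n : ℕ, n = ⌈1 / δ⌉₊ + 1 := ⟨_, rfl⟩
  have hn1 : 1 ≤ n := by omega
  have hδn : 1 < δ * (n + 1) := by
    have h1 : 1 / δ ≤ ⌈1 / δ⌉₊ := Nat.le_ceil _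
    have h2 : (n : ℝ) = ⌈1 / δ⌉₊ + 1 := by rw [hn]; push_cast; ring
    have h3 : 1 / δ < (n : ℝ) + 1 := by linarith
    rw [div_lt_iff₀ hδ] at h3
    linarith
  obtain ⟨e, he⟩ : ∃ e : {p : Fin (n + 1) × Fin (n + 1) // p.1 < p.2} → Fin (1 + 1) → Fin (n + 1),
      e = fun l i => if i = 0 then l.1.1 else l.1.2 := ⟨_, rfl⟩
  have e0 : ∀ l, e l 0 = l.1.1 := fun l => by rw [he]; exact if_pos rfl
  have e1 : ∀ l, e l 1 = l.1.2 := fun l => by rw [he]; exact if_neg (by decide)
  have hij2 : ∀ i : Fin (1 + 1), i = 0 ∨ i = 1 := fun i => by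
    rcases i with ⟨i, hi⟩
    rcases i with _ | i
    · left; rfl
    · right
      apply Fin.ext
      show i + 1 = 1
      omega
  refine ⟨n, Fin (n + 1), {p : Fin (n + 1) × Fin (n + 1) // p.1 < p.2}, inferInstance, inferInstance, inferInstance,
    inferInstance, e, fun w _ => w.val, fun l => l.1.2.val - l.1.1.val, fun w _ => ?_, fun l => ?_, fun l => ?_,
    fun l i j => ?_, fun l => ?_, fun l l' hll i j i' j' h1 h2 => ?_, fun w => ?_, fun S hS => ?_⟩
  · have := w.2
    show w.val ≤ n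
    omega
  · have h := l.2
    rw [Fin.lt_def] at h
    show 1 ≤ l.1.2.val - l.1.1.val
    omega
  · have := l.1.2.2
    show l.1.2.val - l.1.1.val ≤ n
    omega
  · have hi : i = 0 := Subsingleton.elim _ _
    have hj : j = 0 := Subsingleton.elim _ _
    subst hi
    subst hj
    rw [if_pos rfl]
    have hs : (0 : Fin 1).succ = (1 : Fin (1 + 1)) := rfl
    rw [hs, e1, e0]
    have h := l.2
    rw [Fin.lt_def] at h
    show l.1.2.val = l.1.1.val + (l.1.2.val - l.1.1.val)
    omega
  · intro i j h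
    have hl := l.2
    rcases hij2 i with hi | hi <;> rcases hij2 j with hj | hj
    · rw [hi, hj]
    · rw [hi, hj, e0, e1] at h
      rw [h] at hl
      exact absurd hl (lt_irrefl _)
    · rw [hi, hj, e0, e1] at h
      rw [h] at hl
      exact absurd hl (lt_irrefl _)
    · rw [hi, hj]
  · by_contra hij
    apply hll
    have hl := l.2
    have hl' := l'.2
    apply Subtype.ext
    apply Prod.ext
    · rcases hij2 i with hi | hi <;> rcases hij2 j with hj | hj <;> rcases hij2 i' with hi' | hi' <;>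
        rcases hij2 j' with hj' | hj' <;> rw [hi, hi'] at h1 <;> rw [hj, hj'] at h2 <;> rw [hi, hj] at hij <;>
        simp only [e0, e1] at h1 h2 <;> first | exact absurd rfl hij | exact h1 | exact h2 | skip
      all_goals
        rw [Fin.lt_def] at hl hl'
        rw [Fin.ext_iff] at h1 h2
        omega
    · rcases hij2 i with hi | hi <;> rcases hij2 j with hj | hj <;> rcases hij2 i' with hi' | hi' <;>
        rcases hij2 j' with hj' | hj' <;> rw [hi, hi'] at h1 <;> rw [hj, hj'] at h2 <;> rw [hi, hj] at hij <;>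
        simp only [e0, e1] at h1 h2 <;> first | exact absurd rfl hij | exact h1 | exact h2 | skip
      all_goals
        rw [Fin.lt_def] at hl hl'
        rw [Fin.ext_iff] at h1 h2
        omega
  · by_cases hw : w.val < n
    · refine ⟨⟨(w, ⟨n, by omega⟩), by rw [Fin.lt_def]; exact hw⟩, 0, ?_⟩
      rw [e0]
    · have hw2 := w.2
      refine ⟨⟨(⟨0, by omega⟩, w), by rw [Fin.lt_def]; show 0 < w.val; omega⟩, 1, ?_⟩
      rw [e1]
  · have hS2 : 1 < S.card := by
      have h1 : (1 : ℝ) < S.card := by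
        rw [Fintype.card_fin] at hS
        push_cast at hS
        linarith
      exact_mod_cast h1
    obtain ⟨a, ha, b, hb, hab⟩ := one_lt_card.1 hS2
    rcases lt_or_gt_of_ne hab with h | h
    · refine ⟨⟨(a, b), h⟩, fun i => ?_⟩
      rcases hij2 i with hi | hi
      · rw [hi, e0]
        exact ha
      · rw [hi, e1]
        exact hb
    · refine ⟨⟨(b, a), h⟩, fun i => ?_⟩
      rcases hij2 i with hi | hi
      · rw [hi, e0]
        exact hb
      · rw [hi, e1]
        exact ha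

/-- positive corners -/
theorem corner_pos (ε : ℝ) (hε : 0 < ε) : ∃ n₀ : ℕ, ∀ n : ℕ, n₀ ≤ n → 1 ≤ n → ∀ S : Finset (ℕ × ℕ), S ⊆ range n ×ˢ range n →
    ε * (n : ℝ) ^ 2 ≤ S.card → ∃ x y d : ℕ, 1 ≤ d ∧ (x, y) ∈ S ∧ (x + d, y) ∈ S ∧ (x, y + d) ∈ S := by
  classical
  refine ⟨cornersTheoremBound (ε ^ 2 / 4 / 9), fun n hn hn1 S hS hSε => ?_⟩
  have hn0 : (0 : ℝ) < n := by exact_mod_cast hn1
  have hε2 : (0 : ℝ) < ε ^ 2 / 4 := by positivity
  -- the sum over the reflections
  have h1 : S.card * S.card = ∑ v ∈ range (2 * n) ×ˢ range (2 * n),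
      ((S ×ˢ S).filter (fun p => (p.1.1 + p.2.1, p.1.2 + p.2.2) = v)).card := by
    rw [← card_product]
    refine card_eq_sum_card_fiberwise (f := fun p : (ℕ × ℕ) × (ℕ × ℕ) => (p.1.1 + p.2.1, p.1.2 + p.2.2)) ?_
    intro p hp
    rw [mem_coe, mem_product] at hp
    have ha := hS hp.1
    have hb := hS hp.2
    rw [mem_product, mem_range, mem_range] at ha hb
    rw [mem_coe, mem_product, mem_range, mem_range]
    constructor
    · show p.1.1 + p.2.1 < 2 * n
      omega
    · show p.1.2 + p.2.2 < 2 * n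
      omega
  obtain ⟨v, hv, h2⟩ : ∃ v ∈ range (2 * n) ×ˢ range (2 * n), ε ^ 2 / 4 * (n : ℝ) ^ 2 ≤
      (((S ×ˢ S).filter (fun p => (p.1.1 + p.2.1, p.1.2 + p.2.2) = v)).card : ℝ) := by
    refine exists_le_of_sum_le (s := range (2 * n) ×ˢ range (2 * n)) (f := fun _ => ε ^ 2 / 4 * (n : ℝ) ^ 2)
      (g := fun v => (((S ×ˢ S).filter (fun p => (p.1.1 + p.2.1, p.1.2 + p.2.2) = v)).card : ℝ)) ?_ ?_
    · refine ⟨(0, 0), ?_⟩
      rw [mem_product, mem_range]
      exact ⟨by omega, by omega⟩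
    · rw [sum_const, card_product, card_range, nsmul_eq_mul, ← Nat.cast_sum, ← h1]
      push_cast
      calc 2 * (n : ℝ) * (2 * n) * (ε ^ 2 / 4 * (n : ℝ) ^ 2) = (ε * (n : ℝ) ^ 2) * (ε * (n : ℝ) ^ 2) := by ring
        _ ≤ (S.card : ℝ) * S.card := mul_le_mul hSε hSε (by positivity) (by positivity)
  obtain ⟨A, hA⟩ : ∃ A : Finset (ℕ × ℕ), A = S.filter (fun p => ∃ p' ∈ S, p.1 + p'.1 = v.1 ∧ p.2 + p'.2 = v.2) := ⟨_, rfl⟩
  have h3 : (((S ×ˢ S).filter (fun p => (p.1.1 + p.2.1, p.1.2 + p.2.2) = v)).card : ℝ) ≤ A.card := by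
    refine Nat.cast_le.2 (card_le_card_of_injOn (fun p => p.1) ?_ ?_)
    · intro p hp
      rw [mem_coe, mem_filter, mem_product] at hp
      rw [hA, mem_coe, mem_filter]
      exact ⟨hp.1.1, p.2, hp.1.2, congrArg Prod.fst hp.2, congrArg Prod.snd hp.2⟩
    · intro p hp p' hp' h
      rw [mem_coe, mem_filter, mem_product] at hp hp'
      have h' : p.1 = p'.1 := h
      have a1 := congrArg Prod.fst hp.2
      have a2 := congrArg Prod.snd hp.2
      have a3 := congrArg Prod.fst hp'.2
      have a4 := congrArg Prod.snd hp'.2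
      simp only at a1 a2 a3 a4
      apply Prod.ext h'
      rw [h'] at a1 a2
      apply Prod.ext
      · omega
      · omega
  have hAS : A ⊆ S := by rw [hA]; exact filter_subset _ _
  have h4 := corners_theorem_nat (ε := ε ^ 2 / 4) hε2 hn A (hAS.trans hS) (h2.trans h3)
  unfold IsCornerFree at h4
  push Not at h4
  obtain ⟨x₁, y₁, x₂, y₂, hc, hne⟩ := h4
  obtain ⟨c1, c2, c3, c4⟩ := hc
  rw [mem_coe] at c1 c2 c3
  rcases lt_or_gt_of_ne hne with hlt | hlt
  · refine ⟨x₁, y₁, x₂ - x₁, by omega, hAS c1, ?_, ?_⟩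
    · have : x₁ + (x₂ - x₁) = x₂ := by omega
      rw [this]
      exact hAS c3
    · have : y₁ + (x₂ - x₁) = y₂ := by omega
      rw [this]
      exact hAS c2
  · rw [hA, mem_filter] at c1 c2 c3
    obtain ⟨-, p, hp, p1, p2⟩ := c1
    obtain ⟨-, p', hp', p3, p4⟩ := c2
    obtain ⟨-, p'', hp'', p5, p6⟩ := c3
    simp only at p1 p2 p3 p4 p5 p6
    refine ⟨p.1, p.2, x₁ - x₂, by omega, hp, ?_, ?_⟩
    · have : (p.1 + (x₁ - x₂), p.2) = p'' := by
        apply Prod.ext
        · show p.1 + (x₁ - x₂) = p''.1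
          omega
        · show p.2 = p''.2
          omega
      rw [this]
      exact hp''
    · have : (p.1, p.2 + (x₁ - x₂)) = p' := by
        apply Prod.ext
        · show p.1 = p'.1
          omega
        · show p.2 + (x₁ - x₂) = p'.2
          omega
      rw [this]
      exact hp'

theorem tri_aux (x y d x' y' d' : ℕ) (hd : 1 ≤ d) (hd' : 1 ≤ d') (i j i' j' : Fin (2 + 1)) (hij : i ≠ j)
    (h1 : x + (if i = 1 then d else 0) = x' + (if i' = 1 then d' else 0))
    (h2 : y + (if i = 2 then d else 0) = y' + (if i' = 2 then d' else 0))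
    (h3 : x + (if j = 1 then d else 0) = x' + (if j' = 1 then d' else 0))
    (h4 : y + (if j = 2 then d else 0) = y' + (if j' = 2 then d' else 0)) : x = x' ∧ y = y' ∧ d = d' := by
  have hall : ∀ i : Fin (2 + 1), i = 0 ∨ i = 1 ∨ i = 2 := by decide
  have t01 : ¬ (0 : Fin (2 + 1)) = 1 := by decide
  have t02 : ¬ (0 : Fin (2 + 1)) = 2 := by decide
  have t12 : ¬ (1 : Fin (2 + 1)) = 2 := by decide
  have t21 : ¬ (2 : Fin (2 + 1)) = 1 := by decide
  rcases hall i with hi | hi | hi <;> rcases hall j with hj | hj | hj <;> rw [hi, hj] at hij <;>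
    first | exact absurd rfl hij | skip
  all_goals
    rcases hall i' with hi' | hi' | hi' <;> rcases hall j' with hj' | hj' | hj' <;>
      rw [hi, hi'] at h1 h2 <;> rw [hj, hj'] at h3 h4 <;>
      simp only [t01, t02, t12, t21, if_true, if_false] at h1 h2 h3 h4 <;> omega

/-- the corners in a triangle -/
theorem hasSys_two : HasSys 2 := by
  classical
  intro δ hδ
  obtain ⟨n₀, hn₀⟩ := corner_pos (δ / 2) (by positivity)
  obtain ⟨n, hn⟩ : ∃ n : ℕ, n = n₀ + 1 := ⟨_, rfl⟩
  obtain ⟨e, he⟩ : ∃ e : {t : Fin (n + 1) × Fin (n + 1) × Fin (n + 1) // 1 ≤ t.2.2.val ∧ t.1.val + t.2.1.val + t.2.2.val ≤ n} →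
      Fin (2 + 1) → {p : Fin (n + 1) × Fin (n + 1) // p.1.val + p.2.val ≤ n},
      ∀ l i, (e l i).1.1.val = l.1.1.val + (if i = 1 then l.1.2.2.val else 0) ∧
        (e l i).1.2.val = l.1.2.1.val + (if i = 2 then l.1.2.2.val else 0) := by
    have hb : ∀ (l : {t : Fin (n + 1) × Fin (n + 1) × Fin (n + 1) // 1 ≤ t.2.2.val ∧ t.1.val + t.2.1.val + t.2.2.val ≤ n})
        (i : Fin (2 + 1)), (l.1.1.val + (if i = 1 then l.1.2.2.val else 0)) +
          (l.1.2.1.val + (if i = 2 then l.1.2.2.val else 0)) ≤ n := by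
      intro l i
      have h := l.2.2
      have t12 : ¬ (1 : Fin (2 + 1)) = 2 := by decide
      by_cases h1 : i = 1
      · rw [h1, if_pos rfl, if_neg t12]
        omega
      · rw [if_neg h1]
        by_cases h2 : i = 2
        · rw [if_pos h2]
          omega
        · rw [if_neg h2]
          omega
    exact ⟨fun l i => ⟨(⟨l.1.1.val + (if i = 1 then l.1.2.2.val else 0), by have := hb l i; omega⟩,
      ⟨l.1.2.1.val + (if i = 2 then l.1.2.2.val else 0), by have := hb l i; omega⟩), hb l i⟩, fun l i => ⟨rfl, rfl⟩⟩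
  have hne : ∀ (l : {t : Fin (n + 1) × Fin (n + 1) × Fin (n + 1) // 1 ≤ t.2.2.val ∧ t.1.val + t.2.1.val + t.2.2.val ≤ n}),
      1 ≤ l.1.2.2.val := fun l => l.2.1
  have hcardW : ((n : ℝ) + 1) ^ 2 ≤ 2 * Fintype.card {p : Fin (n + 1) × Fin (n + 1) // p.1.val + p.2.val ≤ n} := by
    have h1 : Fintype.card (Fin (n + 1) × Fin (n + 1)) ≤
        Fintype.card ({p : Fin (n + 1) × Fin (n + 1) // p.1.val + p.2.val ≤ n} ⊕
          {p : Fin (n + 1) × Fin (n + 1) // p.1.val + p.2.val ≤ n}) := by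
      refine Fintype.card_le_of_injective (fun p : Fin (n + 1) × Fin (n + 1) =>
        if h : p.1.val + p.2.val ≤ n then Sum.inl ⟨p, h⟩ else
          Sum.inr ⟨(⟨n - p.1.val, by omega⟩, ⟨n - p.2.val, by omega⟩), by
            show n - p.1.val + (n - p.2.val) ≤ n
            omega⟩) ?_
      intro p q hpq
      have hp1 := p.1.2
      have hp2 := p.2.2
      have hq1 := q.1.2
      have hq2 := q.2.2
      by_cases h : p.1.val + p.2.val ≤ n
      · by_cases h' : q.1.val + q.2.val ≤ n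
        · simp only [dif_pos h, dif_pos h'] at hpq
          exact congrArg Subtype.val (Sum.inl_injective hpq)
        · simp only [dif_pos h, dif_neg h'] at hpq
          exact absurd hpq (by simp)
      · by_cases h' : q.1.val + q.2.val ≤ n
        · simp only [dif_neg h, dif_pos h'] at hpq
          exact absurd hpq (by simp)
        · simp only [dif_neg h, dif_neg h'] at hpq
          have h2 := congrArg Subtype.val (Sum.inr_injective hpq)
          have h3 := congrArg Fin.val (congrArg Prod.fst h2)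
          have h4 := congrArg Fin.val (congrArg Prod.snd h2)
          simp only at h3 h4
          apply Prod.ext
          · apply Fin.ext
            omega
          · apply Fin.ext
            omega
    rw [Fintype.card_sum, Fintype.card_prod, Fintype.card_fin] at h1
    have h2 : (((n + 1) * (n + 1) : ℕ) : ℝ) ≤ ((Fintype.card {p : Fin (n + 1) × Fin (n + 1) // p.1.val + p.2.val ≤ n} +
      Fintype.card {p : Fin (n + 1) × Fin (n + 1) // p.1.val + p.2.val ≤ n} : ℕ) : ℝ) := Nat.cast_le.2 h1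
    push_cast at h2
    nlinarith
  refine ⟨n, {p : Fin (n + 1) × Fin (n + 1) // p.1.val + p.2.val ≤ n},
    {t : Fin (n + 1) × Fin (n + 1) × Fin (n + 1) // 1 ≤ t.2.2.val ∧ t.1.val + t.2.1.val + t.2.2.val ≤ n},
    inferInstance, inferInstance, ⟨⟨(0, 0), by show 0 + 0 ≤ n; omega⟩⟩, inferInstance, e,
    fun w j => if j = 0 then w.1.1.val else w.1.2.val, fun l => l.1.2.2.val, fun w j => ?_, hne, fun l => ?_,
    fun l i j => ?_, fun l => ?_, fun l l' hll i j i' j' h1 h2 => ?_, fun w => ?_, fun S hS => ?_⟩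
  · have h1 := w.1.1.2
    have h2 := w.1.2.2
    show (if j = 0 then w.1.1.val else w.1.2.val) ≤ n
    split_ifs <;> omega
  · have := l.1.2.2.2
    show l.1.2.2.val ≤ n
    omega
  · have h1 := (he l i.succ).1
    have h2 := (he l i.succ).2
    have h3 := (he l 0).1
    have h4 := (he l 0).2
    have hz1 : ¬ (0 : Fin (2 + 1)) = 1 := by decide
    have hz2 : ¬ (0 : Fin (2 + 1)) = 2 := by decide
    rw [if_neg hz1] at h3
    rw [if_neg hz2] at h4
    show (if j = 0 then (e l i.succ).1.1.val else (e l i.succ).1.2.val) =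
      (if j = 0 then (e l 0).1.1.val else (e l 0).1.2.val) + if i = j then l.1.2.2.val else 0
    have hi : i = 0 ∨ i = 1 := by
      have h : ∀ i : Fin 2, i = 0 ∨ i = 1 := by decide
      exact h i
    have hj : j = 0 ∨ j = 1 := by
      have h : ∀ i : Fin 2, i = 0 ∨ i = 1 := by decide
      exact h j
    have s0 : (0 : Fin 2).succ = (1 : Fin (2 + 1)) := rfl
    have s1 : (1 : Fin 2).succ = (2 : Fin (2 + 1)) := rfl
    have t12 : ¬ (1 : Fin (2 + 1)) = 2 := by decide
    have t21 : ¬ (2 : Fin (2 + 1)) = 1 := by decide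
    have u01 : ¬ (0 : Fin 2) = 1 := by decide
    have u10 : ¬ (1 : Fin 2) = 0 := by decide
    rcases hi with hi | hi <;> rcases hj with hj | hj <;> subst hi <;> subst hj
    · rw [s0] at h1 h2
      rw [if_pos rfl] at h1
      rw [s0, if_pos rfl, if_pos rfl, if_pos rfl]
      omega
    · rw [s0] at h1 h2
      rw [if_neg t12] at h2
      rw [s0, if_neg u10, if_neg u10, if_neg u01]
      omega
    · rw [s1] at h1 h2
      rw [if_neg t21] at h1
      rw [s1, if_pos rfl, if_pos rfl, if_neg u10]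
      omega
    · rw [s1] at h1 h2
      rw [if_pos rfl] at h2
      rw [s1, if_neg u10, if_neg u10, if_pos rfl]
      omega
  · intro i j h
    by_contra hij
    obtain ⟨a1, a2⟩ := he l i
    obtain ⟨b1, b2⟩ := he l j
    have h' : e l i = e l j := h
    have hd := hne l
    rw [h'] at a1 a2
    have hall : ∀ i : Fin (2 + 1), i = 0 ∨ i = 1 ∨ i = 2 := by decide
    have t01 : ¬ (0 : Fin (2 + 1)) = 1 := by decide
    have t02 : ¬ (0 : Fin (2 + 1)) = 2 := by decide
    have t12 : ¬ (1 : Fin (2 + 1)) = 2 := by decide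
    have t21 : ¬ (2 : Fin (2 + 1)) = 1 := by decide
    rcases hall i with hi | hi | hi <;> rcases hall j with hj | hj | hj <;> rw [hi, hj] at hij <;>
      rw [hi] at a1 a2 <;> rw [hj] at b1 b2 a1 a2 <;>
      simp only [t01, t02, t12, t21, if_true, if_false] at a1 a2 b1 b2 <;>
      first | exact hij rfl | omega
  · by_contra hij
    apply hll
    obtain ⟨a1, a2⟩ := he l i
    obtain ⟨b1, b2⟩ := he l j
    obtain ⟨a3, a4⟩ := he l' i'
    obtain ⟨b3, b4⟩ := he l' j'
    rw [← h1] at a3 a4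
    rw [← h2] at b3 b4
    obtain ⟨c1, c2, c3⟩ := tri_aux l.1.1.val l.1.2.1.val l.1.2.2.val l'.1.1.val l'.1.2.1.val l'.1.2.2.val (hne l) (hne l')
      i j i' j' hij (a1.symm.trans a3) (a2.symm.trans a4) (b1.symm.trans b3) (b2.symm.trans b4)
    apply Subtype.ext
    apply Prod.ext
    · exact Fin.ext c1
    · apply Prod.ext
      · exact Fin.ext c2
      · exact Fin.ext c3
  · have hw := w.2
    have hext : ∀ l i, (e l i).1.1.val = w.1.1.val → (e l i).1.2.val = w.1.2.val → e l i = w := by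
      intro l i h1 h2
      apply Subtype.ext
      apply Prod.ext
      · exact Fin.ext h1
      · exact Fin.ext h2
    have hz1 : ¬ (0 : Fin (2 + 1)) = 1 := by decide
    have hz2 : ¬ (0 : Fin (2 + 1)) = 2 := by decide
    have t12 : ¬ (1 : Fin (2 + 1)) = 2 := by decide
    have t21 : ¬ (2 : Fin (2 + 1)) = 1 := by decide
    by_cases h1 : w.1.1.val + w.1.2.val < n
    · refine ⟨⟨(w.1.1, w.1.2, ⟨1, by omega⟩), le_refl _, by show w.1.1.val + w.1.2.val + 1 ≤ n; omega⟩, 0, hext _ _ ?_ ?_⟩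
      · rw [(he _ _).1, if_neg hz1]
        rfl
      · rw [(he _ _).2, if_neg hz2]
        rfl
    · by_cases h2 : 1 ≤ w.1.1.val
      · refine ⟨⟨(⟨0, by omega⟩, w.1.2, w.1.1), h2, by show 0 + w.1.2.val + w.1.1.val ≤ n; omega⟩, 1, hext _ _ ?_ ?_⟩
        · rw [(he _ _).1, if_pos rfl]
          show 0 + w.1.1.val = w.1.1.val
          omega
        · rw [(he _ _).2, if_neg t12]
          rfl
      · refine ⟨⟨(w.1.1, ⟨0, by omega⟩, w.1.2), by show 1 ≤ w.1.2.val; omega, by show w.1.1.val + 0 + w.1.2.val ≤ n; omega⟩,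
          2, hext _ _ ?_ ?_⟩
        · rw [(he _ _).1, if_neg t21]
          rfl
        · rw [(he _ _).2, if_pos rfl]
          show 0 + w.1.2.val = w.1.2.val
          omega
  · obtain ⟨f, hf⟩ : ∃ f : {p : Fin (n + 1) × Fin (n + 1) // p.1.val + p.2.val ≤ n} → ℕ × ℕ,
        f = fun w => (w.1.1.val, w.1.2.val) := ⟨_, rfl⟩
    have hf1 : ∀ w, f w = (w.1.1.val, w.1.2.val) := fun w => by rw [hf]
    have hfinj : Function.Injective f := by
      intro w w' h
      rw [hf1, hf1, Prod.mk.injEq] at h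
      apply Subtype.ext
      apply Prod.ext
      · exact Fin.ext h.1
      · exact Fin.ext h.2
    obtain ⟨x, y, d, hd, g1, g2, g3⟩ := hn₀ (n + 1) (by omega) (by omega) (S.image f) (by
      intro p hp
      rw [mem_image] at hp
      obtain ⟨w, -, hw⟩ := hp
      rw [← hw, hf1, mem_product, mem_range, mem_range]
      exact ⟨w.1.1.2, w.1.2.2⟩) (by
      rw [card_image_of_injective _ hfinj]
      refine le_trans ?_ hS
      push_cast
      have := mul_le_mul_of_nonneg_left hcardW hδ.le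
      linarith)
    rw [mem_image] at g1 g2 g3
    obtain ⟨w0, hw0, g1⟩ := g1
    obtain ⟨w1, hw1, g2⟩ := g2
    obtain ⟨w2, hw2, g3⟩ := g3
    rw [hf1, Prod.mk.injEq] at g1 g2 g3
    have k0 := w0.2
    have k1 := w1.2
    have k2 := w2.2
    rw [g2.1, g2.2] at k1
    have hz1 : ¬ (0 : Fin (2 + 1)) = 1 := by decide
    have hz2 : ¬ (0 : Fin (2 + 1)) = 2 := by decide
    have t12 : ¬ (1 : Fin (2 + 1)) = 2 := by decide
    have t21 : ¬ (2 : Fin (2 + 1)) = 1 := by decide
    have hall : ∀ i : Fin (2 + 1), i = 0 ∨ i = 1 ∨ i = 2 := by decide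
    have hext : ∀ l i w, (e l i).1.1.val = w.1.1.val → (e l i).1.2.val = w.1.2.val → e l i = w := by
      intro l i w h1 h2
      apply Subtype.ext
      apply Prod.ext
      · exact Fin.ext h1
      · exact Fin.ext h2
    refine ⟨⟨(⟨x, by omega⟩, ⟨y, by omega⟩, ⟨d, by omega⟩), hd, by show x + y + d ≤ n; omega⟩, fun i => ?_⟩
    rcases hall i with hi | hi | hi
    · rw [hi]
      have : e ⟨(⟨x, by omega⟩, ⟨y, by omega⟩, ⟨d, by omega⟩), hd, by show x + y + d ≤ n; omega⟩ 0 = w0 := by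
        apply hext
        · rw [(he _ _).1, if_neg hz1, g1.1]
          rfl
        · rw [(he _ _).2, if_neg hz2, g1.2]
          rfl
      rw [this]
      exact hw0
    · rw [hi]
      have : e ⟨(⟨x, by omega⟩, ⟨y, by omega⟩, ⟨d, by omega⟩), hd, by show x + y + d ≤ n; omega⟩ 1 = w1 := by
        apply hext
        · rw [(he _ _).1, if_pos rfl, g2.1]
        · rw [(he _ _).2, if_neg t12, g2.2]
          rfl
      rw [this]
      exact hw1
    · rw [hi]
      have : e ⟨(⟨x, by omega⟩, ⟨y, by omega⟩, ⟨d, by omega⟩), hd, by show x + y + d ≤ n; omega⟩ 2 = w2 := by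
        apply hext
        · rw [(he _ _).1, if_neg t21, g3.1]
          rfl
        · rw [(he _ _).2, if_pos rfl, g3.2]
      rw [this]
      exact hw2

end Pool.Agent.H34.EQ
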