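import Pool.Agent.H34.EQ.Plu
import Pool.Agent.H62.EX.Pl

/-!
# [H34 EQ WRD] The system of the words and combinatorial lines

`configs`: the hypothesis `Configs` of H62/EX/Pl; `hasSys_of_dhj`: `HasSys k` from the density Hales-Jewett theorem.
-/

set_option autoImplicit false

namespace Pool.Agent.H34.EQ

open Finset Pool.Agent.H61.UN Pool.Agent.H62.EX

/-- the number of letters `j + 1` -/
def cw {k n : ℕ} (w : Fin n → Fin (k + 1)) (j : Fin k) : ℕ := (univ.filter (fun x => w x = j.succ)).card

/-- the number of wildcards -/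
def mw {k n : ℕ} (l : Combinatorics.Line (Fin (k + 1)) (Fin n)) : ℕ := (univ.filter (fun x => l.idxFun x = none)).card

theorem line_apply {k n : ℕ} (l : Combinatorics.Line (Fin (k + 1)) (Fin n)) (a : Fin (k + 1)) (x : Fin n) :
    l a x = (l.idxFun x).getD a := rfl

theorem cw_le {k n : ℕ} (w : Fin n → Fin (k + 1)) (j : Fin k) : cw w j ≤ n := by
  unfold cw
  refine (card_filter_le _ _).trans (le_of_eq ?_)
  rw [card_univ, Fintype.card_fin]

theorem mw_pos {k n : ℕ} (l : Combinatorics.Line (Fin (k + 1)) (Fin n)) : 1 ≤ mw l := by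
  obtain ⟨x, hx⟩ := l.proper
  exact card_pos.2 ⟨x, mem_filter.2 ⟨mem_univ _, hx⟩⟩

theorem mw_le {k n : ℕ} (l : Combinatorics.Line (Fin (k + 1)) (Fin n)) : mw l ≤ n := by
  unfold mw
  refine (card_filter_le _ _).trans (le_of_eq ?_)
  rw [card_univ, Fintype.card_fin]

theorem cw_line {k n : ℕ} (l : Combinatorics.Line (Fin (k + 1)) (Fin n)) (i j : Fin k) :
    cw (l i.succ) j = cw (l 0) j + if i = j then mw l else 0 := by
  have h0 : univ.filter (fun x => l 0 x = j.succ) = univ.filter (fun x => l.idxFun x = some j.succ) := by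
    ext x
    rw [mem_filter, mem_filter, line_apply]
    cases hx : l.idxFun x with
    | none =>
      simp only [mem_univ, true_and, Option.getD_none]
      exact ⟨fun h => absurd h (Fin.succ_ne_zero j).symm, fun h => by simp at h⟩
    | some y => simp
  unfold cw
  rw [h0]
  by_cases hij : i = j
  · subst hij
    rw [if_pos rfl]
    unfold mw
    rw [← card_union_of_disjoint]
    · congr 1
      ext x
      rw [mem_union, mem_filter, mem_filter, mem_filter, line_apply]
      cases hx : l.idxFun x with
      | none => simp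
      | some y => simp
    · rw [disjoint_left]
      intro x hx hx'
      rw [mem_filter] at hx hx'
      rw [hx.2] at hx'
      simp at hx'
  · rw [if_neg hij]
    show (univ.filter (fun x => l i.succ x = j.succ)).card = (univ.filter (fun x => l.idxFun x = some j.succ)).card
    refine congrArg _ ?_
    ext x
    rw [mem_filter, mem_filter, line_apply]
    cases hx : l.idxFun x with
    | none =>
      simp only [mem_univ, true_and, Option.getD_none]
      exact ⟨fun h => absurd (Fin.succ_injective _ h) hij, fun h => by simp at h⟩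
    | some y => simp

theorem line_inj {k n : ℕ} (l : Combinatorics.Line (Fin (k + 1)) (Fin n)) : Function.Injective (fun i => l i) := by
  intro i j h
  obtain ⟨x, hx⟩ := l.proper
  have h1 : l i x = l j x := congrFun h x
  rw [line_apply, line_apply, hx] at h1
  exact h1

theorem line_lin {k n : ℕ} (l l' : Combinatorics.Line (Fin (k + 1)) (Fin n)) (hll : l ≠ l') (i j i' j' : Fin (k + 1))
    (h1 : l i = l' i') (h2 : l j = l' j') : i = j := by
  by_contra hij
  have hij' : i' ≠ j' := by
    intro h
    apply hij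
    apply line_inj l
    show l i = l j
    rw [h1, h2, h]
  have hnone : ∀ x, l.idxFun x = none ↔ l'.idxFun x = none := by
    intro x
    have e1 : (l.idxFun x).getD i = (l'.idxFun x).getD i' := congrFun h1 x
    have e2 : (l.idxFun x).getD j = (l'.idxFun x).getD j' := congrFun h2 x
    cases hx : l.idxFun x with
    | none =>
      cases hx' : l'.idxFun x with
      | none => simp
      | some y' =>
        rw [hx, hx'] at e1 e2
        simp only [Option.getD_none, Option.getD_some] at e1 e2
        exact absurd (e1.trans e2.symm) hij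
    | some y =>
      cases hx' : l'.idxFun x with
      | none =>
        rw [hx, hx'] at e1 e2
        simp only [Option.getD_none, Option.getD_some] at e1 e2
        exact absurd (e1.symm.trans e2) hij'
      | some y' => simp
  apply hll
  ext1
  funext x
  have e1 : (l.idxFun x).getD i = (l'.idxFun x).getD i' := congrFun h1 x
  cases hx : l.idxFun x with
  | none => exact ((hnone x).1 hx).symm
  | some y =>
    cases hx' : l'.idxFun x with
    | none =>
      have := (hnone x).2 hx'
      rw [hx] at this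
      exact absurd this (by simp)
    | some y' =>
      rw [hx, hx'] at e1
      simp only [Option.getD_some] at e1
      rw [e1]

theorem line_cov {k n : ℕ} (hn : 1 ≤ n) (w : Fin n → Fin (k + 1)) :
    ∃ (l : Combinatorics.Line (Fin (k + 1)) (Fin n)) (i : Fin (k + 1)), l i = w := by
  obtain ⟨x0⟩ : Nonempty (Fin n) := ⟨⟨0, hn⟩⟩
  refine ⟨⟨fun x => if x = x0 then none else some (w x), x0, by simp⟩, w x0, ?_⟩
  funext x
  show ((if x = x0 then none else some (w x) : Option (Fin (k + 1)))).getD (w x0) = w x
  by_cases hx : x = x0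
  · rw [if_pos hx, hx]
    rfl
  · rw [if_neg hx]
    rfl

theorem line_finite (k n : ℕ) : Finite (Combinatorics.Line (Fin (k + 1)) (Fin n)) := by
  refine Finite.of_injective (fun l : Combinatorics.Line (Fin (k + 1)) (Fin n) => l.idxFun) ?_
  intro l l' h
  ext1
  exact h

/-- **Configs** -/
theorem configs (k n s R ρ : ℕ) (hn : 1 ≤ n) (hs : 1 ≤ s) (hR : 0 < R) : Configs k n s R ρ := by
  classical
  have := line_finite k n
  obtain ⟨hf⟩ := nonempty_fintype (Combinatorics.Line (Fin (k + 1)) (Fin n))
  refine ⟨R * (n * k + 1), Nat.mul_pos hR (Nat.succ_pos _), fun ε hε => ?_⟩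
  obtain ⟨c, L0, hc, h⟩ := conf_sys (W := Fin n → Fin (k + 1)) (ι := Combinatorics.Line (Fin (k + 1)) (Fin n)) (k := k) n
    (fun l i => l i) cw mw cw_le mw_pos cw_line line_inj line_lin (line_cov hn) s R ρ hs hR ε hε
  refine ⟨c, L0, hc, fun z hz E hE1 hE2 => ?_⟩
  obtain ⟨𝓗, h1, h2⟩ := h z hz E (fun a ha i => ((hE1 a ha).2 i).2) hE2
  have hcW : Fintype.card (Fin n → Fin (k + 1)) = (k + 1) ^ n := by
    rw [Fintype.card_fun, Fintype.card_fin, Fintype.card_fin]
  rw [hcW, ← Nat.mul_assoc R] at h1
  refine ⟨𝓗, h1, fun v hv => ?_⟩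
  obtain ⟨h3, h4, h5, h6⟩ := h2 v hv
  rw [← Nat.mul_assoc R] at h4
  refine ⟨mem_IJ.2 ⟨h4, h3⟩, h5, fun l t => ?_⟩
  obtain ⟨b, hb, h7⟩ := h6 l t
  exact ⟨b, hb, mw l, mw_pos l, mw_le l, h7⟩

/-- the system of the words -/
theorem hasSys_of_dhj (k : ℕ) (h : ∀ δ : ℝ, 0 < δ → ∃ n : ℕ, 1 ≤ n ∧ DHJ (k + 1) n δ) : HasSys k := by
  classical
  intro δ hδ
  obtain ⟨n, hn, hD⟩ := h δ hδ
  have := line_finite k n
  obtain ⟨hf⟩ := nonempty_fintype (Combinatorics.Line (Fin (k + 1)) (Fin n))
  refine ⟨n, Fin n → Fin (k + 1), Combinatorics.Line (Fin (k + 1)) (Fin n), inferInstance, inferInstance, inferInstance, hf,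
    fun l i => l i, cw, mw, cw_le, mw_pos, mw_le, cw_line, line_inj, line_lin, line_cov hn, fun S hS => ?_⟩
  refine hD S (le_trans (le_of_eq ?_) hS)
  rw [Fintype.card_fun, Fintype.card_fin, Fintype.card_fin]
  push_cast
  rfl

end Pool.Agent.H34.EQ
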